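import Pool.Agent.N520.RO.Def

/-!
Project RO, second part: rank one action on an invariant subspace.  Exact statements of the parts.
-/

set_option autoImplicit false

open Set Filter Topology Metric

namespace Pool.Agent.N520.RO

/-- elements which fix three different plates are bounded -/
def S_THREE : Prop := ∀ (G : Type) [Group G] [TopologicalSpace G] [IsTopologicalGroup G]
    (K : Set G) (P : Subgroup G) (T : ℝ → G) (w : G), RankOne K P T w →
  ∀ (E : Type) [NormedAddCommGroup E] [NormedSpace ℝ E] [FiniteDimensional ℝ E]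
    (ρ : G →* (E ≃ₗ[ℝ] E)), IsRep T ρ → ∀ k1 k2 k3 : G, k1⁻¹ * k2 ∉ P → k2⁻¹ * k3 ∉ P →
  k1⁻¹ * k3 ∉ P → ∃ C : ℝ, ∀ g : G, k1⁻¹ * g * k1 ∈ P → k2⁻¹ * g * k2 ∈ P →
    k3⁻¹ * g * k3 ∈ P → ∀ v, ‖ρ g v‖ ≤ C * ‖v‖

/-- in a bounded group the distance from the identity is controlled by the trace -/
def S_TR : Prop := ∀ (V : Type) [NormedAddCommGroup V] [NormedSpace ℝ V] [FiniteDimensional ℝ V]
    (D : Type) [Group D] (A : D →* (V →L[ℝ] V)ˣ) (C : ℝ), (∀ l, ‖(A l : V →L[ℝ] V)‖ ≤ C) →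
  ∃ K : ℝ, ∀ l : D, ‖(A l : V →L[ℝ] V) - 1‖ ^ 2 ≤
    K * ((Module.finrank ℝ V : ℝ) - LinearMap.trace ℝ V ((A l : V →L[ℝ] V) : V →ₗ[ℝ] V))

/-- a group whose derived series reaches a group with a normal solvable subgroup of finite index -/
def S_GRP2 : Prop := ∀ (Λ : Type) [Group Λ] (N : Subgroup Λ) [N.Normal] (j : ℕ),
  Group.IsSolvable N → N ≤ derivedSeries Λ j → N.relIndex (derivedSeries Λ j) ≠ 0 →
  ∃ C : Subgroup Λ, C.FiniteIndex ∧ Group.IsSolvable C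

/-- discrete block triangular groups with a bounded derived subgroup are virtually solvable -/
def S_VS2 : Prop := ∀ (V : Type) [NormedAddCommGroup V] [NormedSpace ℝ V] [FiniteDimensional ℝ V]
    (Λ : Type) [Group Λ] (θ : Λ →* (V →L[ℝ] V)ˣ) (m : ℕ) (π : Fin m → V →L[ℝ] V), Disc θ →
  Sys m π → Upper π θ → (∃ (j : ℕ) (C : ℝ), ∀ l ∈ derivedSeries Λ j, ∀ i,
    ‖π i * (θ l : V →L[ℝ] V) * π i‖ ≤ C) →
  ∃ C : Subgroup Λ, C.FiniteIndex ∧ Group.IsSolvable (C.map θ)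

end Pool.Agent.N520.RO
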