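import Pool.Agent.N520.RO.Stm

/-!
Project RO: discrete groups with a quasi-conformal flag are virtually solvable.
-/

set_option autoImplicit false

open Set Filter Topology
open Pool.Agent.Y449.MS

namespace Pool.Agent.N520.RO

section gr
variable {V : Type} [NormedAddCommGroup V] [NormedSpace ℝ V]
variable {Λ : Type} [Group Λ] (θ : Λ →* (V →L[ℝ] V)ˣ) {m : ℕ} (π : Fin m → V →L[ℝ] V)

/-- the diagonal part -/
noncomputable def gr (l : Λ) : V →L[ℝ] V := ∑ i, π i * (θ l : V →L[ℝ] V) * π i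

variable {θ} {π}

theorem blk_mul (hS : Sys m π) (hU : Upper π θ) (i : Fin m) (l l' : Λ) :
    π i * (θ (l * l') : V →L[ℝ] V) * π i =
      (π i * (θ l : V →L[ℝ] V) * π i) * (π i * (θ l' : V →L[ℝ] V) * π i) := by
  have h1 : (θ (l * l') : V →L[ℝ] V) = ∑ j, (θ l : V →L[ℝ] V) * π j * (θ l' : V →L[ℝ] V) := by
    rw [← Finset.sum_mul, ← Finset.mul_sum, hS.sum, mul_one, map_mul, Units.val_mul]
  have h2 : ∀ j ∈ Finset.univ, j ≠ i →
      π i * ((θ l : V →L[ℝ] V) * π j * (θ l' : V →L[ℝ] V)) * π i = 0 := by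
    intro j _ hj
    rcases lt_or_gt_of_ne hj with h | h
    · have := hU l i j h
      calc _ = (π i * (θ l : V →L[ℝ] V) * π j) * ((θ l' : V →L[ℝ] V) * π i) := by
            simp only [mul_assoc]
        _ = 0 := by rw [this, zero_mul]
    · have := hU l' j i h
      calc π i * ((θ l : V →L[ℝ] V) * π j * (θ l' : V →L[ℝ] V)) * π i
          = (π i * (θ l : V →L[ℝ] V)) * (π j * (θ l' : V →L[ℝ] V) * π i) := by
            simp only [mul_assoc]
        _ = 0 := by rw [this, mul_zero]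
  rw [h1, Finset.mul_sum, Finset.sum_mul, Finset.sum_eq_single i h2 (by simp)]
  have h3 : π i * π i = π i := by simpa using hS.orth i i
  calc π i * ((θ l : V →L[ℝ] V) * π i * (θ l' : V →L[ℝ] V)) * π i
      = π i * (θ l : V →L[ℝ] V) * π i * ((θ l' : V →L[ℝ] V) * π i) := by simp only [mul_assoc]
    _ = π i * (θ l : V →L[ℝ] V) * (π i * π i) * ((θ l' : V →L[ℝ] V) * π i) := by rw [h3]
    _ = _ := by simp only [mul_assoc]

theorem blk_one (hS : Sys m π) (i : Fin m) :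
    π i * (θ (1 : Λ) : V →L[ℝ] V) * π i = π i := by
  rw [map_one, Units.val_one, mul_one]
  simpa using hS.orth i i

theorem gr_one (hS : Sys m π) : gr θ π (1 : Λ) = 1 := by
  unfold gr
  rw [← hS.sum]
  exact Finset.sum_congr rfl fun i _ => blk_one hS i

theorem blk_gr (hS : Sys m π) (i : Fin m) (l : Λ) :
    π i * gr θ π l = π i * (θ l : V →L[ℝ] V) * π i := by
  unfold gr
  rw [Finset.mul_sum, Finset.sum_eq_single i]
  · have h3 : π i * π i = π i := by simpa using hS.orth i i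
    rw [← mul_assoc, ← mul_assoc, h3]
  · intro j _ hj
    have h3 : π i * π j = 0 := by simpa [Ne.symm hj] using hS.orth i j
    rw [← mul_assoc, ← mul_assoc, h3, zero_mul, zero_mul]
  · simp

/-- conjugates of elements near the identity -/
theorem conj_bound (hS : Sys m π) (hU : Upper π θ) {Cq C : ℝ} (hC : 0 ≤ C) (hCq : 0 ≤ Cq)
    (hq : ∀ (l : Λ) (i : Fin m), ∃ c : ℝ, 0 < c ∧ ‖π i * (θ l : V →L[ℝ] V) * π i‖ ≤ Cq * c ∧
      ‖π i * (θ l⁻¹ : V →L[ℝ] V) * π i‖ ≤ Cq * c⁻¹) (d e δ : Λ)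
    (hd : ∀ i, ‖π i * (θ d⁻¹ : V →L[ℝ] V) * π i‖ ≤ C) :
    ‖gr θ π (δ * (d⁻¹ * e) * δ⁻¹) - 1‖ ≤
      (∑ i, Cq * Cq * C * ‖π i‖) * ‖gr θ π e - gr θ π d‖ := by
  have h0 : gr θ π (δ * (d⁻¹ * e) * δ⁻¹) - 1 = ∑ i,
      (π i * (θ δ : V →L[ℝ] V) * π i) * (π i * (θ d⁻¹ : V →L[ℝ] V) * π i) *
        (π i * (gr θ π e - gr θ π d)) * (π i * (θ δ⁻¹ : V →L[ℝ] V) * π i) := by
    rw [← gr_one (θ := θ) hS]
    unfold gr
    rw [← Finset.sum_sub_distrib]
    refine Finset.sum_congr rfl fun i _ => ?_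
    have h1 : π i * (θ (δ * (d⁻¹ * e) * δ⁻¹) : V →L[ℝ] V) * π i =
        (π i * (θ δ : V →L[ℝ] V) * π i) * (π i * (θ d⁻¹ : V →L[ℝ] V) * π i) *
        (π i * (θ e : V →L[ℝ] V) * π i) * (π i * (θ δ⁻¹ : V →L[ℝ] V) * π i) := by
      rw [blk_mul hS hU, blk_mul hS hU, blk_mul hS hU]
      simp only [mul_assoc]
    have h2 : π i * (θ (1 : Λ) : V →L[ℝ] V) * π i =
        (π i * (θ δ : V →L[ℝ] V) * π i) * (π i * (θ d⁻¹ : V →L[ℝ] V) * π i) *
        (π i * (θ d : V →L[ℝ] V) * π i) * (π i * (θ δ⁻¹ : V →L[ℝ] V) * π i) := by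
      have : (1 : Λ) = δ * (d⁻¹ * d) * δ⁻¹ := by group
      conv_lhs => rw [this]
      rw [blk_mul hS hU, blk_mul hS hU, blk_mul hS hU]
      simp only [mul_assoc]
    have h3 := blk_gr (θ := θ) hS i e
    have h4 := blk_gr (θ := θ) hS i d
    unfold gr at h3 h4
    rw [h1, h2, mul_sub, h3, h4]
    noncomm_ring
  rw [h0, Finset.sum_mul]
  refine (norm_sum_le _ _).trans (Finset.sum_le_sum fun i _ => ?_)
  obtain ⟨c, hc, h1, h2⟩ := hq δ i
  have h3 := hd i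
  have hz : ‖π i * (gr θ π e - gr θ π d)‖ ≤ ‖π i‖ * ‖gr θ π e - gr θ π d‖ := norm_mul_le _ _
  calc _ ≤ ‖π i * (θ δ : V →L[ℝ] V) * π i‖ * ‖π i * (θ d⁻¹ : V →L[ℝ] V) * π i‖ *
        ‖π i * (gr θ π e - gr θ π d)‖ * ‖π i * (θ δ⁻¹ : V →L[ℝ] V) * π i‖ := by
        refine (norm_mul_le _ _).trans ?_
        gcongr
        refine (norm_mul_le _ _).trans ?_
        gcongr
        exact norm_mul_le _ _
    _ ≤ (Cq * c) * C * (‖π i‖ * ‖gr θ π e - gr θ π d‖) * (Cq * c⁻¹) := by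
        gcongr
    _ = Cq * Cq * C * ‖π i‖ * ‖gr θ π e - gr θ π d‖ * (c * c⁻¹) := by ring
    _ = _ := by rw [mul_inv_cancel₀ hc.ne', mul_one]

end gr

section inj
variable {V : Type} [NormedAddCommGroup V] [NormedSpace ℝ V]

/-- the action on the complex valued linear functions -/
noncomputable def dualRep {Λ : Type} [Group Λ] (θ : Λ →* (V →L[ℝ] V)ˣ) :
    Λ →* ((V →ₗ[ℝ] ℂ) ≃ₗ[ℂ] (V →ₗ[ℝ] ℂ)) where
  toFun l :=
    { toFun := fun φ => φ.comp ((θ l⁻¹ : V →L[ℝ] V) : V →ₗ[ℝ] V)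
      map_add' := fun _ _ => rfl
      map_smul' := fun _ _ => rfl
      invFun := fun φ => φ.comp ((θ l : V →L[ℝ] V) : V →ₗ[ℝ] V)
      left_inv := by
        intro φ
        refine LinearMap.ext fun v => ?_
        have h : (θ l⁻¹ : V →L[ℝ] V) * (θ l : V →L[ℝ] V) = 1 := by
          rw [← Units.val_mul, ← map_mul, inv_mul_cancel, map_one, Units.val_one]
        exact congrArg φ (DFunLike.congr_fun h v)
      right_inv := by
        intro φ
        refine LinearMap.ext fun v => ?_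
        have h : (θ l : V →L[ℝ] V) * (θ l⁻¹ : V →L[ℝ] V) = 1 := by
          rw [← Units.val_mul, ← map_mul, mul_inv_cancel, map_one, Units.val_one]
        exact congrArg φ (DFunLike.congr_fun h v) }
  map_one' := by
    refine LinearEquiv.ext fun φ => LinearMap.ext fun v => ?_
    show φ ((θ (1 : Λ)⁻¹ : V →L[ℝ] V) v) = φ v
    rw [inv_one, map_one, Units.val_one]
    rfl
  map_mul' l l' := by
    refine LinearEquiv.ext fun φ => LinearMap.ext fun v => ?_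
    show φ ((θ (l * l')⁻¹ : V →L[ℝ] V) v) = φ ((θ l'⁻¹ : V →L[ℝ] V) ((θ l⁻¹ : V →L[ℝ] V) v))
    rw [mul_inv_rev, map_mul, Units.val_mul]
    rfl

theorem dualRep_apply {Λ : Type} [Group Λ] (θ : Λ →* (V →L[ℝ] V)ˣ) (l : Λ) (φ : V →ₗ[ℝ] ℂ)
    (v : V) : dualRep θ l φ v = φ ((θ l⁻¹ : V →L[ℝ] V) v) := rfl

theorem dualRep_inj [FiniteDimensional ℝ V] {Λ : Type} [Group Λ] (θ : Λ →* (V →L[ℝ] V)ˣ)
    (hθ : Function.Injective θ) : Function.Injective (dualRep θ) := by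
  rw [injective_iff_map_eq_one]
  intro l hl
  have h1 : ∀ (φ : V →ₗ[ℝ] ℂ) v, φ ((θ l⁻¹ : V →L[ℝ] V) v) = φ v := by
    intro φ v
    rw [← dualRep_apply θ l φ v, hl]
    rfl
  have h2 : θ l⁻¹ = 1 := by
    refine Units.ext (ContinuousLinearMap.ext fun v => ?_)
    rw [Units.val_one]
    show (θ l⁻¹ : V →L[ℝ] V) v = v
    rw [← sub_eq_zero]
    refine (Module.forall_dual_apply_eq_zero_iff ℝ _).mp fun f => ?_
    have := h1 (Complex.ofRealCLM.toLinearMap.comp f) v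
    rw [map_sub]
    have h3 : ((f ((θ l⁻¹ : V →L[ℝ] V) v) : ℝ) : ℂ) = ((f v : ℝ) : ℂ) := this
    rw [sub_eq_zero]
    exact_mod_cast h3
  have h3 : l⁻¹ = 1 := hθ (by rw [h2, map_one])
  rwa [inv_eq_one] at h3

theorem ev_of_ev [FiniteDimensional ℝ V] {Λ : Type} [Group Λ] (θ : Λ →* (V →L[ℝ] V)ˣ) (x : Λ)
    (μ : ℂ) (w : V →ₗ[ℝ] ℂ) (h : dualRep θ x w = μ • w) (v : V) :
    w ((θ x⁻¹ : V →L[ℝ] V) v) = μ * w v := by
  rw [← dualRep_apply, h]
  rfl

end inj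

theorem vs_inj (h1 : S_ZAS) (h2 : S_TRIA) (h3 : S_TRIB) (h4 : S_BDD) (h5 : S_IDX) (h6 : S_GRP)
    (V : Type) [NormedAddCommGroup V] [NormedSpace ℝ V] [FiniteDimensional ℝ V]
    (Λ : Type) [Group Λ] (θ : Λ →* (V →L[ℝ] V)ˣ) (m : ℕ) (π : Fin m → V →L[ℝ] V)
    (hinj : Function.Injective θ) (hD : Disc θ) (hS : Sys m π) (hU : Upper π θ) (hQ : QC π θ) :
    ∃ C : Subgroup Λ, C.FiniteIndex ∧ Group.IsSolvable C := by
  obtain ⟨C0, hC0⟩ := h4 V Λ θ m π hS hU hQ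
  obtain ⟨Cq0, hq0⟩ := hQ
  set C : ℝ := max C0 0 with hCdef
  set Cq : ℝ := max Cq0 0 with hCqdef
  have hC : 0 ≤ C := le_max_right _ _
  have hCq : 0 ≤ Cq := le_max_right _ _
  have hb : ∀ l ∈ commutator Λ, ∀ i, ‖π i * (θ l : V →L[ℝ] V) * π i‖ ≤ C :=
    fun l hl i => (hC0 l hl i).trans (le_max_left _ _)
  have hq : ∀ (l : Λ) (i : Fin m), ∃ c : ℝ, 0 < c ∧ ‖π i * (θ l : V →L[ℝ] V) * π i‖ ≤ Cq * c ∧
      ‖π i * (θ l⁻¹ : V →L[ℝ] V) * π i‖ ≤ Cq * c⁻¹ := by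
    intro l i
    obtain ⟨c, hc, ha, hb⟩ := hq0 l i
    refine ⟨c, hc, ha.trans ?_, hb.trans ?_⟩
    · gcongr
      exact le_max_left _ _
    · gcongr
      exact le_max_left _ _
  let X : Set Λ := {l | l ∈ commutator Λ ∧ ∀ δ, ‖gr θ π (δ * l * δ⁻¹) - 1‖ ≤ 1 / 16 ∧
    ‖gr θ π (δ * l⁻¹ * δ⁻¹) - 1‖ ≤ 1 / 16}
  have hXconj : ∀ l ∈ X, ∀ g, g * l * g⁻¹ ∈ X := by
    intro l hl g
    refine ⟨(inferInstance : (commutator Λ).Normal).conj_mem l hl.1 g, fun δ => ?_⟩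
    have e1 : δ * (g * l * g⁻¹) * δ⁻¹ = (δ * g) * l * (δ * g)⁻¹ := by group
    have e2 : δ * (g * l * g⁻¹)⁻¹ * δ⁻¹ = (δ * g) * l⁻¹ * (δ * g)⁻¹ := by group
    rw [e1, e2]
    exact hl.2 (δ * g)
  have hXinv : ∀ l ∈ X, l⁻¹ ∈ X := by
    intro l hl
    refine ⟨inv_mem hl.1, fun δ => ?_⟩
    rw [inv_inv]
    exact ⟨(hl.2 δ).2, (hl.2 δ).1⟩
  let N : Subgroup Λ := Subgroup.closure X
  have hN : N.Normal := by
    refine ⟨fun n hn g => ?_⟩
    induction hn using Subgroup.closure_induction with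
    | mem x hx => exact Subgroup.subset_closure (hXconj x hx g)
    | one => simpa using one_mem N
    | mul x y _ _ hx hy =>
        have : g * (x * y) * g⁻¹ = (g * x * g⁻¹) * (g * y * g⁻¹) := by group
        rw [this]
        exact mul_mem hx hy
    | inv x _ hx =>
        have : g * x⁻¹ * g⁻¹ = (g * x * g⁻¹)⁻¹ := by group
        rw [this]
        exact inv_mem hx
  have hle : N ≤ commutator Λ := by
    rw [Subgroup.closure_le]
    exact fun x hx => hx.1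
  have hXgr : ∀ l ∈ X, ‖∑ i, π i * (θ l : V →L[ℝ] V) * π i - 1‖ ≤ 1 / 16 := by
    intro l hl
    have := (hl.2 1).1
    rwa [one_mul, inv_one, mul_one] at this
  -- finite index
  have hidx : N.relIndex (commutator Λ) ≠ 0 := by
    set M : ℝ := ∑ i, Cq * Cq * C * ‖π i‖ with hM
    have hM0 : 0 ≤ M := Finset.sum_nonneg fun i _ => by positivity
    refine h5 V Λ (commutator Λ) N (gr θ π) (∑ _i : Fin m, C) (1 / (16 * (M + 1))) ?_
      (by positivity) ?_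
    · intro d hd
      exact (norm_sum_le _ _).trans (Finset.sum_le_sum fun i _ => hb d hd i)
    · intro d hd e he hde
      have key : ∀ a ∈ commutator Λ, ∀ b ∈ commutator Λ,
          ‖gr θ π b - gr θ π a‖ < 1 / (16 * (M + 1)) →
          ∀ δ, ‖gr θ π (δ * (a⁻¹ * b) * δ⁻¹) - 1‖ ≤ 1 / 16 := by
        intro a ha b hb' hab δ
        refine (conj_bound hS hU hC hCq hq a b δ fun i => hb _ (inv_mem ha) i).trans ?_
        rw [← hM]
        calc M * ‖gr θ π b - gr θ π a‖ ≤ (M + 1) * (1 / (16 * (M + 1))) := by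
              gcongr
              linarith
          _ = 1 / 16 := by field_simp
      apply Subgroup.subset_closure
      refine ⟨mul_mem (inv_mem hd) he, fun δ => ⟨?_, ?_⟩⟩
      · exact key d hd e he (by rw [← norm_neg, neg_sub]; exact hde) δ
      · rw [mul_inv_rev, inv_inv]
        exact key e he d hd hde δ
  -- solvability
  have hsol : Group.IsSolvable N := by
    have hfin : FiniteDimensional ℂ (V →ₗ[ℝ] ℂ) := Module.Finite.of_restrictScalars_finite ℝ ℂ _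
    have hT := h2 (V →ₗ[ℝ] ℂ) Λ (dualRep θ) X ?_ ?_
    · have h7 := h3 (V →ₗ[ℝ] ℂ) Λ (dualRep θ) X hT
      have h8 : Function.Injective (((dualRep θ).comp N.subtype).codRestrict
          (N.map (dualRep θ)) (fun n => ⟨n, n.2, rfl⟩)) := by
        intro a b hab
        have : dualRep θ (a : Λ) = dualRep θ (b : Λ) := congrArg Subtype.val hab
        exact Subtype.ext (dualRep_inj θ hinj this)
      exact Group.isSolvable_of_isSolvable_injective h8
    · intro F hF hfinF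
      obtain ⟨k, hk⟩ := (h1 V Λ θ hD m π hS hU F hfinF fun f hf => hXgr f (hF hf)).1
      refine ⟨k, fun x hx => ?_⟩
      have : x = 1 := hinj (by rw [hk x hx, map_one])
      rw [this, map_one]
    · intro x hx μ w hw hμ
      have := (h1 V Λ θ hD m π hS hU {x⁻¹} (Set.finite_singleton _) (by
        intro f hf
        rw [Set.mem_singleton_iff.mp hf]
        exact hXgr _ (hXinv x hx))).2 x⁻¹ rfl w μ hw (ev_of_ev θ x μ w hμ)
      exact this
  exact h6 Λ N hsol hle hidx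

theorem t_vs (h1 : S_ZAS) (h2 : S_TRIA) (h3 : S_TRIB) (h4 : S_BDD) (h5 : S_IDX) (h6 : S_GRP) :
    S_VS := by
  intro V _ _ _ Λ _ θ m π hD hS hU hQ
  obtain ⟨C, hC1, hC2⟩ := vs_inj h1 h2 h3 h4 h5 h6 V θ.range θ.range.subtype m π
    Subtype.val_injective
    (by
      obtain ⟨ε, hε, h⟩ := hD
      refine ⟨ε, hε, ?_⟩
      rintro ⟨_, l, rfl⟩ hl
      exact h l hl)
    hS
    (by
      rintro ⟨_, l, rfl⟩ i j hij
      exact hU l i j hij)
    (by
      obtain ⟨K, h⟩ := hQ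
      refine ⟨K, ?_⟩
      rintro ⟨_, l, rfl⟩ i
      obtain ⟨c, hc, ha, hb⟩ := h l i
      refine ⟨c, hc, ha, ?_⟩
      rw [map_inv] at hb ⊢
      exact hb)
  refine ⟨C.comap θ.rangeRestrict, ?_, ?_⟩
  · refine ⟨?_⟩
    rw [Subgroup.index_comap_of_surjective C θ.rangeRestrict_surjective]
    exact hC1.index_ne_zero
  · have h8 : ∀ c : C, ((c : θ.range) : (V →L[ℝ] V)ˣ) ∈ (C.comap θ.rangeRestrict).map θ := by
      rintro ⟨⟨_, l, rfl⟩, hc⟩
      exact ⟨l, hc, rfl⟩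
    have h9 : Function.Surjective ((θ.range.subtype.comp C.subtype).codRestrict
        ((C.comap θ.rangeRestrict).map θ) h8) := by
      rintro ⟨_, l, hl, rfl⟩
      exact ⟨⟨⟨θ l, l, rfl⟩, hl⟩, rfl⟩
    exact Group.isSolvable_of_surjective h9

end Pool.Agent.N520.RO
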