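import Pool.Agent.N520.RO.Def

/-!
Project RO: the groups `U(n, 1)` over the real and complex numbers have real rank one.
-/

set_option autoImplicit false

open Set Filter Topology Matrix

namespace Pool.Agent.N520.RO

variable (𝕜 : Type) [RCLike 𝕜] (n : ℕ)

/-- the diagonal matrix with entries `-1, 1, …, 1` -/
def lor : Matrix (Fin (n + 2)) (Fin (n + 2)) 𝕜 := Matrix.diagonal fun i => if i = 0 then -1 else 1

/-- the isometry group of the form `-|x 0|² + |x 1|² + … + |x (n + 1)|²` over `𝕜 = ℝ` or `ℂ`: the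
group `O(n + 1, 1)` or `U(n + 1, 1)` -/
def LorGroup : Subgroup (GL (Fin (n + 2)) 𝕜) where
  carrier := {g | (g : Matrix (Fin (n + 2)) (Fin (n + 2)) 𝕜)ᴴ * lor 𝕜 n * g = lor 𝕜 n}
  mul_mem' := by
    intro g h hg hh
    show ((g : Matrix (Fin (n + 2)) (Fin (n + 2)) 𝕜) * (h : Matrix (Fin (n + 2)) (Fin (n + 2)) 𝕜))ᴴ *
      lor 𝕜 n * ((g : Matrix (Fin (n + 2)) (Fin (n + 2)) 𝕜) *
        (h : Matrix (Fin (n + 2)) (Fin (n + 2)) 𝕜)) = lor 𝕜 n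
    have hg' : (g : Matrix (Fin (n + 2)) (Fin (n + 2)) 𝕜)ᴴ * lor 𝕜 n * g = lor 𝕜 n := hg
    have hh' : (h : Matrix (Fin (n + 2)) (Fin (n + 2)) 𝕜)ᴴ * lor 𝕜 n * h = lor 𝕜 n := hh
    rw [conjTranspose_mul]
    calc _ = (h : Matrix (Fin (n + 2)) (Fin (n + 2)) 𝕜)ᴴ *
        ((g : Matrix (Fin (n + 2)) (Fin (n + 2)) 𝕜)ᴴ * lor 𝕜 n * g) * h := by
          simp only [Matrix.mul_assoc]
      _ = _ := by rw [hg', hh']
  one_mem' := by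
    show (1 : Matrix (Fin (n + 2)) (Fin (n + 2)) 𝕜)ᴴ * lor 𝕜 n * 1 = lor 𝕜 n
    rw [conjTranspose_one, Matrix.one_mul, Matrix.mul_one]
  inv_mem' := by
    intro g hg
    have hg' : (g : Matrix (Fin (n + 2)) (Fin (n + 2)) 𝕜)ᴴ * lor 𝕜 n * g = lor 𝕜 n := hg
    show ((g⁻¹ : GL (Fin (n + 2)) 𝕜) : Matrix (Fin (n + 2)) (Fin (n + 2)) 𝕜)ᴴ * lor 𝕜 n *
      ((g⁻¹ : GL (Fin (n + 2)) 𝕜) : Matrix (Fin (n + 2)) (Fin (n + 2)) 𝕜) = lor 𝕜 n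
    have h1 : (g : Matrix (Fin (n + 2)) (Fin (n + 2)) 𝕜) *
        ((g⁻¹ : GL (Fin (n + 2)) 𝕜) : Matrix (Fin (n + 2)) (Fin (n + 2)) 𝕜) = 1 := by
      rw [← Units.val_mul, mul_inv_cancel, Units.val_one]
    have h2 : ((g⁻¹ : GL (Fin (n + 2)) 𝕜) : Matrix (Fin (n + 2)) (Fin (n + 2)) 𝕜)ᴴ *
        (g : Matrix (Fin (n + 2)) (Fin (n + 2)) 𝕜)ᴴ = 1 := by
      rw [← conjTranspose_mul, h1, conjTranspose_one]
    conv_lhs => rw [← hg']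
    calc _ = (((g⁻¹ : GL (Fin (n + 2)) 𝕜) : Matrix (Fin (n + 2)) (Fin (n + 2)) 𝕜)ᴴ *
          (g : Matrix (Fin (n + 2)) (Fin (n + 2)) 𝕜)ᴴ) * lor 𝕜 n *
          ((g : Matrix (Fin (n + 2)) (Fin (n + 2)) 𝕜) *
          ((g⁻¹ : GL (Fin (n + 2)) 𝕜) : Matrix (Fin (n + 2)) (Fin (n + 2)) 𝕜)) := by
            simp only [Matrix.mul_assoc]
      _ = _ := by rw [h1, h2, Matrix.one_mul, Matrix.mul_one]

/-- the matrix of the boost in the plane of the coordinates `0` and `1` -/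
noncomputable def boostM (t : ℝ) : Matrix (Fin (n + 2)) (Fin (n + 2)) 𝕜 := fun i j =>
  if i = 0 ∧ j = 0 ∨ i = 1 ∧ j = 1 then (Real.cosh t : 𝕜)
  else if i = 0 ∧ j = 1 ∨ i = 1 ∧ j = 0 then (Real.sinh t : 𝕜)
  else if i = j then 1 else 0

/-- `T` is the one-parameter group of the boosts in the plane of the coordinates `0` and `1` -/
def IsBoost (T : ℝ → LorGroup 𝕜 n) : Prop :=
  ∀ t, ((T t : GL (Fin (n + 2)) 𝕜) : Matrix (Fin (n + 2)) (Fin (n + 2)) 𝕜) = boostM 𝕜 n t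

variable {𝕜} {n} in
/-- the matrix of an element of the group -/
def mat (g : LorGroup 𝕜 n) : Matrix (Fin (n + 2)) (Fin (n + 2)) 𝕜 :=
  ((g : GL (Fin (n + 2)) 𝕜) : Matrix (Fin (n + 2)) (Fin (n + 2)) 𝕜)

/-- the isotropic vector `(1, 1, 0, …, 0)` -/
def xi : Fin (n + 2) → 𝕜 := Pi.single 0 1 + Pi.single 1 1

/-- the elements with entries at most two -/
def KL : Set (LorGroup 𝕜 n) := {g | ∀ i j, ‖mat g i j‖ ≤ 2}

/-- block diagonal unitary matrices -/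
def S_INA : Prop := ∀ (𝕜 : Type) [RCLike 𝕜] (n : ℕ) (α : 𝕜) (z : Fin (n + 1) → 𝕜), ‖α‖ = 1 →
  ∑ i, ‖z i‖ ^ 2 = 1 → ∃ g : LorGroup 𝕜 n, (∀ i j, ‖mat g i j‖ ≤ 1) ∧
    mat g *ᵥ (Pi.single 0 1) = Pi.single 0 α ∧ mat g *ᵥ (Pi.single 1 1) = Fin.cons 0 z

/-- compactness -/
def S_INC : Prop := ∀ (𝕜 : Type) [RCLike 𝕜] (n : ℕ), IsCompact (KL 𝕜 n)

/-- the Langlands decomposition -/
def S_INL : Prop := ∀ (𝕜 : Type) [RCLike 𝕜] (n : ℕ) (T : ℝ → LorGroup 𝕜 n), IsBoost 𝕜 n T →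
  ∀ p : LorGroup 𝕜 n, (∃ a : 𝕜, mat p *ᵥ xi 𝕜 n = a • xi 𝕜 n) →
    ∃ s : ℝ, ∀ᶠ t in atTop, T (-t) * (T (-s) * p) * T t ∈ KL 𝕜 n

/-- the groups `O(n + 1, 1)` and `U(n + 1, 1)` have the decompositions of rank one groups -/
def S_INST : Prop := ∀ (𝕜 : Type) [RCLike 𝕜] (n : ℕ), ∃ (K : Set (LorGroup 𝕜 n))
  (P : Subgroup (LorGroup 𝕜 n)) (T : ℝ → LorGroup 𝕜 n) (w : LorGroup 𝕜 n),
    IsBoost 𝕜 n T ∧ RankOne K P T w

end Pool.Agent.N520.RO
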