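import Pool.Agent.N520.RO.Stm2
import Pool.Agent.Y449.MS.Wrap
import Pool.Agent.Y449.MS.All

/-!
Project RO: closed affine manifolds with injective developing map, parallel volume and a
quasi-conformal flag are complete.
-/

set_option autoImplicit false

open Set Filter Topology
open Pool.Agent.W689.Mk

namespace Pool.Agent.N520.RO

section
variable {E : Type} [NormedAddCommGroup E] [NormedSpace ℝ E] [FiniteDimensional ℝ E]

theorem aff_injective : Function.Injective (aff : (E ≃ᵃ[ℝ] E) → _) := by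
  intro g h hgh
  have h0 : g 0 = h 0 := by
    have := congrArg Prod.fst (DFunLike.congr_fun hgh ((0 : E), (1 : ℝ)))
    rw [aff_apply, aff_apply] at this
    simpa using this
  refine AffineEquiv.ext fun v => ?_
  have h1 : g.linear v = h.linear v := by
    have := congrArg Prod.fst (DFunLike.congr_fun hgh ((v : E), (0 : ℝ)))
    rw [aff_apply, aff_apply] at this
    simpa using this
  rw [lin_zero g, lin_zero h, h0, h1]

theorem affU_injective : Function.Injective (affU : (E ≃ᵃ[ℝ] E) →* _) := by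
  intro g h hgh
  exact aff_injective (congrArg Units.val hgh)

theorem affU_val (g : E ≃ᵃ[ℝ] E) : ((affU g : ((E × ℝ) →L[ℝ] (E × ℝ))ˣ) : _) = aff g := rfl

/-- the flag of `E × ℝ` -/
def flagX (S : ℕ → Submodule ℝ E) (m : ℕ) : ℕ → Submodule ℝ (E × ℝ) := fun i =>
  if i ≤ m then (S i).prod ⊥ else ⊤

theorem mem_flagX {S : ℕ → Submodule ℝ E} {m i : ℕ} (hi : i ≤ m) (p : E × ℝ) :
    p ∈ flagX S m i ↔ p.1 ∈ S i ∧ p.2 = 0 := by
  unfold flagX
  rw [if_pos hi, Submodule.mem_prod, Submodule.mem_bot]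

theorem flagX_zero {S : ℕ → Submodule ℝ E} {m : ℕ} (h0 : S 0 = ⊥) : flagX S m 0 = ⊥ := by
  refine eq_bot_iff.mpr fun p hp => ?_
  rw [mem_flagX (Nat.zero_le _), h0, Submodule.mem_bot] at hp
  rw [Submodule.mem_bot]
  exact Prod.ext hp.1 hp.2

theorem flagX_top {S : ℕ → Submodule ℝ E} {m i : ℕ} (hi : m < i) : flagX S m i = ⊤ := by
  unfold flagX
  rw [if_neg (by omega)]

theorem flagX_le {S : ℕ → Submodule ℝ E} {m : ℕ} (h : ∀ i < m, S i ≤ S (i + 1)) (i : ℕ)
    (hi : i < m + 1) : flagX S m i ≤ flagX S m (i + 1) := by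
  rcases Nat.lt_or_ge i m with h1 | h1
  · intro p hp
    rw [mem_flagX h1.le] at hp
    rw [mem_flagX (by omega)]
    exact ⟨h i h1 hp.1, hp.2⟩
  · rw [flagX_top (i := i + 1) (by omega)]
    exact le_top

end

section
variable {V : Type} [NormedAddCommGroup V] [NormedSpace ℝ V]

/-- upper triangularity and quasi-conformality of the projections from the flag -/
theorem sys_of_flag {Λ : Type} [Group Λ] (θ : Λ →* (V →L[ℝ] V)ˣ) (m : ℕ)
    (S : ℕ → Submodule ℝ V) (π : Fin m → V →L[ℝ] V) (hS : Sys m π)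
    (hπ : ∀ i ≤ m, ∀ v, v ∈ S i ↔ ∀ j : Fin m, i ≤ (j : ℕ) → π j v = 0)
    (hinv : ∀ i ≤ m, ∀ (l : Λ), ∀ v ∈ S i, (θ l : V →L[ℝ] V) v ∈ S i)
    (C : ℝ) (hC : ∀ i < m, ∀ l : Λ, ∃ c : ℝ, 0 < c ∧ ∀ v ∈ S (i + 1),
      (∃ w ∈ S i, ‖(θ l : V →L[ℝ] V) v - w‖ ≤ C * c * ‖v‖) ∧
      ∃ w ∈ S i, ‖(θ l⁻¹ : V →L[ℝ] V) v - w‖ ≤ C * c⁻¹ * ‖v‖) :
    Upper π θ ∧ QC π θ := by
  have hmem : ∀ (j : Fin m) v, π j v ∈ S ((j : ℕ) + 1) := by
    intro j v
    rw [hπ _ (by omega)]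
    intro k hk
    have : π k * π j = 0 := by
      have hne : k ≠ j := by
        rintro rfl
        omega
      simpa [hne] using hS.orth k j
    exact DFunLike.congr_fun this v
  have hC0 : ∀ i < m, 0 ≤ max C 0 := fun _ _ => le_max_right _ _
  constructor
  · intro l i j hji
    refine ContinuousLinearMap.ext fun v => ?_
    show π i ((θ l : V →L[ℝ] V) (π j v)) = 0
    exact (hπ _ (by omega) _).mp (hinv _ (by omega) l _ (hmem j v)) i (by omega)
  · refine ⟨max C 0 * ∑ i, ‖π i‖ ^ 2, fun l i => ?_⟩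
    obtain ⟨c, hc, h⟩ := hC i i.2 l
    have hsum : ‖π i‖ ^ 2 ≤ ∑ i, ‖π i‖ ^ 2 :=
      Finset.single_le_sum (f := fun i => ‖π i‖ ^ 2) (fun j _ => by positivity) (Finset.mem_univ i)
    have aux : ∀ (A : V →L[ℝ] V) (b : ℝ), 0 < b →
        (∀ v ∈ S ((i : ℕ) + 1), ∃ w ∈ S i, ‖A v - w‖ ≤ C * b * ‖v‖) →
        ‖π i * A * π i‖ ≤ max C 0 * (∑ i, ‖π i‖ ^ 2) * b := by
      intro A b hb hA
      have hM : 0 ≤ max C 0 * (∑ i, ‖π i‖ ^ 2) * b := by positivity
      refine ContinuousLinearMap.opNorm_le_bound _ hM fun v => ?_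
      obtain ⟨w, hw, hle⟩ := hA _ (hmem i v)
      have hkill : π i w = 0 := (hπ i (by omega) w).mp hw i le_rfl
      have e1 : (π i * A * π i) v = π i (A (π i v) - w) := by
        rw [map_sub, hkill, sub_zero]
        rfl
      rw [e1]
      calc ‖π i (A (π i v) - w)‖ ≤ ‖π i‖ * ‖A (π i v) - w‖ := (π i).le_opNorm _
        _ ≤ ‖π i‖ * (C * b * ‖π i v‖) := by gcongr
        _ ≤ ‖π i‖ * (max C 0 * b * (‖π i‖ * ‖v‖)) := by
            gcongr
            · exact le_max_left _ _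
            · exact (π i).le_opNorm _
        _ = max C 0 * ‖π i‖ ^ 2 * b * ‖v‖ := by ring
        _ ≤ _ := by gcongr
    exact ⟨c, hc, aux _ c hc fun v hv => (h v hv).1, aux _ c⁻¹ (by positivity) fun v hv =>
      (h v hv).2⟩

end

theorem quasi_full (h1 : S_SPL) (h2 : S_VS) (h3 : S_DISC)
    (X Γ E : Type) [NormedAddCommGroup E] [NormedSpace ℝ E]
    [FiniteDimensional ℝ E] [TopologicalSpace X] [T2Space X] [SecondCountableTopology X]
    [Nonempty X] [Group Γ] [MulAction Γ X] (dev : X → E) (hol : Γ →* (E ≃ᵃ[ℝ] E))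
    (D : AffData X Γ E dev hol) (hinj : Function.Injective dev) (H : Subgroup Γ)
    (hH : H.FiniteIndex) (S : ℕ → Submodule ℝ E) (m : ℕ) (hS : ConformalFlag hol H S m) :
    IsHomeomorph dev ∧ ∃ H' : Subgroup Γ, H'.FiniteIndex ∧ Group.IsSolvable (H'.map hol) := by
  obtain ⟨hS0, hSm, hSle, hSinv, C, hC⟩ := hS
  let S' := flagX S m
  obtain ⟨π, hsys, hπ⟩ := h1 (E × ℝ) (m + 1) S' (flagX_zero hS0) (flagX_top (by omega))
    (flagX_le hSle)
  let θ : H →* ((E × ℝ) →L[ℝ] (E × ℝ))ˣ := affU.comp (hol.comp H.subtype)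
  have hθ : ∀ (l : H) (p : E × ℝ), (θ l : (E × ℝ) →L[ℝ] (E × ℝ)) p =
      ((hol l).linear p.1 + p.2 • hol l 0, p.2) := fun l p => rfl
  have hdisc : Disc θ := by
    obtain ⟨ε, hε, h⟩ := h3 X Γ E dev hol D hinj
    refine ⟨ε, hε, fun l hl => ?_⟩
    have : hol l = 1 := h l hl
    show affU (hol l) = 1
    rw [this, map_one]
  have hinv : ∀ i ≤ m + 1, ∀ (l : H), ∀ v ∈ S' i, (θ l : (E × ℝ) →L[ℝ] (E × ℝ)) v ∈ S' i := by
    intro i hi l v hv
    rcases Nat.lt_or_ge m i with hm | hm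
    · show _ ∈ flagX S m i
      rw [flagX_top hm]
      trivial
    · have hv' : v ∈ flagX S m i := hv
      rw [mem_flagX hm] at hv'
      show _ ∈ flagX S m i
      rw [mem_flagX hm, hθ]
      refine ⟨?_, hv'.2⟩
      rw [hv'.2, zero_smul, add_zero]
      exact hSinv i hm l l.2 _ hv'.1
  have hQ : ∀ i < m + 1, ∀ l : H, ∃ c : ℝ, 0 < c ∧ ∀ v ∈ S' (i + 1),
      (∃ w ∈ S' i, ‖(θ l : (E × ℝ) →L[ℝ] (E × ℝ)) v - w‖ ≤ max C 1 * c * ‖v‖) ∧
      ∃ w ∈ S' i, ‖(θ l⁻¹ : (E × ℝ) →L[ℝ] (E × ℝ)) v - w‖ ≤ max C 1 * c⁻¹ * ‖v‖ := by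
    intro i hi l
    rcases Nat.lt_or_ge i m with hm | hm
    · obtain ⟨c, hc, h⟩ := hC i hm l l.2
      refine ⟨c, hc, fun v hv => ?_⟩
      have hv' : v ∈ flagX S m (i + 1) := hv
      rw [mem_flagX hm] at hv'
      obtain ⟨⟨w, hw, hw'⟩, u, hu, hu'⟩ := h v.1 hv'.1
      have hn : ‖v.1‖ ≤ ‖v‖ := norm_fst_le v
      refine ⟨⟨(w, 0), ?_, ?_⟩, (u, 0), ?_, ?_⟩
      · exact (mem_flagX hm.le _).mpr ⟨hw, rfl⟩
      · rw [hθ, hv'.2, zero_smul, add_zero]
        have : ‖(((hol l).linear v.1, (0 : ℝ)) : E × ℝ) - (w, 0)‖ = ‖(hol l).linear v.1 - w‖ := by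
          rw [Prod.mk_sub_mk, sub_zero, Prod.norm_mk, norm_zero, max_eq_left (norm_nonneg _)]
        rw [this]
        refine hw'.trans ?_
        gcongr
        exact le_max_left _ _
      · exact (mem_flagX hm.le _).mpr ⟨hu, rfl⟩
      · rw [hθ, hv'.2, zero_smul, add_zero]
        have : ‖(((hol (l⁻¹ : H)).linear v.1, (0 : ℝ)) : E × ℝ) - (u, 0)‖ =
            ‖(hol (l : Γ)⁻¹).linear v.1 - u‖ := by
          rw [Prod.mk_sub_mk, sub_zero, Prod.norm_mk, norm_zero, max_eq_left (norm_nonneg _)]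
          rfl
        rw [this]
        refine hu'.trans ?_
        gcongr
        exact le_max_left _ _
    · have hi' : i = m := by omega
      subst hi'
      have key : ∀ (l : H) (v : E × ℝ), ∃ w ∈ S' i,
          ‖(θ l : (E × ℝ) →L[ℝ] (E × ℝ)) v - w‖ ≤ max C 1 * 1 * ‖v‖ := by
        intro l v
        refine ⟨((hol l).linear v.1 + v.2 • hol l 0, 0), ?_, ?_⟩
        · refine (mem_flagX le_rfl _).mpr ⟨?_, rfl⟩
          rw [hSm]
          trivial
        · rw [hθ, Prod.mk_sub_mk, sub_self, sub_zero, Prod.norm_mk, norm_zero,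
            max_eq_right (norm_nonneg _), mul_one]
          calc ‖v.2‖ ≤ 1 * ‖v‖ := by rw [one_mul]; exact norm_snd_le v
            _ ≤ _ := by
              gcongr
              exact le_max_right _ _
      refine ⟨1, one_pos, fun v _ => ⟨key l v, ?_⟩⟩
      rw [inv_one]
      exact key l⁻¹ v
  obtain ⟨hU, hQC⟩ := sys_of_flag θ (m + 1) S' π hsys hπ hinv (max C 1) hQ
  obtain ⟨A, hA, hsol⟩ := h2 (E × ℝ) H θ (m + 1) π hdisc hsys hU hQC
  let K : Subgroup (E ≃ᵃ[ℝ] E) := A.map (hol.comp H.subtype)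
  have hK : Group.IsSolvable K := by
    have h8 : ∀ k : K, affU (k : E ≃ᵃ[ℝ] E) ∈ A.map θ := by
      rintro ⟨_, a, ha, rfl⟩
      exact ⟨a, ha, rfl⟩
    have h9 : Function.Injective ((affU.comp K.subtype).codRestrict (A.map θ) h8) := by
      intro a b hab
      exact Subtype.ext (affU_injective (congrArg Subtype.val hab))
    exact Group.isSolvable_of_isSolvable_injective h9
  have hB : (A.map H.subtype).FiniteIndex := by
    refine ⟨?_⟩
    rw [Subgroup.index_map_subtype]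
    exact mul_ne_zero hA.index_ne_zero hH.index_ne_zero
  have hmap : (A.map H.subtype).map hol = K := by
    rw [Subgroup.map_map]
  refine ⟨Pool.Agent.Y449.MS.Wrap.main Pool.Agent.Y449.MS.All.finv X Γ E dev hol D hinj
    (A.map H.subtype) hB ?_, A.map H.subtype, hB, by rw [hmap]; exact hK⟩
  have h8 : ∀ k : K, AffineEquiv.linearHom (k : E ≃ᵃ[ℝ] E) ∈
      (A.map H.subtype).map (AffineEquiv.linearHom.comp hol) := by
    rintro ⟨_, a, ha, rfl⟩
    exact ⟨(a : Γ), ⟨a, ha, rfl⟩, rfl⟩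
  have h9 : Function.Surjective ((AffineEquiv.linearHom.comp K.subtype).codRestrict
      ((A.map H.subtype).map (AffineEquiv.linearHom.comp hol)) h8) := by
    rintro ⟨_, _, ⟨a, ha, rfl⟩, rfl⟩
    exact ⟨⟨hol a, a, ha, rfl⟩, rfl⟩
  exact Group.isSolvable_of_surjective h9

theorem quasi_main (h1 : S_SPL) (h2 : S_VS) (h3 : S_DISC)
    (X Γ E : Type) [NormedAddCommGroup E] [NormedSpace ℝ E]
    [FiniteDimensional ℝ E] [TopologicalSpace X] [T2Space X] [SecondCountableTopology X]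
    [Nonempty X] [Group Γ] [MulAction Γ X] (dev : X → E) (hol : Γ →* (E ≃ᵃ[ℝ] E))
    (D : AffData X Γ E dev hol) (hinj : Function.Injective dev) (H : Subgroup Γ)
    (hH : H.FiniteIndex) (S : ℕ → Submodule ℝ E) (m : ℕ) (hS : ConformalFlag hol H S m) :
    IsHomeomorph dev :=
  (quasi_full h1 h2 h3 X Γ E dev hol D hinj H hH S m hS).1

end Pool.Agent.N520.RO
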