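import Pool.Agent.N520.RO.Stm
import Pool.Agent.N520.RO.Quasi
import Pool.Agent.R522.Mk.Rk1
import Pool.Agent.Y449.MK.Sub

/-!
Project RO: representations of rank one groups: the plates are the translates of the space of
vectors of nonnegative weight.
-/

set_option autoImplicit false

open Set Filter Topology Metric
open Pool.Agent.W689.Mk Pool.Agent.TH94.MK Pool.Agent.R522.Mk.Rk

namespace Pool.Agent.N520.RO

section T
variable {G : Type} [Group G] [TopologicalSpace G] {K : Set G} {P : Subgroup G} {T : ℝ → G} {w : G}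

theorem T_zero (h : ∀ s t, T (s + t) = T s * T t) : T 0 = 1 := by
  have := h 0 0
  rw [add_zero] at this
  exact (left_eq_mul.mp this)

theorem T_neg (h : ∀ s t, T (s + t) = T s * T t) (t : ℝ) : T (-t) = (T t)⁻¹ := by
  rw [eq_inv_iff_mul_eq_one, ← h, neg_add_cancel, T_zero h]

theorem T_comm (h : ∀ s t, T (s + t) = T s * T t) (s t : ℝ) : T s * T t = T t * T s := by
  rw [← h, ← h, add_comm]

end T

section rep
variable {G : Type} [Group G] [TopologicalSpace G] {K : Set G} {P : Subgroup G} {T : ℝ → G} {w : G}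
variable {E : Type} [NormedAddCommGroup E] [NormedSpace ℝ E] [FiniteDimensional ℝ E]
  (ρ : G →* (E ≃ₗ[ℝ] E))

theorem rmul (g h : G) (v : E) : ρ (g * h) v = ρ g (ρ h v) := by
  rw [map_mul]; rfl

theorem rinv_apply (g : G) (v : E) : ρ g⁻¹ (ρ g v) = v := by
  rw [← rmul, inv_mul_cancel, map_one]; rfl

theorem rapply_inv (g : G) (v : E) : ρ g (ρ g⁻¹ v) = v := by
  rw [← rmul, mul_inv_cancel, map_one]; rfl

theorem rsymm (g : G) (v : E) : (ρ g).symm v = ρ g⁻¹ v := by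
  rw [LinearEquiv.symm_apply_eq, rapply_inv]

variable (T) in
/-- the vectors with bounded orbit under the contracting half of `T` -/
def upT : Submodule ℝ E where
  carrier := {v | ∃ C : ℝ, ∀ t : ℝ, 0 ≤ t → ‖ρ (T (-t)) v‖ ≤ C}
  add_mem' := by
    rintro v w ⟨C, hC⟩ ⟨C', hC'⟩
    exact ⟨C + C', fun t ht => by
      rw [map_add]; exact (norm_add_le _ _).trans (add_le_add (hC t ht) (hC' t ht))⟩
  zero_mem' := ⟨0, fun t _ => by rw [map_zero, norm_zero]⟩
  smul_mem' := by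
    rintro c v ⟨C, hC⟩
    exact ⟨‖c‖ * C, fun t ht => by
      rw [map_smul, norm_smul]; exact mul_le_mul_of_nonneg_left (hC t ht) (norm_nonneg _)⟩

/-- the operators -/
noncomputable def RR (g : G) : E →L[ℝ] E := LinearMap.toContinuousLinearMap (ρ g : E →ₗ[ℝ] E)

theorem RR_cont (hc : ∀ v, Continuous fun g : G => ρ g v) : Continuous (RR ρ) :=
  continuous_clm_apply.2 hc

theorem RR_le (g : G) (v : E) : ‖ρ g v‖ ≤ ‖RR ρ g‖ * ‖v‖ := (RR ρ g).le_opNorm v

theorem rbdd (hc : ∀ v, Continuous fun g : G => ρ g v) {L : Set G} (hL : IsCompact L) :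
    ∃ C, 0 < C ∧ ∀ g ∈ L, ∀ v, ‖ρ g v‖ ≤ C * ‖v‖ := by
  obtain ⟨C, hC⟩ := hL.exists_bound_of_continuousOn (RR_cont ρ hc).continuousOn
  refine ⟨|C| + 1, by positivity, fun g hg v => ?_⟩
  calc ‖ρ g v‖ = ‖RR ρ g v‖ := rfl
    _ ≤ ‖RR ρ g‖ * ‖v‖ := (RR ρ g).le_opNorm v
    _ ≤ (|C| + 1) * ‖v‖ := by
        gcongr
        exact (hC g hg).trans (by linarith [le_abs_self C])

/-- boundedness on bounded intervals -/
theorem bddT (hr : IsRep T ρ) (a : ℝ) (v : E) : ∃ C : ℝ, ∀ t : ℝ, |t| ≤ a → ‖ρ (T t) v‖ ≤ C := by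
  have hv : v ∈ Submodule.span ℝ {v : E | ∃ c : ℝ, ∀ t : ℝ, ρ (T t) v = Real.exp (c * t) • v} := by
    rw [hr.2]; exact Submodule.mem_top
  induction hv using Submodule.span_induction with
  | mem v hv =>
    obtain ⟨c, hc⟩ := hv
    refine ⟨Real.exp (|c| * a) * ‖v‖, fun t ht => ?_⟩
    rw [hc, norm_smul, Real.norm_eq_abs, abs_of_pos (Real.exp_pos _)]
    refine mul_le_mul_of_nonneg_right (Real.exp_le_exp.mpr ?_) (norm_nonneg _)
    calc c * t ≤ |c * t| := le_abs_self _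
      _ = |c| * |t| := abs_mul _ _
      _ ≤ |c| * a := mul_le_mul_of_nonneg_left ht (abs_nonneg _)
  | zero => exact ⟨0, fun t _ => by rw [map_zero, norm_zero]⟩
  | add x y _ _ hx hy =>
    obtain ⟨C, h1⟩ := hx
    obtain ⟨C', h2⟩ := hy
    exact ⟨C + C', fun t ht => by
      rw [map_add]; exact (norm_add_le _ _).trans (add_le_add (h1 t ht) (h2 t ht))⟩
  | smul b x _ hx =>
    obtain ⟨C, h1⟩ := hx
    exact ⟨‖b‖ * C, fun t ht => by
      rw [map_smul, norm_smul]; exact mul_le_mul_of_nonneg_left (h1 t ht) (norm_nonneg _)⟩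

theorem bddT_unif (hr : IsRep T ρ) (a : ℝ) :
    ∃ C : ℝ, 0 < C ∧ ∀ t : ℝ, |t| ≤ a → ∀ v, ‖ρ (T t) v‖ ≤ C * ‖v‖ := by
  haveI : CompleteSpace E := FiniteDimensional.complete ℝ E
  obtain ⟨C, hC⟩ := banach_steinhaus (ι := {t : ℝ // |t| ≤ a})
    (g := fun t => RR ρ (T t.1)) (fun v => by
      obtain ⟨C, hC⟩ := bddT ρ hr a v
      exact ⟨C, fun t => hC t.1 t.2⟩)
  refine ⟨|C| + 1, by positivity, fun t ht v => (RR_le ρ _ v).trans ?_⟩
  gcongr
  exact (hC ⟨t, ht⟩).trans (by linarith [le_abs_self C])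

/-- eventually bounded orbits are bounded -/
theorem mem_upT_of_eventually (hr : IsRep T ρ) {v : E} {C : ℝ}
    (h : ∀ᶠ t in atTop, ‖ρ (T (-t)) v‖ ≤ C) : v ∈ upT T ρ := by
  obtain ⟨a, ha⟩ := (eventually_atTop.mp h)
  obtain ⟨C', hC'⟩ := bddT ρ hr |a| v
  refine ⟨max C C', fun t ht => ?_⟩
  rcases le_total a t with h1 | h1
  · exact (ha t h1).trans (le_max_left _ _)
  · refine (hC' (-t) ?_).trans (le_max_right _ _)
    rw [abs_neg, abs_of_nonneg ht]
    exact h1.trans (le_abs_self _)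

theorem upT_inv (hR : RankOne K P T w) (hr : IsRep T ρ) {p : G} (hp : p ∈ P) {v : E}
    (hv : v ∈ upT T ρ) : ρ p v ∈ upT T ρ := by
  obtain ⟨C0, hC0, h0⟩ := rbdd ρ hr.1 hR.compact
  obtain ⟨C, hC⟩ := hv
  obtain ⟨s, hs⟩ := hR.langlands p hp
  refine mem_upT_of_eventually ρ hr (C := ‖RR ρ (T s)‖ * (C0 * C)) ?_
  filter_upwards [hs, eventually_ge_atTop 0] with t ht ht0
  have e : T (-t) * p = T s * (T (-t) * (T (-s) * p) * T t) * T (-t) := by
    have h1 : T (-s) = (T s)⁻¹ := T_neg hR.add s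
    have h2 : T (-t) = (T t)⁻¹ := T_neg hR.add t
    have h3 := T_comm hR.add s (-t)
    rw [h1]
    calc T (-t) * p = (T (-t) * T s) * (T s)⁻¹ * p := by group
      _ = (T s * T (-t)) * (T s)⁻¹ * p := by rw [← h3]
      _ = _ := by rw [h2]; group
  rw [← rmul, e, rmul, rmul]
  refine (RR_le ρ _ _).trans ?_
  gcongr
  refine (h0 _ ht _).trans ?_
  gcongr
  exact hC t ht0

theorem up_of_down (hG : IsTopologicalGroup G) (hR : RankOne K P T w) (hr : IsRep T ρ) {v : E}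
    (hv : ∃ C : ℝ, ∀ t : ℝ, 0 ≤ t → ‖ρ (T t) v‖ ≤ C) : ρ w⁻¹ v ∈ upT T ρ := by
  obtain ⟨C0, hC0, h0⟩ := rbdd ρ hr.1 hR.compact.inv
  obtain ⟨C, hC⟩ := hv
  refine mem_upT_of_eventually ρ hr (C := C0 * C) ?_
  filter_upwards [hR.weyl, eventually_ge_atTop 0] with t ht ht0
  have e : T (-t) * w⁻¹ = (T t * w * T t)⁻¹ * T t := by
    rw [T_neg hR.add]
    group
  rw [← rmul, e, rmul]
  refine (h0 _ (Set.inv_mem_inv.mpr ht) _).trans ?_
  gcongr
  exact hC t ht0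

variable (T) in
/-- every vector is a sum of a vector of nonnegative and a vector of nonpositive weight -/
def DecT : Prop := ∀ e : E, ∃ v1 v2, e = v1 + v2 ∧ v1 ∈ upT T ρ ∧
  ∃ C : ℝ, ∀ t : ℝ, 0 ≤ t → ‖ρ (T t) v2‖ ≤ C

theorem decT (hr : IsRep T ρ) : DecT T ρ := by
  intro e
  have he : e ∈ Submodule.span ℝ
      {v : E | ∃ c : ℝ, ∀ t : ℝ, ρ (T t) v = Real.exp (c * t) • v} := by
    rw [hr.2]; exact Submodule.mem_top
  induction he using Submodule.span_induction with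
  | mem v hv =>
    obtain ⟨c, hc⟩ := hv
    rcases le_total 0 c with h | h
    · refine ⟨v, 0, (add_zero v).symm, ⟨‖v‖, fun t ht => ?_⟩, 0, fun t _ => ?_⟩
      · rw [hc, norm_smul, Real.norm_eq_abs, abs_of_pos (Real.exp_pos _)]
        have h1 : Real.exp (c * -t) ≤ 1 := by
          rw [Real.exp_le_one_iff]; nlinarith
        calc Real.exp (c * -t) * ‖v‖ ≤ 1 * ‖v‖ := by gcongr
          _ = ‖v‖ := one_mul _
      · rw [map_zero, norm_zero]
    · refine ⟨0, v, (zero_add v).symm, (upT T ρ).zero_mem, ‖v‖, fun t ht => ?_⟩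
      rw [hc, norm_smul, Real.norm_eq_abs, abs_of_pos (Real.exp_pos _)]
      have h1 : Real.exp (c * t) ≤ 1 := by
        rw [Real.exp_le_one_iff]; nlinarith
      calc Real.exp (c * t) * ‖v‖ ≤ 1 * ‖v‖ := by gcongr
        _ = ‖v‖ := one_mul _
  | zero => exact ⟨0, 0, (add_zero 0).symm, (upT T ρ).zero_mem, 0, fun t _ => by
      rw [map_zero, norm_zero]⟩
  | add x y _ _ hx hy =>
    obtain ⟨v1, v2, h1, h2, C, h3⟩ := hx
    obtain ⟨w1, w2, k1, k2, C', k3⟩ := hy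
    refine ⟨v1 + w1, v2 + w2, ?_, (upT T ρ).add_mem h2 k2, C + C', fun t ht => ?_⟩
    · rw [h1, k1]; abel
    · rw [map_add]
      exact (norm_add_le _ _).trans (add_le_add (h3 t ht) (k3 t ht))
  | smul a x _ hx =>
    obtain ⟨v1, v2, h1, h2, C, h3⟩ := hx
    refine ⟨a • v1, a • v2, ?_, (upT T ρ).smul_mem a h2, ‖a‖ * C, fun t ht => ?_⟩
    · rw [h1, smul_add]
    · rw [map_smul, norm_smul]
      exact mul_le_mul_of_nonneg_left (h3 t ht) (norm_nonneg _)

theorem transT0 (hG : IsTopologicalGroup G) (hR : RankOne K P T w) (hr : IsRep T ρ) {m : G}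
    (hm : m ∉ P) (e : E) : ∃ f ∈ upT T ρ, ∃ f' ∈ upT T ρ, f - ρ m f' = e := by
  obtain ⟨b1, hb1, b2, hb2, hmb⟩ := (hR.bruhat m).resolve_left hm
  obtain ⟨v1, v2, he, h1, h2⟩ := decT ρ hr (ρ b1⁻¹ e)
  refine ⟨ρ b1 v1, upT_inv ρ hR hr hb1 h1, -(ρ b2⁻¹ (ρ w⁻¹ v2)),
    (upT T ρ).neg_mem (upT_inv ρ hR hr (inv_mem hb2) (up_of_down ρ hG hR hr h2)), ?_⟩
  rw [map_neg, sub_neg_eq_add]
  have h3 : ρ m (ρ b2⁻¹ (ρ w⁻¹ v2)) = ρ b1 v2 := by
    conv_lhs => rw [hmb]
    rw [rmul, rmul, rapply_inv, rapply_inv]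
  rw [h3, ← map_add, ← he, rapply_inv]

variable (T) in
/-- the plates -/
noncomputable def plateT (g : G) : upT T ρ →L[ℝ] E := (RR ρ g).comp (upT T ρ).subtypeL

theorem plateT_apply (g : G) (f : upT T ρ) : plateT T ρ g f = ρ g f := rfl

theorem mem_rangeT_mul (g k : G) (u : E) :
    u ∈ range (plateT T ρ (g * k)) ↔ (ρ g).symm u ∈ range (plateT T ρ k) := by
  rw [rsymm]
  constructor
  · rintro ⟨f, rfl⟩
    refine ⟨f, ?_⟩
    rw [plateT_apply, plateT_apply, rmul, rinv_apply]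
  · rintro ⟨f, hf⟩
    refine ⟨f, ?_⟩
    rw [plateT_apply, rmul, ← plateT_apply, hf, rapply_inv]

theorem rangeT_mul_upper (hR : RankOne K P T w) (hr : IsRep T ρ) (g : G) {b : G}
    (hb : b ∈ P) : range (plateT T ρ (g * b)) = range (plateT T ρ g) := by
  apply Subset.antisymm
  · rintro _ ⟨f, rfl⟩
    refine ⟨⟨ρ b f, upT_inv ρ hR hr hb f.2⟩, ?_⟩
    rw [plateT_apply, plateT_apply, rmul]
  · rintro _ ⟨f, rfl⟩
    refine ⟨⟨ρ b⁻¹ f, upT_inv ρ hR hr (inv_mem hb) f.2⟩, ?_⟩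
    rw [plateT_apply, plateT_apply, rmul, rapply_inv]

theorem transT1 (hG : IsTopologicalGroup G) (hR : RankOne K P T w) (hr : IsRep T ρ) {g h : G}
    (hm : g⁻¹ * h ∉ P) : Trans (plateT T ρ g) (plateT T ρ h) := by
  intro e
  obtain ⟨f, hf, f', hf', he⟩ := transT0 ρ hG hR hr hm (ρ g⁻¹ e)
  refine ⟨⟨f, hf⟩, ⟨f', hf'⟩, ?_⟩
  rw [plateT_apply, plateT_apply]
  have h1 := congrArg (ρ g) he
  rw [map_sub, rapply_inv, ← rmul, mul_inv_cancel_left] at h1
  exact h1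

theorem famT_all (hG : IsTopologicalGroup G) (hR : RankOne K P T w) (hr : IsRep T ρ) (g h : G) :
    range (plateT T ρ g) = range (plateT T ρ h) ∨ Trans (plateT T ρ g) (plateT T ρ h) := by
  by_cases hm : g⁻¹ * h ∈ P
  · left
    have h1 : h = g * (g⁻¹ * h) := by group
    rw [h1, rangeT_mul_upper ρ hR hr g hm]
  · right
    exact transT1 ρ hG hR hr hm

/-- the compact set of the base points of the plates -/
def KK (K : Set G) (w : G) : Set G := K ∪ (fun k => k * w) '' K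

theorem KK_compact (hG : IsTopologicalGroup G) (hR : RankOne K P T w) : IsCompact (KK K w) :=
  hR.compact.union (hR.compact.image (continuous_mul_const w))

theorem lowerT (hG : IsTopologicalGroup G) (hR : RankOne K P T w) (hr : IsRep T ρ) :
    ∃ δ : ℝ, 0 < δ ∧ ∀ g : G, ∃ k ∈ KK K w,
    ∀ f, δ * ‖(ρ g).symm (plateT T ρ k f)‖ ≤ ‖plateT T ρ k f‖ := by
  haveI : CompleteSpace (upT T ρ) := FiniteDimensional.complete ℝ (upT T ρ)
  obtain ⟨C1, hC1, h1⟩ := rbdd ρ hr.1 hR.compact.inv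
  obtain ⟨C3, hC3, h3⟩ := rbdd ρ hr.1 (KK_compact hG hR).inv
  obtain ⟨C4, hC4, h4⟩ := rbdd ρ hr.1 hR.compact
  obtain ⟨C2, hC2⟩ := banach_steinhaus (ι := {t : ℝ // 0 ≤ t})
    (g := fun t => plateT T ρ (T (-t.1))) (fun f => by
      obtain ⟨C, hC⟩ := f.2
      exact ⟨C, fun t => hC t.1 t.2⟩)
  obtain ⟨a, ha⟩ := eventually_atTop.mp hR.weyl
  obtain ⟨C5, hC5, h5⟩ := bddT_unif ρ hr |a|
  have hC2' : ∀ t : ℝ, 0 ≤ t → ∀ f : upT T ρ, ‖ρ (T (-t)) (f : E)‖ ≤ (|C2| + 1) * ‖(f : E)‖ := by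
    intro t ht f
    refine ((plateT T ρ (T (-t))).le_opNorm f).trans ?_
    rw [Submodule.coe_norm]
    gcongr
    exact (hC2 ⟨t, ht⟩).trans (by linarith [le_abs_self C2])
  -- the norm of f is controlled by the norm of ρ k f
  have hf : ∀ k ∈ KK K w, ∀ f : upT T ρ, ‖(f : E)‖ ≤ C3 * ‖plateT T ρ k f‖ := by
    intro k hk f
    calc ‖(f : E)‖ = ‖ρ k⁻¹ (ρ k f)‖ := by rw [rinv_apply]
      _ ≤ C3 * ‖ρ k f‖ := h3 _ (Set.inv_mem_inv.mpr hk) _
  -- reduction to an upper bound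
  have key : ∃ B : ℝ, 0 < B ∧ ∀ g : G, ∃ k ∈ KK K w, ∀ f : upT T ρ,
      ‖(ρ g).symm (plateT T ρ k f)‖ ≤ B * ‖(f : E)‖ := by
    refine ⟨C1 * (|C2| + 1) + C1 * C5 + C1 * (C4 * (|C2| + 1)), by positivity, fun g => ?_⟩
    obtain ⟨k, hk, t, l, hl, hg⟩ := hR.cartan g
    rcases le_or_gt 0 t with ht | ht
    · refine ⟨k, Or.inl hk, fun f => ?_⟩
      have e : (ρ g).symm (plateT T ρ k f) = ρ l⁻¹ (ρ (T (-t)) f) := by
        rw [rsymm, plateT_apply, ← rmul, ← rmul]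
        congr 2
        rw [hg, mul_inv_rev, mul_inv_rev, T_neg hR.add]
        group
      rw [e]
      calc ‖ρ l⁻¹ (ρ (T (-t)) f)‖ ≤ C1 * ‖ρ (T (-t)) f‖ := h1 _ (Set.inv_mem_inv.mpr hl) _
        _ ≤ C1 * ((|C2| + 1) * ‖(f : E)‖) := by
            gcongr
            exact hC2' t ht f
        _ = C1 * (|C2| + 1) * ‖(f : E)‖ := by ring
        _ ≤ _ := by
            gcongr
            have : 0 ≤ C1 * C5 + C1 * (C4 * (|C2| + 1)) := by positivity
            linarith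
    · rcases le_or_gt a (-t) with hat | hat
      · -- use the Weyl element
        refine ⟨k * w, Or.inr ⟨k, hk, rfl⟩, fun f => ?_⟩
        have e : (ρ g).symm (plateT T ρ (k * w) f) =
            ρ l⁻¹ (ρ (T (-t) * w * T (-t)) (ρ (T (-(-t))) f)) := by
          rw [rsymm, plateT_apply, ← rmul, ← rmul, ← rmul]
          congr 2
          rw [hg, mul_inv_rev, mul_inv_rev, T_neg hR.add, T_neg hR.add, T_neg hR.add]
          group
        rw [e]
        calc _ ≤ C1 * ‖ρ (T (-t) * w * T (-t)) (ρ (T (-(-t))) f)‖ :=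
              h1 _ (Set.inv_mem_inv.mpr hl) _
          _ ≤ C1 * (C4 * ‖ρ (T (-(-t))) f‖) := by
              gcongr
              exact h4 _ (ha _ hat) _
          _ ≤ C1 * (C4 * ((|C2| + 1) * ‖(f : E)‖)) := by
              gcongr
              exact hC2' (-t) (by linarith) f
          _ = C1 * (C4 * (|C2| + 1)) * ‖(f : E)‖ := by ring
          _ ≤ _ := by
              gcongr
              have : 0 ≤ C1 * (|C2| + 1) + C1 * C5 := by positivity
              linarith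
      · refine ⟨k, Or.inl hk, fun f => ?_⟩
        have e : (ρ g).symm (plateT T ρ k f) = ρ l⁻¹ (ρ (T (-t)) f) := by
          rw [rsymm, plateT_apply, ← rmul, ← rmul]
          congr 2
          rw [hg, mul_inv_rev, mul_inv_rev, T_neg hR.add]
          group
        rw [e]
        calc ‖ρ l⁻¹ (ρ (T (-t)) f)‖ ≤ C1 * ‖ρ (T (-t)) f‖ := h1 _ (Set.inv_mem_inv.mpr hl) _
          _ ≤ C1 * (C5 * ‖(f : E)‖) := by
              gcongr
              refine h5 _ ?_ _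
              rw [abs_of_pos (by linarith)]
              exact hat.le.trans (le_abs_self a)
          _ = C1 * C5 * ‖(f : E)‖ := by ring
          _ ≤ _ := by
              gcongr
              have : 0 ≤ C1 * (|C2| + 1) + C1 * (C4 * (|C2| + 1)) := by positivity
              linarith
  obtain ⟨B, hB, hB'⟩ := key
  refine ⟨1 / (B * C3), by positivity, fun g => ?_⟩
  obtain ⟨k, hk, h⟩ := hB' g
  refine ⟨k, hk, fun f => ?_⟩
  rw [one_div, inv_mul_le_iff₀ (by positivity)]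
  calc _ ≤ B * ‖(f : E)‖ := h f
    _ ≤ B * (C3 * ‖plateT T ρ k f‖) := by
        gcongr
        exact hf k hk f
    _ = _ := by ring

end rep

section main
variable {G : Type} [Group G] [TopologicalSpace G] {K : Set G} {P : Subgroup G} {T : ℝ → G} {w : G}
variable {E Γ X : Type} [NormedAddCommGroup E] [NormedSpace ℝ E] [FiniteDimensional ℝ E]
  [Group Γ] {hol : Γ →* (E ≃ᵃ[ℝ] E)}
  [TopologicalSpace X] [T2Space X] [SecondCountableTopology X] [ConnectedSpace X] [MulAction Γ X]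
  {dev : X → E}

theorem rankone_complete0 (h1 : S_SPL) (h2 : S_VS) (h3 : S_DISC) (h4 : S_WFLAG)
    (hG : IsTopologicalGroup G) (hR : RankOne K P T w)
    (D : AffData X Γ E dev hol) (hinj : Function.Injective dev)
    (ρ : G →* (E ≃ₗ[ℝ] E)) (hr : IsRep T ρ)
    (hρ : ∀ γ : Γ, ∃ g : G, (hol γ).linear = ρ g) : IsHomeomorph dev := by
  obtain ⟨δ, hδ, hlow⟩ := lowerT ρ hG hR hr
  have hPc : IsCompact ((fun g => plateT T ρ g) '' KK K w) := by
    refine (KK_compact hG hR).image ?_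
    exact ((ContinuousLinearMap.compL ℝ (upT T ρ) E E).flip (upT T ρ).subtypeL).continuous.comp
      (RR_cont ρ hr.1)
  have hfix := fixed_plate D hinj hPc
    (by
      rintro _ ⟨g, -, rfl⟩ _ ⟨h, -, rfl⟩
      exact famT_all ρ hG hR hr g h) hδ
    (by
      intro γ
      obtain ⟨g, hg⟩ := hρ γ
      obtain ⟨k, hk, h⟩ := hlow g
      refine ⟨plateT T ρ k, ⟨k, hk, rfl⟩, fun f => ?_⟩
      rw [hg]; exact h f)
    (by
      rintro γ _ ⟨k, hk, rfl⟩
      obtain ⟨g, hg⟩ := hρ γ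
      obtain ⟨l, hl, b, hb, hlb⟩ := hR.iwasawa (g * k)
      refine ⟨plateT T ρ l, ⟨l, Or.inl hl, rfl⟩, fun u => ?_⟩
      show u ∈ range (plateT T ρ l) ↔ _ ∈ range (plateT T ρ k)
      rw [hg, ← mem_rangeT_mul, hlb, rangeT_mul_upper ρ hR hr l hb])
  rcases hfix with h | ⟨_, ⟨k, hk, rfl⟩, hcomp, hfix⟩
  · exact h
  choose g hg using hρ
  by_cases hB : ∀ γ, k⁻¹ * g γ * k ∈ P
  · -- the holonomy preserves the flag
    obtain ⟨m, S, C, hS0, hSm, hSle, hSinv, hC⟩ := h4 G K P T w hR E ρ hr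
    let e : E ≃ₗ[ℝ] E := ρ k
    let S' : ℕ → Submodule ℝ E := fun i => (S i).map (e : E →ₗ[ℝ] E)
    have hmem : ∀ i v, v ∈ S' i ↔ ρ k⁻¹ v ∈ S i := by
      intro i v
      constructor
      · rintro ⟨u, hu, rfl⟩
        show ρ k⁻¹ (ρ k u) ∈ S i
        rw [rinv_apply]
        exact hu
      · intro hv
        exact ⟨ρ k⁻¹ v, hv, rapply_inv ρ k v⟩
    have hlin : ∀ γ (v : E), ρ k⁻¹ ((hol γ).linear v) = ρ (k⁻¹ * g γ * k) (ρ k⁻¹ v) := by
      intro γ v
      rw [hg γ, ← rmul, ← rmul]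
      congr 2
      group
    have hlin' : ∀ γ (v : E), ρ k⁻¹ ((hol γ⁻¹).linear v) = ρ (k⁻¹ * g γ * k)⁻¹ (ρ k⁻¹ v) := by
      intro γ v
      have e1 : (hol γ⁻¹).linear = ρ (g γ)⁻¹ := by
        have : AffineEquiv.linearHom (hol γ⁻¹) = (AffineEquiv.linearHom (hol γ))⁻¹ := by
          rw [map_inv, map_inv]
        have h6 : AffineEquiv.linearHom (hol γ) = ρ (g γ) := hg γ
        rw [h6, ← map_inv] at this
        exact this
      rw [e1, ← rmul, ← rmul]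
      congr 2
      group
    have htr : ∀ (i : ℕ) (A : E ≃ₗ[ℝ] E) (B : G) (b : ℝ), 0 < b →
        (∀ v, ρ k⁻¹ (A v) = ρ B (ρ k⁻¹ v)) →
        (∀ v ∈ S (i + 1), ∃ u ∈ S i, ‖ρ B v - u‖ ≤ C * b * ‖v‖) →
        ∀ v ∈ S' (i + 1), ∃ u ∈ S' i, ‖A v - u‖ ≤ (‖RR ρ k‖ * |C| * ‖RR ρ k⁻¹‖) * b * ‖v‖ := by
      intro i A B b hb hA h v hv
      obtain ⟨u, hu, hle⟩ := h _ ((hmem _ v).mp hv)
      refine ⟨ρ k u, ⟨u, hu, rfl⟩, ?_⟩
      have e1 : A v - ρ k u = ρ k (ρ B (ρ k⁻¹ v) - u) := by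
        rw [map_sub, ← hA, rapply_inv]
      rw [e1]
      calc _ ≤ ‖RR ρ k‖ * ‖ρ B (ρ k⁻¹ v) - u‖ := RR_le ρ _ _
        _ ≤ ‖RR ρ k‖ * (C * b * ‖ρ k⁻¹ v‖) := by gcongr
        _ ≤ ‖RR ρ k‖ * (|C| * b * (‖RR ρ k⁻¹‖ * ‖v‖)) := by
            gcongr
            · exact le_abs_self C
            · exact RR_le ρ _ _
        _ = _ := by ring
    refine quasi_main h1 h2 h3 X Γ E dev hol D hinj ⊤ inferInstance S' m
      ⟨?_, ?_, ?_, ?_, ‖RR ρ k‖ * |C| * ‖RR ρ k⁻¹‖, ?_⟩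
    · show (S 0).map _ = ⊥
      rw [hS0, Submodule.map_bot]
    · show (S m).map _ = ⊤
      rw [hSm, Submodule.map_top, LinearEquiv.range]
    · intro i hi
      exact Submodule.map_mono (hSle i hi)
    · intro i hi γ _ v hv
      rw [hmem] at hv ⊢
      rw [hlin]
      exact hSinv i hi _ (hB γ) _ hv
    · intro i hi γ _
      obtain ⟨c, hc, h⟩ := hC i hi _ (hB γ)
      refine ⟨c, hc, fun v hv => ⟨?_, ?_⟩⟩
      · exact htr i _ _ c hc (hlin γ) (fun v hv => (h v hv).1) v hv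
      · exact htr i _ _ c⁻¹ (by positivity) (hlin' γ) (fun v hv => (h v hv).2) v hv
  · -- all directions are complete
    push Not at hB
    obtain ⟨γ, hγ⟩ := hB
    obtain ⟨x⟩ := (inferInstance : Nonempty X)
    refine homeo_of_all D.loc (x := x) fun v => Geod.ex D.loc ?_
    have ht : Trans (plateT T ρ k) (plateT T ρ (g γ * k)) := by
      apply transT1 ρ hG hR hr
      rw [← mul_assoc]; exact hγ
    obtain ⟨f, f', hf⟩ := ht v
    obtain ⟨f2, hf2⟩ : plateT T ρ (g γ * k) f' ∈ range (plateT T ρ k) := by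
      have h1 := (hfix γ (plateT T ρ (g γ * k) f')).2
      apply h1
      rw [hg γ, ← mem_rangeT_mul]
      exact mem_range_self f'
    have h2 := hcomp x (f - f2)
    rw [map_sub] at h2
    change Geod dev x (plateT T ρ k f - plateT T ρ k f2) at h2
    rw [hf2, hf] at h2
    exact h2

theorem rankone_complete (h1 : S_SPL) (h2 : S_VS) (h3 : S_DISC) (h4 : S_WFLAG)
    (hG : IsTopologicalGroup G) (hR : RankOne K P T w)
    (D : AffData X Γ E dev hol) (hinj : Function.Injective dev)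
    (ρ : G →* (E ≃ₗ[ℝ] E)) (hr : IsRep T ρ) (H : Subgroup Γ) (hH : H.FiniteIndex)
    (hρ : ∀ γ ∈ H, ∃ g : G, (hol γ).linear = ρ g) : IsHomeomorph dev :=
  rankone_complete0 h1 h2 h3 h4 hG hR (Pool.Agent.Y449.MK.restrict D H hH) hinj ρ hr
    fun γ => hρ γ γ.2

end main

end Pool.Agent.N520.RO
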