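import Pool.Agent.N520.RO.Vs
import Pool.Agent.N520.RO.Quasi
import Pool.Agent.N520.RO.RankA
import Pool.Agent.N520.RO.Inst
import Pool.Agent.N316.RO.Zas
import Pool.Agent.N701.RO.Ce
import Pool.Agent.N717.RO.Tria
import Pool.Agent.N413.RO.Trib
import Pool.Agent.N539.RO.SplBdd
import Pool.Agent.N383.RO.Idx
import Pool.Agent.N713.RO.Disc
import Pool.Agent.N278.RO.WFlag
import Pool.Agent.N891.RO.Ina
import Pool.Agent.N247.RO.Inl
import Pool.Agent.N607.RO.Inst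

/-!
Project RO: assembly.
-/

set_option autoImplicit false

open Set Filter Topology
open Pool.Agent.W689.Mk

namespace Pool.Agent.N520.RO

theorem vs : S_VS := t_vs Pool.Agent.N316.RO.Zas.t_zas
  (Pool.Agent.N717.RO.t_tria Pool.Agent.N701.RO.t_ce) Pool.Agent.N413.RO.Trib.t_trib
  Pool.Agent.N539.RO.t_bdd Pool.Agent.N383.RO.t_idx Pool.Agent.N383.RO.t_grp

theorem inst_all : S_INST := Pool.Agent.N607.RO.t_inst Pool.Agent.N891.RO.t_ina
  Pool.Agent.N891.RO.t_inc Pool.Agent.N247.RO.t_inl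

theorem quasi (X Γ E : Type) [NormedAddCommGroup E] [NormedSpace ℝ E]
    [FiniteDimensional ℝ E] [TopologicalSpace X] [T2Space X] [SecondCountableTopology X]
    [Nonempty X] [Group Γ] [MulAction Γ X] (dev : X → E) (hol : Γ →* (E ≃ᵃ[ℝ] E))
    (D : AffData X Γ E dev hol) (hinj : Function.Injective dev) (H : Subgroup Γ)
    (hH : H.FiniteIndex) (S : ℕ → Submodule ℝ E) (m : ℕ) (hS : ConformalFlag hol H S m) :
    IsHomeomorph dev ∧ ∃ H' : Subgroup Γ, H'.FiniteIndex ∧ Group.IsSolvable (H'.map hol) :=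
  quasi_full Pool.Agent.N539.RO.t_spl vs Pool.Agent.N713.RO.t_disc X Γ E dev hol D hinj H hH S m hS

theorem rank_one {G : Type} [Group G] [TopologicalSpace G] {K : Set G} {P : Subgroup G} {T : ℝ → G}
    {w : G} {E Γ X : Type} [NormedAddCommGroup E] [NormedSpace ℝ E] [FiniteDimensional ℝ E]
    [Group Γ] {hol : Γ →* (E ≃ᵃ[ℝ] E)}
    [TopologicalSpace X] [T2Space X] [SecondCountableTopology X] [ConnectedSpace X] [MulAction Γ X]
    {dev : X → E} (hG : IsTopologicalGroup G) (hR : RankOne K P T w)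
    (D : AffData X Γ E dev hol) (hinj : Function.Injective dev)
    (ρ : G →* (E ≃ₗ[ℝ] E)) (hr : IsRep T ρ) (H : Subgroup Γ) (hH : H.FiniteIndex)
    (hρ : ∀ γ ∈ H, ∃ g : G, (hol γ).linear = ρ g) : IsHomeomorph dev :=
  rankone_complete Pool.Agent.N539.RO.t_spl vs Pool.Agent.N713.RO.t_disc
    Pool.Agent.N278.RO.t_wflag hG hR D hinj ρ hr H hH hρ

theorem boost_unique {𝕜 : Type} [RCLike 𝕜] {n : ℕ} {T T' : ℝ → LorGroup 𝕜 n}
    (h : IsBoost 𝕜 n T) (h' : IsBoost 𝕜 n T') : T = T' := by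
  funext t
  apply Subtype.ext
  apply Units.ext
  rw [h t, h' t]

theorem lor_rank_one (𝕜 : Type) [RCLike 𝕜] (n : ℕ) (T : ℝ → LorGroup 𝕜 n)
    (hT : IsBoost 𝕜 n T) : ∃ (K : Set (LorGroup 𝕜 n)) (P : Subgroup (LorGroup 𝕜 n))
    (w : LorGroup 𝕜 n), RankOne K P T w := by
  obtain ⟨K, P, T', w, h1, h2⟩ := inst_all 𝕜 n
  rw [boost_unique hT h1]
  exact ⟨K, P, w, h2⟩

theorem lor_group (𝕜 : Type) [RCLike 𝕜] (n : ℕ) : IsTopologicalGroup (LorGroup 𝕜 n) :=
  inferInstance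

end Pool.Agent.N520.RO
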