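import Pool.Agent.N520.RO.RankE

/-!
Project RO, third part: rank one representations without zero weight.  Exact statements of the parts.
-/

set_option autoImplicit false

open Set Filter Topology Metric

namespace Pool.Agent.N520.RO

/-- zero is not a weight of `T` -/
def NoZero {G : Type} [Group G] {V : Type} [NormedAddCommGroup V] [NormedSpace ℝ V] (T : ℝ → G)
    (ρ : G →* (V ≃ₗ[ℝ] V)) : Prop :=
  ∀ v : V, (∀ t : ℝ, ρ (T t) v = v) → v = 0

/-- a subgroup all of whose elements have a fixed vector is bounded or fixes a plate -/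
def S_HYP : Prop := ∀ (G : Type) [Group G] [TopologicalSpace G] [IsTopologicalGroup G]
    (K : Set G) (P : Subgroup G) (T : ℝ → G) (w : G), RankOne K P T w →
  ∀ (V : Type) [NormedAddCommGroup V] [NormedSpace ℝ V] [FiniteDimensional ℝ V]
    (ρ : G →* (V ≃ₗ[ℝ] V)), IsRep T ρ → NoZero T ρ → ∀ Λ : Subgroup G,
  (∀ g ∈ Λ, ∃ v : V, v ≠ 0 ∧ ρ g v = v) →
  (∃ C : ℝ, ∀ g ∈ Λ, ∀ v, ‖ρ g v‖ ≤ C * ‖v‖) ∨ ∃ k0 : G, ∀ g ∈ Λ, k0⁻¹ * g * k0 ∈ P

end Pool.Agent.N520.RO
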