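import Pool.Agent.N520.RO.Asm2
import Pool.Agent.N520.RO.Stm5

/-!
Project RO, third part: rank one representations without zero weight: virtual solvability.
-/

set_option autoImplicit false

open Set Filter Topology Metric
open Pool.Agent.W689.Mk Pool.Agent.TH94.MK Pool.Agent.R522.Mk.Rk Pool.Agent.TH569.MK

namespace Pool.Agent.N520.RO

/-- the case of a fixed plate of a subgroup of finite index -/
theorem fixed_case2 {G : Type} [Group G] [TopologicalSpace G] {K : Set G} {P : Subgroup G}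
    {T : ℝ → G} {w : G} (hG : IsTopologicalGroup G) (hR : RankOne K P T w)
    (X Γ E : Type) [NormedAddCommGroup E] [NormedSpace ℝ E]
    [FiniteDimensional ℝ E] [TopologicalSpace X] [T2Space X] [SecondCountableTopology X]
    [Nonempty X] [Group Γ] [MulAction Γ X] (dev : X → E) (hol : Γ →* (E ≃ᵃ[ℝ] E))
    (D : AffData X Γ E dev hol) (hinj : Function.Injective dev) (S : ℕ → Submodule ℝ E) (m : ℕ)
    (hO : OverFlag hol ⊤ S m) (ρ : G →* (S 0 ≃ₗ[ℝ] S 0)) (hr : IsRep T ρ) (g : Γ → G)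
    (hg : ∀ (γ : Γ) (v : S 0), (hol γ).linear (v : E) = (ρ (g γ) v : E))
    (k : G) (H : Subgroup Γ) (hH : H.FiniteIndex) (hk : ∀ γ ∈ H, k⁻¹ * g γ * k ∈ P) :
    ∃ H' : Subgroup Γ, H'.FiniteIndex ∧ Group.IsSolvable (H'.map hol) := by
  obtain ⟨n, S', C', h0, hn, hle', hfl⟩ := conj_flag ρ Pool.Agent.N278.RO.t_wflag hG hR hr k
  obtain ⟨hm1, hle, hinv, C, hb, hq⟩ := hO
  let St : ℕ → Submodule ℝ E := fun i =>
    if i ≤ n then (S' i).map (S 0).subtype else S (i - n)
  have hlo : ∀ i, i ≤ n → St i = (S' i).map (S 0).subtype := fun i hi => if_pos hi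
  have hhi : ∀ i, n ≤ i → St i = S (i - n) := by
    intro i hi
    rcases hi.eq_or_lt with h | h
    · rw [← h, hlo n le_rfl, hn, Nat.sub_self, Submodule.map_top, Submodule.range_subtype]
    · exact if_neg (by omega)
  have hginv : ∀ (γ : Γ) (v : S 0), (hol γ⁻¹).linear (v : E) = (ρ (g γ)⁻¹ v : E) := by
    intro γ v
    have e1 : (v : E) = (hol γ).linear ((ρ (g γ)⁻¹ v : S 0) : E) := by
      rw [hg, rapply_inv]
    conv_lhs => rw [e1]
    have e2 : (hol γ⁻¹).linear = ((hol γ).linear).symm := by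
      have : AffineEquiv.linearHom (hol γ⁻¹) = (AffineEquiv.linearHom (hol γ))⁻¹ := by
        rw [map_inv, map_inv]
      exact this
    rw [e2, LinearEquiv.symm_apply_apply]
  refine (quasi X Γ E dev hol D hinj H hH St (n + (m + 1)) ⟨?_, ?_, ?_, ?_, max C (max C' 0), ?_⟩).2
  · rw [hlo 0 (Nat.zero_le _), h0, Submodule.map_bot]
  · rw [hhi _ (by omega), Nat.add_sub_cancel_left, hm1]
  · intro i hi
    rcases Nat.lt_or_ge i n with h | h
    · rw [hlo i h.le, hlo (i + 1) h]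
      exact Submodule.map_mono (hle' i h)
    · rw [hhi i h, hhi (i + 1) (by omega), show i + 1 - n = i - n + 1 by omega]
      exact hle _ (by omega)
  · intro i hi γ hγ v hv
    rcases Nat.lt_or_ge i n with h | h
    · rw [hlo i h.le] at hv ⊢
      obtain ⟨u, hu, rfl⟩ := hv
      refine ⟨ρ (g γ) u, (hfl _ (hk γ hγ)).1 i h.le u hu, ?_⟩
      exact (hg γ u).symm
    · rw [hhi i h] at hv ⊢
      rcases Nat.lt_or_ge (i - n) (m + 1) with h' | h'
      · exact hinv _ (by omega) γ (Subgroup.mem_top γ) v hv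
      · rw [show i - n = m + 1 by omega, hm1]
        trivial
  · intro i hi γ hγ
    rcases Nat.lt_or_ge i n with h | h
    · obtain ⟨c, hc, h'⟩ := (hfl _ (hk γ hγ)).2 i h
      refine ⟨c, hc, fun v hv => ?_⟩
      rw [hlo (i + 1) h] at hv
      obtain ⟨u, hu, rfl⟩ := hv
      rw [hlo i h.le]
      obtain ⟨⟨a, ha, ha'⟩, b, hb', hb''⟩ := h' u hu
      have hC' : C' ≤ max C (max C' 0) := (le_max_left _ _).trans (le_max_right _ _)
      refine ⟨⟨a, ⟨a, ha, rfl⟩, ?_⟩, b, ⟨b, hb', rfl⟩, ?_⟩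
      · have e1 : (hol γ).linear ((S 0).subtype u) - (a : E) = ((ρ (g γ) u - a : S 0) : E) := by
          rw [Submodule.coe_sub, ← hg]
          rfl
        rw [e1]
        calc ‖((ρ (g γ) u - a : S 0) : E)‖ = ‖ρ (g γ) u - a‖ := rfl
          _ ≤ C' * c * ‖u‖ := ha'
          _ ≤ _ := by
              show _ ≤ max C (max C' 0) * c * ‖u‖
              gcongr
      · have e1 : (hol γ⁻¹).linear ((S 0).subtype u) - (b : E) =
            ((ρ (g γ)⁻¹ u - b : S 0) : E) := by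
          rw [Submodule.coe_sub, ← hginv]
          rfl
        rw [e1]
        calc ‖((ρ (g γ)⁻¹ u - b : S 0) : E)‖ = ‖ρ (g γ)⁻¹ u - b‖ := rfl
          _ ≤ C' * c⁻¹ * ‖u‖ := hb''
          _ ≤ _ := by
              show _ ≤ max C (max C' 0) * c⁻¹ * ‖u‖
              gcongr
    · rw [hhi i h, hhi (i + 1) (by omega), show i + 1 - n = i - n + 1 by omega]
      rcases Nat.lt_or_ge (i - n) m with h' | h'
      · refine ⟨1, one_pos, fun v hv => ⟨?_, ?_⟩⟩
        · obtain ⟨u, hu, hu'⟩ := hb _ h' γ (Subgroup.mem_top γ) v hv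
          refine ⟨u, hu, hu'.trans ?_⟩
          rw [mul_one]
          gcongr
          exact le_max_left _ _
        · obtain ⟨u, hu, hu'⟩ := hb _ h' γ⁻¹ (Subgroup.mem_top _) v hv
          refine ⟨u, hu, hu'.trans ?_⟩
          rw [inv_one, mul_one]
          gcongr
          exact le_max_left _ _
      · have him : i - n = m := by omega
        rw [him]
        obtain ⟨c, hc, h2⟩ := hq γ (Subgroup.mem_top γ)
        refine ⟨c, hc, fun v _ => ?_⟩
        obtain ⟨⟨a, ha, ha'⟩, b, hb', hb''⟩ := h2 v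
        refine ⟨⟨a, ha, ha'.trans ?_⟩, b, hb', hb''.trans ?_⟩
        · gcongr
          exact le_max_left _ _
        · gcongr
          exact le_max_left _ _


/-- the case of a derived subgroup which is trivial on the quotient and bounded on `W` -/
theorem solv_of_derived (hvs2 : S_VS2) (X Γ E : Type) [NormedAddCommGroup E] [NormedSpace ℝ E]
    [FiniteDimensional ℝ E] [TopologicalSpace X] [T2Space X] [SecondCountableTopology X]
    [Nonempty X] [Group Γ] [MulAction Γ X] (dev : X → E) (hol : Γ →* (E ≃ᵃ[ℝ] E))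
    (D : AffData X Γ E dev hol) (hinj : Function.Injective dev) (W : Submodule ℝ E)
    (hW : ∀ γ, ∀ v ∈ W, (hol γ).linear v ∈ W) (j : ℕ) (C : ℝ)
    (h1 : ∀ γ ∈ derivedSeries Γ j, ∀ v : E, (hol γ).linear v - v ∈ W)
    (h2 : ∀ γ ∈ derivedSeries Γ j, ∀ v ∈ W, ‖(hol γ).linear v‖ ≤ C * ‖v‖) :
    ∃ H' : Subgroup Γ, H'.FiniteIndex ∧ Group.IsSolvable (H'.map hol) := by
  let S : ℕ → Submodule ℝ (E × ℝ) := fun i =>
    if i = 0 then ⊥ else if i = 1 then W.prod ⊥ else if i = 2 then (⊤ : Submodule ℝ E).prod ⊥ else ⊤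
  have hS0 : S 0 = ⊥ := rfl
  have hS1 : S 1 = W.prod ⊥ := rfl
  have hS2 : S 2 = (⊤ : Submodule ℝ E).prod ⊥ := rfl
  have hS3 : S 3 = ⊤ := rfl
  obtain ⟨π, hsys, hπ⟩ := Pool.Agent.N539.RO.t_spl (E × ℝ) 3 S hS0 hS3 (by
    intro i hi
    interval_cases i
    · rw [hS0]; exact bot_le
    · rw [hS1, hS2]; exact Submodule.prod_mono le_top le_rfl
    · rw [hS3]; exact le_top)
  let θ : Γ →* ((E × ℝ) →L[ℝ] (E × ℝ))ˣ := affU.comp hol
  have hθ : ∀ (l : Γ) (p : E × ℝ), (θ l : (E × ℝ) →L[ℝ] (E × ℝ)) p =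
      ((hol l).linear p.1 + p.2 • hol l 0, p.2) := fun l p => rfl
  have hdisc : Disc θ := by
    obtain ⟨ε, hε, h⟩ := Pool.Agent.N713.RO.t_disc X Γ E dev hol D hinj
    refine ⟨ε, hε, fun l hl => ?_⟩
    have : hol l = 1 := h l hl
    show affU (hol l) = 1
    rw [this, map_one]
  have hinv : ∀ i ≤ 3, ∀ (l : Γ), ∀ v ∈ S i, (θ l : (E × ℝ) →L[ℝ] (E × ℝ)) v ∈ S i := by
    intro i hi l v hv
    interval_cases i
    · rw [hS0, Submodule.mem_bot] at hv
      rw [hv, map_zero]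
      exact Submodule.zero_mem _
    · rw [hS1, Submodule.mem_prod, Submodule.mem_bot] at hv ⊢
      rw [hθ, hv.2, zero_smul, add_zero]
      exact ⟨hW l _ hv.1, rfl⟩
    · rw [hS2, Submodule.mem_prod, Submodule.mem_bot] at hv ⊢
      rw [hθ, hv.2]
      exact ⟨trivial, rfl⟩
    · rw [hS3]
      trivial
  have hU : Upper π θ := upper_of_flag θ hsys hπ hinv
  obtain ⟨A, hA, hsol⟩ := hvs2 (E × ℝ) Γ θ 3 π hdisc hsys hU (by
    refine ⟨j, ∑ i, ‖π i‖ * max C 1 * ‖π i‖, fun l hl i => ?_⟩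
    have hle : ‖π i * (θ l : (E × ℝ) →L[ℝ] (E × ℝ)) * π i‖ ≤ ‖π i‖ * max C 1 * ‖π i‖ := by
      refine block_bound hsys hπ i _ (max C 1) (le_max_of_le_right zero_le_one) ?_
      intro v hv
      have hn : ‖v.1‖ ≤ ‖v‖ := norm_fst_le v
      have hn2 : ‖v.2‖ ≤ ‖v‖ := norm_snd_le v
      fin_cases i
      · have hv' : v ∈ S 1 := hv
        rw [hS1, Submodule.mem_prod, Submodule.mem_bot] at hv'
        refine ⟨0, Submodule.zero_mem _, ?_⟩
        rw [sub_zero, hθ, hv'.2, zero_smul, add_zero, Prod.norm_mk, norm_zero,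
          max_eq_left (norm_nonneg _)]
        calc _ ≤ C * ‖v.1‖ := h2 l hl _ hv'.1
          _ ≤ max C 1 * ‖v‖ := by
              gcongr
              exact le_max_left _ _
      · have hv' : v ∈ S 2 := hv
        rw [hS2, Submodule.mem_prod, Submodule.mem_bot] at hv'
        refine ⟨((hol l).linear v.1 - v.1, 0), ?_, ?_⟩
        · show _ ∈ S 1
          rw [hS1, Submodule.mem_prod, Submodule.mem_bot]
          exact ⟨h1 l hl _, rfl⟩
        · rw [hθ, hv'.2, zero_smul, add_zero, Prod.mk_sub_mk, sub_sub_cancel, sub_zero,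
            Prod.norm_mk, norm_zero, max_eq_left (norm_nonneg _)]
          calc ‖v.1‖ ≤ 1 * ‖v‖ := by rw [one_mul]; exact hn
            _ ≤ _ := by
                gcongr
                exact le_max_right _ _
      · refine ⟨((hol l).linear v.1 + v.2 • hol l 0, 0), ?_, ?_⟩
        · show _ ∈ S 2
          rw [hS2, Submodule.mem_prod, Submodule.mem_bot]
          exact ⟨trivial, rfl⟩
        · rw [hθ, Prod.mk_sub_mk, sub_self, sub_zero, Prod.norm_mk, norm_zero,
            max_eq_right (norm_nonneg _)]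
          calc ‖v.2‖ ≤ 1 * ‖v‖ := by rw [one_mul]; exact hn2
            _ ≤ _ := by
                gcongr
                exact le_max_right _ _
    exact hle.trans (Finset.single_le_sum (f := fun i => ‖π i‖ * max C 1 * ‖π i‖)
      (fun j _ => by positivity) (Finset.mem_univ i)))
  refine ⟨A, hA, ?_⟩
  have h8 : ∀ k : A.map hol, affU (k : E ≃ᵃ[ℝ] E) ∈ A.map (affU.comp hol) := by
    rintro ⟨_, a, ha, rfl⟩
    exact ⟨a, ha, rfl⟩
  have h9 : Function.Injective
      ((affU.comp (A.map hol).subtype).codRestrict (A.map (affU.comp hol)) h8) := by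
    intro a b hab
    exact Subtype.ext (affU_injective (congrArg Subtype.val hab))
  exact Group.isSolvable_of_isSolvable_injective h9


section
variable {G : Type} [Group G] [TopologicalSpace G] {K : Set G} {P : Subgroup G} {T : ℝ → G} {w : G}
variable {V : Type} [NormedAddCommGroup V] [NormedSpace ℝ V] [FiniteDimensional ℝ V]

theorem upT_ne_top (hG : IsTopologicalGroup G) (hR : RankOne K P T w) (ρ : G →* (V ≃ₗ[ℝ] V))
    (hr : IsRep T ρ) (hz : NoZero T ρ) (hV : ∃ v : V, v ≠ 0) : upT T ρ ≠ ⊤ := by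
  intro htop
  -- a nonzero weight vector
  have hex : ∃ v : V, v ≠ 0 ∧ ∃ c : ℝ, ∀ t : ℝ, ρ (T t) v = Real.exp (c * t) • v := by
    by_contra hno
    push Not at hno
    obtain ⟨v, hv⟩ := hV
    apply hv
    have h1 : v ∈ Submodule.span ℝ {v : V | ∃ c : ℝ, ∀ t : ℝ, ρ (T t) v = Real.exp (c * t) • v} := by
      rw [hr.2]; trivial
    have h2 : Submodule.span ℝ {v : V | ∃ c : ℝ, ∀ t : ℝ, ρ (T t) v = Real.exp (c * t) • v} ≤ ⊥ := by
      rw [Submodule.span_le]
      rintro u ⟨c, hc⟩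
      by_contra hu
      obtain ⟨t, ht⟩ := hno u hu c
      exact ht (hc t)
    exact (Submodule.mem_bot ℝ).mp (h2 h1)
  obtain ⟨v, hv, c, hc⟩ := hex
  have hmem : ∀ u : V, ∃ C : ℝ, ∀ t : ℝ, 0 ≤ t → ‖ρ (T (-t)) u‖ ≤ C := by
    intro u
    have : u ∈ upT T ρ := by rw [htop]; trivial
    exact this
  -- the weight is positive
  have hc0 : 0 < c := by
    rcases lt_trichotomy c 0 with h | h | h
    · exfalso
      obtain ⟨C, hC⟩ := hmem v
      have hb : ∀ t : ℝ, 0 ≤ t → Real.exp (-c * t) * ‖v‖ ≤ C := by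
        intro t ht
        have h1 := hC t ht
        rw [hc, norm_smul, Real.norm_eq_abs, abs_of_pos (Real.exp_pos _)] at h1
        rwa [neg_mul, ← mul_neg]
      have hvp : 0 < ‖v‖ := norm_pos_iff.mpr hv
      have htend : Tendsto (fun t : ℝ => Real.exp (-c * t) * ‖v‖) atTop atTop :=
        (Real.tendsto_exp_atTop.comp (tendsto_id.const_mul_atTop (by linarith : 0 < -c))).atTop_mul_const
          hvp
      obtain ⟨t, ht1, ht2⟩ := ((htend.eventually_gt_atTop C).and (eventually_ge_atTop 0)).exists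
      exact absurd (hb t ht2) (not_le.mpr ht1)
    · exfalso
      apply hv
      apply hz
      intro t
      rw [hc, h, zero_mul, Real.exp_zero, one_smul]
    · exact h
  -- uniform bound for the contracting half
  haveI : CompleteSpace V := FiniteDimensional.complete ℝ V
  obtain ⟨M, hM⟩ := banach_steinhaus (ι := {t : ℝ // 0 ≤ t})
    (g := fun t => RR ρ (T (-t.1))) (fun u => by
      obtain ⟨C, hC⟩ := hmem u
      exact ⟨C, fun t => hC t.1 t.2⟩)
  obtain ⟨C0, hC0, h0⟩ := rbdd ρ hr.1 hR.compact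
  have hwv : ρ w v ≠ 0 := by
    intro h
    exact hv ((ρ w).map_eq_zero_iff.mp h)
  have hlow : ∀ t : ℝ, 0 ≤ t → ‖ρ w v‖ ≤ (|M| + 1) * ‖ρ (T t) (ρ w v)‖ := by
    intro t ht
    have e : ρ w v = ρ (T (-t)) (ρ (T t) (ρ w v)) := by
      rw [← rmul, T_neg hR.add, inv_mul_cancel, map_one]
      rfl
    conv_lhs => rw [e]
    refine (RR_le ρ _ _).trans ?_
    gcongr
    exact (hM ⟨t, ht⟩).trans (by linarith [le_abs_self M])
  have hup : ∀ᶠ t in atTop, ‖ρ (T t) (ρ w v)‖ ≤ C0 * (Real.exp (-c * t) * ‖v‖) := by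
    filter_upwards [hR.weyl] with t ht
    have e : ρ (T t) (ρ w v) = ρ (T t * w * T t) (ρ (T (-t)) v) := by
      rw [← rmul, ← rmul, T_neg hR.add]
      congr 2
      group
    rw [e]
    refine (h0 _ ht _).trans ?_
    rw [hc, norm_smul, Real.norm_eq_abs, abs_of_pos (Real.exp_pos _), mul_neg, neg_mul]
  have htend : Tendsto (fun t : ℝ => (|M| + 1) * (C0 * (Real.exp (-c * t) * ‖v‖))) atTop (𝓝 0) := by
    have h1 : Tendsto (fun t : ℝ => Real.exp (-c * t)) atTop (𝓝 0) := by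
      have h2 : Tendsto (fun t : ℝ => -(c * t)) atTop atBot :=
        tendsto_neg_atTop_atBot.comp (tendsto_id.const_mul_atTop hc0)
      have h3 := Real.tendsto_exp_atBot.comp h2
      refine h3.congr fun t => ?_
      show Real.exp (-(c * t)) = _
      rw [neg_mul]
    have h2 := ((h1.mul_const ‖v‖).const_mul C0).const_mul (|M| + 1)
    simpa using h2
  have hpos : 0 < ‖ρ w v‖ := norm_pos_iff.mpr hwv
  obtain ⟨t, ht1, ht2, ht3⟩ := ((htend.eventually_lt_const hpos).and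
    (hup.and (eventually_ge_atTop 0))).exists
  have h1 := hlow t ht3
  have h2 : (|M| + 1) * ‖ρ (T t) (ρ w v)‖ ≤ (|M| + 1) * (C0 * (Real.exp (-c * t) * ‖v‖)) := by
    gcongr
  linarith

end

/-- virtual solvability, for the whole group -/
theorem rankF0 (hyp : S_HYP) {G : Type} [Group G] [TopologicalSpace G] {K : Set G} {P : Subgroup G}
    {T : ℝ → G} {w : G} (hG : IsTopologicalGroup G) (hR : RankOne K P T w)
    (X Γ E : Type) [NormedAddCommGroup E] [NormedSpace ℝ E]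
    [FiniteDimensional ℝ E] [TopologicalSpace X] [T2Space X] [SecondCountableTopology X]
    [ConnectedSpace X] [Group Γ] [MulAction Γ X] (dev : X → E) (hol : Γ →* (E ≃ᵃ[ℝ] E))
    (D : AffData X Γ E dev hol) (hdev : IsHomeomorph dev)
    (hfree : ∀ (γ : Γ) (x : X), γ • x = x → γ = 1) (S : ℕ → Submodule ℝ E) (m : ℕ)
    (hO : OverFlag hol ⊤ S m) (ρ : G →* (S 0 ≃ₗ[ℝ] S 0)) (hr : IsRep T ρ) (hz : NoZero T ρ)
    (hρ : ∀ γ : Γ, ∃ g : G, ∀ v : S 0, (hol γ).linear (v : E) = (ρ g v : E)) (j : ℕ)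
    (hj : ∀ γ ∈ derivedSeries Γ j, ∀ v : E, hol γ v - v ∈ S 0) :
    ∃ H' : Subgroup Γ, H'.FiniteIndex ∧ Group.IsSolvable (H'.map hol) := by
  have hinj := hdev.injective
  choose g hg using hρ
  have hWinv : ∀ γ, ∀ v ∈ S 0, (hol γ).linear v ∈ S 0 := by
    intro γ v hv
    rw [show v = ((⟨v, hv⟩ : S 0) : E) from rfl, hg]
    exact (ρ (g γ) _).2
  let B : Γ →* (S 0 ≃ₗ[ℝ] S 0) :=
    { toFun := fun γ => ρ (g γ)
      map_one' := by
        refine LinearEquiv.ext fun v => Subtype.ext ?_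
        rw [← hg, map_one]
        rfl
      map_mul' := by
        intro γ δ
        refine LinearEquiv.ext fun v => Subtype.ext ?_
        show ((ρ (g (γ * δ)) v : S 0) : E) = ((ρ (g γ) (ρ (g δ) v) : S 0) : E)
        rw [← hg, ← hg, ← hg, map_mul]
        rfl }
  have hlinW : ∀ n ∈ derivedSeries Γ j, ∀ v : E, (hol n).linear v - v ∈ S 0 := by
    intro n hn v
    have h1 := hj n hn v
    have h2 := hj n hn 0
    have h3 := lin_zero (hol n) v
    have h4 : (hol n).linear v - v = (hol n v - v) - (hol n 0 - 0) := by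
      rw [h3]
      abel
    rw [h4]
    exact Submodule.sub_mem _ h1 h2
  -- no fixed points
  have hnofix : ∀ γ : Γ, γ ≠ 1 → ∀ x : E, hol γ x ≠ x := by
    intro γ hγ x hx
    obtain ⟨y, rfl⟩ := hdev.surjective x
    rw [← D.equi] at hx
    exact hγ (hfree γ y (hinj hx))
  by_cases hV : ∃ v : S 0, v ≠ 0
  swap
  · push Not at hV
    refine solv_of_derived vs2 X Γ E dev hol D hinj (S 0) hWinv j 0 hlinW ?_
    intro γ _ v hv
    have : v = 0 := congrArg Subtype.val (hV ⟨v, hv⟩)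
    rw [this, map_zero, norm_zero, mul_zero]
  -- fixed vectors
  have hvec : ∀ γ ∈ derivedSeries Γ j, ∃ v : S 0, v ≠ 0 ∧ B γ v = v := by
    intro γ hγ
    by_cases h1 : γ = 1
    · obtain ⟨v, hv⟩ := hV
      refine ⟨v, hv, ?_⟩
      rw [h1, map_one]
      rfl
    by_contra hno
    push Not at hno
    let A : S 0 →ₗ[ℝ] S 0 := (B γ : S 0 →ₗ[ℝ] S 0) - LinearMap.id
    have hA : Function.Injective A := by
      rw [injective_iff_map_eq_zero]
      intro v hv
      by_contra hv0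
      apply hno v hv0
      have : B γ v - v = 0 := hv
      exact sub_eq_zero.mp this
    have hAs : Function.Surjective A := LinearMap.injective_iff_surjective.mp hA
    have h0 : hol γ 0 ∈ S 0 := by
      have := hj γ hγ 0
      rwa [sub_zero] at this
    obtain ⟨v, hv⟩ := hAs (-⟨hol γ 0, h0⟩)
    apply hnofix γ h1 (v : E)
    have h2 : B γ v - v = -⟨hol γ 0, h0⟩ := hv
    have h3 : ((B γ v : S 0) : E) - v = -hol γ 0 := congrArg Subtype.val h2
    rw [lin_zero, hg]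
    have h4 : ((ρ (g γ) v : S 0) : E) - v = -hol γ 0 := h3
    rw [eq_comm, ← sub_eq_zero]
    have h5 : (v : E) - (((ρ (g γ) v : S 0) : E) + hol γ 0) =
        -((((ρ (g γ) v : S 0) : E) - v) + hol γ 0) := by abel
    rw [h5, h4, neg_add_cancel, neg_zero]
  let Λ : Subgroup G := ((derivedSeries Γ j).map B).comap ρ
  rcases hyp G K P T w hR (S 0) ρ hr hz Λ (by
    rintro g' ⟨γ, hγ, hγ'⟩
    obtain ⟨v, hv, hv'⟩ := hvec γ hγ
    exact ⟨v, hv, by rw [← hγ']; exact hv'⟩) with ⟨C, hC⟩ | ⟨k0, hk0⟩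
  · refine solv_of_derived vs2 X Γ E dev hol D hinj (S 0) hWinv j C hlinW ?_
    intro γ hγ v hv
    rw [show v = ((⟨v, hv⟩ : S 0) : E) from rfl, hg]
    exact hC (g γ) ⟨γ, hγ, rfl⟩ ⟨v, hv⟩
  · have hnorm : (derivedSeries Γ j).Normal := inferInstance
    rcases elem_cases hG hR ρ hr (upT_ne_top hG hR ρ hr hz hV) B g (fun γ => rfl)
      (derivedSeries Γ j) k0 (fun n hn => hk0 _ ⟨n, hn, rfl⟩) with
      ⟨H, hH, hk⟩ | ⟨k1, k2, a1, a2, a3, b1, b2⟩
    · exact fixed_case2 hG hR X Γ E dev hol D hinj S m hO ρ hr g hg k0 H hH hk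
    · obtain ⟨C, hC⟩ := Pool.Agent.N413.RO.Three.t_three G K P T w hR (S 0) ρ hr k0 k1 k2 a1 a2 a3
      refine solv_of_derived vs2 X Γ E dev hol D hinj (S 0) hWinv j C hlinW ?_
      intro n hn v hv
      rw [show v = ((⟨v, hv⟩ : S 0) : E) from rfl, hg]
      exact hC (g n) (hk0 _ ⟨n, hn, rfl⟩) (b1 n hn) (b2 n hn) ⟨v, hv⟩

/-- completeness and virtual solvability -/
theorem rankF (hyp : S_HYP) {G : Type} [Group G] [TopologicalSpace G] {K : Set G} {P : Subgroup G}
    {T : ℝ → G} {w : G} (hG : IsTopologicalGroup G) (hR : RankOne K P T w)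
    (X Γ E : Type) [NormedAddCommGroup E] [NormedSpace ℝ E]
    [FiniteDimensional ℝ E] [TopologicalSpace X] [T2Space X] [SecondCountableTopology X]
    [ConnectedSpace X] [Group Γ] [MulAction Γ X] (dev : X → E) (hol : Γ →* (E ≃ᵃ[ℝ] E))
    (D : AffData X Γ E dev hol) (hinj : Function.Injective dev)
    (hfree : ∀ (γ : Γ) (x : X), γ • x = x → γ = 1) (H : Subgroup Γ)
    (hH : H.FiniteIndex) (S : ℕ → Submodule ℝ E) (m : ℕ)
    (hO : OverFlag hol H S m) (ρ : G →* (S 0 ≃ₗ[ℝ] S 0)) (hr : IsRep T ρ) (hz : NoZero T ρ)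
    (hρ : ∀ γ ∈ H, ∃ g : G, ∀ v : S 0, (hol γ).linear (v : E) = (ρ g v : E)) (j : ℕ)
    (hj : ∀ γ ∈ derivedSeries H j, ∀ v : E, hol (γ : Γ) v - v ∈ S 0) :
    IsHomeomorph dev ∧ ∃ H' : Subgroup Γ, H'.FiniteIndex ∧ Group.IsSolvable (H'.map hol) := by
  have hdev := rankC hG hR X Γ E dev hol D hinj H hH S m hO ρ hr hρ j hj
  refine ⟨hdev, ?_⟩
  obtain ⟨h1, hle, hinv, C, hb, hq⟩ := hO
  obtain ⟨A, hA, hs⟩ := rankF0 hyp hG hR X H E dev (hol.comp H.subtype)
    (Pool.Agent.Y449.MK.restrict D H hH) hdev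
    (fun γ x hx => Subtype.ext (hfree (γ : Γ) x hx)) S m
    ⟨h1, hle, fun i hi γ _ v hv => hinv i hi γ γ.2 v hv, C,
      fun i hi γ _ v hv => hb i hi γ γ.2 v hv, fun γ _ => hq γ γ.2⟩ ρ hr hz
    (fun γ => hρ γ γ.2) j hj
  refine ⟨A.map H.subtype, ?_, ?_⟩
  · refine ⟨?_⟩
    rw [Subgroup.index_map_subtype]
    exact mul_ne_zero hA.index_ne_zero hH.index_ne_zero
  · rw [Subgroup.map_map]
    exact hs

end Pool.Agent.N520.RO
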