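import Pool.Agent.N520.RO.Def
import Pool.Agent.R522.Mk.Rk2

/-!
Project RO, second part: rank one action on an invariant subspace.  Exact statements of the parts.
-/

set_option autoImplicit false

open Set Filter Topology Metric
open Pool.Agent.R522.Mk.Rk

namespace Pool.Agent.N520.RO

/-- `SL(2, ℝ)` has rank one -/
def S_SL2I : Prop := ∃ (K : Set G) (P : Subgroup G) (w : G), RankOne K P dg w

end Pool.Agent.N520.RO
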