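import Pool.Agent.N520.RO.RankE
import Pool.Agent.N520.RO.Stm4c
import Pool.Agent.N441.RO.Slice
import Pool.Agent.N712.RO.Dich
import Pool.Agent.N413.RO.Three
import Pool.Agent.N499.RO.Tr
import Pool.Agent.N494.RO.Vs2
import Pool.Agent.N624.RO.SL2I

/-!
Project RO, second part: assembly.
-/

set_option autoImplicit false

open Set Filter Topology
open Pool.Agent.W689.Mk Pool.Agent.R522.Mk.Rk

namespace Pool.Agent.N520.RO

theorem vs2 : S_VS2 := Pool.Agent.N494.RO.t_vs2 Pool.Agent.N316.RO.Zas.t_zas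
  (Pool.Agent.N717.RO.t_tria Pool.Agent.N701.RO.t_ce) Pool.Agent.N413.RO.Trib.t_trib
  Pool.Agent.N383.RO.t_idx Pool.Agent.N494.RO.t_grp2 Pool.Agent.N499.RO.TR.t_tr

theorem rankC {G : Type} [Group G] [TopologicalSpace G] {K : Set G} {P : Subgroup G}
    {T : ℝ → G} {w : G} (hG : IsTopologicalGroup G) (hR : RankOne K P T w)
    (X Γ E : Type) [NormedAddCommGroup E] [NormedSpace ℝ E]
    [FiniteDimensional ℝ E] [TopologicalSpace X] [T2Space X] [SecondCountableTopology X]
    [ConnectedSpace X] [Group Γ] [MulAction Γ X] (dev : X → E) (hol : Γ →* (E ≃ᵃ[ℝ] E))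
    (D : AffData X Γ E dev hol) (hinj : Function.Injective dev) (H : Subgroup Γ)
    (hH : H.FiniteIndex) (S : ℕ → Submodule ℝ E) (m : ℕ)
    (hO : OverFlag hol H S m) (ρ : G →* (S 0 ≃ₗ[ℝ] S 0)) (hr : IsRep T ρ)
    (hρ : ∀ γ ∈ H, ∃ g : G, ∀ v : S 0, (hol γ).linear (v : E) = (ρ g v : E)) (j : ℕ)
    (hj : ∀ γ ∈ derivedSeries H j, ∀ v : E, hol (γ : Γ) v - v ∈ S 0) : IsHomeomorph dev := by
  obtain ⟨h1, hle, hinv, C, hb, hq⟩ := hO
  exact rankC0 Pool.Agent.N441.RO.t_slice Pool.Agent.N712.RO.t_dich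
    Pool.Agent.N413.RO.Three.t_three vs2 hG hR X H E dev (hol.comp H.subtype)
    (Pool.Agent.Y449.MK.restrict D H hH) hinj S m
    ⟨h1, hle, fun i hi γ _ v hv => hinv i hi γ γ.2 v hv, C,
      fun i hi γ _ v hv => hb i hi γ γ.2 v hv, fun γ _ => hq γ γ.2⟩ ρ hr
    (fun γ => hρ γ γ.2) j hj

/-- the standard action of `SL(2, ℝ)` through a basis -/
noncomputable def stdRep {V : Type} [NormedAddCommGroup V] [NormedSpace ℝ V]
    (b : Module.Basis (Fin 2) ℝ V) : G →* (V ≃ₗ[ℝ] V) where
  toFun g :=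
    { toFun := fun v => ∑ i, (g.1.mulVec (b.repr v)) i • b i
      map_add' := by
        intro x y
        simp [Matrix.mulVec_add, add_smul, Finset.sum_add_distrib]
      map_smul' := by
        intro c x
        simp [Matrix.mulVec_smul, mul_smul, Finset.smul_sum]
      invFun := fun v => ∑ i, (g⁻¹.1.mulVec (b.repr v)) i • b i
      left_inv := by
        intro v
        have h1 : ∀ i, b.repr (∑ j, (g.1.mulVec (b.repr v)) j • b j) i =
            (g.1.mulVec (b.repr v)) i := fun i => by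
          rw [b.repr_sum_self]
        have h2 : (⇑(b.repr (∑ j, (g.1.mulVec (b.repr v)) j • b j)) : Fin 2 → ℝ) =
            g.1.mulVec (b.repr v) := funext h1
        show ∑ i, (g⁻¹.1.mulVec (⇑(b.repr (∑ j, (g.1.mulVec (b.repr v)) j • b j)))) i • b i = v
        rw [h2, Matrix.mulVec_mulVec]
        have h3 : g⁻¹.1 * g.1 = 1 := by
          have := congrArg Subtype.val (inv_mul_cancel g)
          exact this
        rw [h3, Matrix.one_mulVec]
        exact b.sum_repr v
      right_inv := by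
        intro v
        have h1 : ∀ i, b.repr (∑ j, (g⁻¹.1.mulVec (b.repr v)) j • b j) i =
            (g⁻¹.1.mulVec (b.repr v)) i := fun i => by
          rw [b.repr_sum_self]
        have h2 : (⇑(b.repr (∑ j, (g⁻¹.1.mulVec (b.repr v)) j • b j)) : Fin 2 → ℝ) =
            g⁻¹.1.mulVec (b.repr v) := funext h1
        show ∑ i, (g.1.mulVec (⇑(b.repr (∑ j, (g⁻¹.1.mulVec (b.repr v)) j • b j)))) i • b i = v
        rw [h2, Matrix.mulVec_mulVec]
        have h3 : g.1 * g⁻¹.1 = 1 := by
          have := congrArg Subtype.val (mul_inv_cancel g)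
          exact this
        rw [h3, Matrix.one_mulVec]
        exact b.sum_repr v }
  map_one' := by
    refine LinearEquiv.ext fun v => ?_
    show ∑ i, ((1 : Matrix (Fin 2) (Fin 2) ℝ).mulVec (b.repr v)) i • b i = v
    rw [Matrix.one_mulVec]
    exact b.sum_repr v
  map_mul' g h := by
    refine LinearEquiv.ext fun v => ?_
    show ∑ i, ((g.1 * h.1).mulVec (b.repr v)) i • b i =
      ∑ i, (g.1.mulVec (⇑(b.repr (∑ j, (h.1.mulVec (b.repr v)) j • b j)))) i • b i
    have h1 : ∀ i, b.repr (∑ j, (h.1.mulVec (b.repr v)) j • b j) i =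
        (h.1.mulVec (b.repr v)) i := fun i => by
      rw [b.repr_sum_self]
    have h2 : (⇑(b.repr (∑ j, (h.1.mulVec (b.repr v)) j • b j)) : Fin 2 → ℝ) =
        h.1.mulVec (b.repr v) := funext h1
    rw [h2, Matrix.mulVec_mulVec]

theorem stdRep_apply {V : Type} [NormedAddCommGroup V] [NormedSpace ℝ V]
    (b : Module.Basis (Fin 2) ℝ V) (g : G) (v : V) :
    stdRep b g v = ∑ i, (g.1.mulVec (b.repr v)) i • b i := rfl

theorem stdRep_isRep {V : Type} [NormedAddCommGroup V] [NormedSpace ℝ V]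
    (b : Module.Basis (Fin 2) ℝ V) : IsRep dg (stdRep b) := by
  constructor
  · intro v
    have : (fun g : G => stdRep b g v) = fun g : G => ∑ i, (g.1.mulVec (b.repr v)) i • b i := rfl
    rw [this]
    refine continuous_finsetSum _ fun i _ => Continuous.smul ?_ continuous_const
    have h1 : Continuous fun g : G => g.1 := continuous_subtype_val
    exact (continuous_apply i).comp (h1.matrix_mulVec continuous_const)
  · rw [← b.span_eq]
    refine le_antisymm ?_ ?_
    · rw [b.span_eq]
      exact le_top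
    · refine Submodule.span_mono ?_
      rintro _ ⟨i, rfl⟩
      fin_cases i
      · refine ⟨1, fun t => ?_⟩
        show stdRep b (dg t) (b 0) = _
        rw [stdRep_apply, Fin.sum_univ_two]
        simp [Matrix.mulVec, dotProduct, dg, Fin.sum_univ_two]
      · refine ⟨-1, fun t => ?_⟩
        show stdRep b (dg t) (b 1) = _
        rw [stdRep_apply, Fin.sum_univ_two]
        simp [Matrix.mulVec, dotProduct, dg, Fin.sum_univ_two]

end Pool.Agent.N520.RO
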