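import Pool.Agent.Y449.MS.Defs

/-!
Project RO (Markus conjecture): quasi-conformal flags and rank one groups.  Definitions.
-/

set_option autoImplicit false

open Set Filter Topology

namespace Pool.Agent.N520.RO

/-- left-normed commutators of weight `k + 1` of the elements of `F` -/
def Cm {Λ : Type*} [Group Λ] (F : Set Λ) : ℕ → Set Λ
  | 0 => F
  | k + 1 => {z | ∃ x ∈ Cm F k, ∃ y ∈ F, z = x * y * x⁻¹ * y⁻¹}

section
variable {V : Type*} [NormedAddCommGroup V] [NormedSpace ℝ V]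

/-- a complete system of orthogonal idempotents -/
structure Sys (m : ℕ) (π : Fin m → V →L[ℝ] V) : Prop where
  sum : ∑ i, π i = 1
  orth : ∀ i j, π i * π j = if i = j then π i else 0

/-- block upper triangular -/
def Upper {Λ : Type*} {m : ℕ} (π : Fin m → V →L[ℝ] V) (θ : Λ → (V →L[ℝ] V)ˣ) : Prop :=
  ∀ (l : Λ) (i j : Fin m), j < i → π i * (θ l : V →L[ℝ] V) * π j = 0

/-- uniformly quasi-conformal diagonal blocks -/
def QC {Λ : Type*} [Group Λ] {m : ℕ} (π : Fin m → V →L[ℝ] V) (θ : Λ →* (V →L[ℝ] V)ˣ) : Prop :=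
  ∃ C : ℝ, ∀ (l : Λ) (i : Fin m), ∃ c : ℝ, 0 < c ∧ ‖π i * (θ l : V →L[ℝ] V) * π i‖ ≤ C * c ∧
    ‖π i * (θ l⁻¹ : V →L[ℝ] V) * π i‖ ≤ C * c⁻¹

/-- elements near the identity are the identity -/
def Disc {Λ : Type*} [Group Λ] (θ : Λ →* (V →L[ℝ] V)ˣ) : Prop :=
  ∃ ε : ℝ, 0 < ε ∧ ∀ l : Λ, ‖(θ l : V →L[ℝ] V) - 1‖ < ε → θ l = 1

end

section
variable {E : Type} [NormedAddCommGroup E] [NormedSpace ℝ E] [FiniteDimensional ℝ E]

/-- the linear map of `E × ℝ` given by an affine map of `E` -/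
noncomputable def aff (g : E ≃ᵃ[ℝ] E) : (E × ℝ) →L[ℝ] (E × ℝ) :=
  LinearMap.toContinuousLinearMap
    (((g.linear : E →ₗ[ℝ] E).comp (LinearMap.fst ℝ E ℝ) +
      (LinearMap.snd ℝ E ℝ).smulRight (g 0)).prod (LinearMap.snd ℝ E ℝ))

theorem aff_apply (g : E ≃ᵃ[ℝ] E) (p : E × ℝ) : aff g p = (g.linear p.1 + p.2 • g 0, p.2) := rfl

theorem lin_zero (g : E ≃ᵃ[ℝ] E) (v : E) : g v = g.linear v + g 0 := by
  have h := g.map_vadd 0 v
  rwa [vadd_eq_add, vadd_eq_add, add_zero] at h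

theorem aff_mul (g h : E ≃ᵃ[ℝ] E) : aff (g * h) = aff g * aff h := by
  refine ContinuousLinearMap.ext fun p => ?_
  have h1 : (g * h) 0 = g.linear (h 0) + g 0 := lin_zero g (h 0)
  show ((g * h).linear p.1 + p.2 • (g * h) 0, p.2) =
    (g.linear (h.linear p.1 + p.2 • h 0) + p.2 • g 0, p.2)
  rw [h1, map_add, map_smul, smul_add, add_assoc]
  rfl

theorem aff_one : aff (1 : E ≃ᵃ[ℝ] E) = 1 := by
  refine ContinuousLinearMap.ext fun p => ?_
  show (p.1 + p.2 • (0 : E), p.2) = p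
  rw [smul_zero, add_zero]

/-- the linearization of the affine group -/
noncomputable def affU : (E ≃ᵃ[ℝ] E) →* ((E × ℝ) →L[ℝ] (E × ℝ))ˣ where
  toFun g := ⟨aff g, aff g⁻¹, by rw [← aff_mul, mul_inv_cancel, aff_one],
    by rw [← aff_mul, inv_mul_cancel, aff_one]⟩
  map_one' := Units.ext aff_one
  map_mul' g h := Units.ext (aff_mul g h)

end

section
variable {Γ E : Type} [Group Γ] [NormedAddCommGroup E] [NormedSpace ℝ E]

/-- The linear holonomy of `H` preserves the flag `0 = S 0 ⊆ S 1 ⊆ … ⊆ S m = E` and acts on the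
quotients `S (i + 1) / S i` by uniformly quasi-conformal maps: up to one constant `C`, every `γ` in
`H` multiplies the quotient norm by a factor `c > 0`, which depends on `γ` and `i`. -/
def ConformalFlag (hol : Γ →* (E ≃ᵃ[ℝ] E)) (H : Subgroup Γ) (S : ℕ → Submodule ℝ E) (m : ℕ) :
    Prop :=
  S 0 = ⊥ ∧ S m = ⊤ ∧ (∀ i < m, S i ≤ S (i + 1)) ∧
    (∀ i ≤ m, ∀ γ ∈ H, ∀ v ∈ S i, (hol γ).linear v ∈ S i) ∧
    ∃ C : ℝ, ∀ i < m, ∀ γ ∈ H, ∃ c : ℝ, 0 < c ∧ ∀ v ∈ S (i + 1),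
      (∃ w ∈ S i, ‖(hol γ).linear v - w‖ ≤ C * c * ‖v‖) ∧
      ∃ w ∈ S i, ‖(hol γ⁻¹).linear v - w‖ ≤ C * c⁻¹ * ‖v‖

end

section
variable {G : Type} [Group G] [TopologicalSpace G]

/-- The decompositions of a simple Lie group `G` of real rank one: `K` is a compact subset (a
compact neighbourhood of a maximal compact subgroup), `T` a one-parameter subgroup, `P` a subgroup
and `w` an element of `G` such that `G = K T K` (Cartan), `G = K P` (Iwasawa), every `p` in `P` is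
equal to some `T s` up to an element `q` with `T (-t) * q * T t` in `K` for large `t` (Langlands),
`G = P ∪ P w P` (Bruhat), and `T t * w * T t` is in `K` for large `t` (Weyl). -/
structure RankOne (K : Set G) (P : Subgroup G) (T : ℝ → G) (w : G) : Prop where
  compact : IsCompact K
  add : ∀ s t, T (s + t) = T s * T t
  cartan : ∀ g, ∃ k ∈ K, ∃ t : ℝ, ∃ l ∈ K, g = k * T t * l
  iwasawa : ∀ g, ∃ k ∈ K, ∃ p ∈ P, g = k * p
  langlands : ∀ p ∈ P, ∃ s : ℝ, ∀ᶠ t in atTop, T (-t) * (T (-s) * p) * T t ∈ K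
  bruhat : ∀ g, g ∈ P ∨ ∃ p ∈ P, ∃ q ∈ P, g = p * w * q
  weyl : ∀ᶠ t in atTop, T t * w * T t ∈ K

/-- `ρ` is a continuous representation of `G` on `E`, in which `T` acts diagonalizably: `E` is
spanned by weight vectors. -/
def IsRep {E : Type} [NormedAddCommGroup E] [NormedSpace ℝ E] (T : ℝ → G)
    (ρ : G →* (E ≃ₗ[ℝ] E)) : Prop :=
  (∀ v : E, Continuous fun g : G => ρ g v) ∧
    Submodule.span ℝ {v : E | ∃ c : ℝ, ∀ t : ℝ, ρ (T t) v = Real.exp (c * t) • v} = ⊤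

end

end Pool.Agent.N520.RO
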