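import Pool.Agent.N520.RO.Asm2

/-!
Project RO, second part: trivial action on the quotient by a plane; bounded derived groups.
-/

set_option autoImplicit false

open Set Filter Topology
open Pool.Agent.W689.Mk Pool.Agent.R522.Mk.Rk

namespace Pool.Agent.N520.RO

theorem plane_case (X Γ E : Type) [NormedAddCommGroup E] [NormedSpace ℝ E]
    [FiniteDimensional ℝ E] [TopologicalSpace X] [T2Space X] [SecondCountableTopology X]
    [ConnectedSpace X] [Group Γ] [MulAction Γ X] (dev : X → E) (hol : Γ →* (E ≃ᵃ[ℝ] E))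
    (D : AffData X Γ E dev hol) (hinj : Function.Injective dev) (H : Subgroup Γ)
    (hH : H.FiniteIndex) (W : Submodule ℝ E) (hW2 : Module.finrank ℝ W = 2)
    (hW : ∀ γ ∈ H, ∀ v : E, (hol γ).linear v - v ∈ W) : IsHomeomorph dev := by
  have hmem : ∀ γ ∈ H, ∀ v ∈ W, (hol γ).linear v ∈ W := by
    intro γ hγ v hv
    have := Submodule.add_mem _ (hW γ hγ v) hv
    rwa [sub_add_cancel] at this
  have hinvlin : ∀ (γ : Γ) (v : E), (hol γ⁻¹).linear ((hol γ).linear v) = v := by
    intro γ v
    have e2 : (hol γ⁻¹).linear = ((hol γ).linear).symm := by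
      have : AffineEquiv.linearHom (hol γ⁻¹) = (AffineEquiv.linearHom (hol γ))⁻¹ := by
        rw [map_inv, map_inv]
      exact this
    rw [e2, LinearEquiv.symm_apply_apply]
  have hinvlin' : ∀ (γ : Γ) (v : E), (hol γ).linear ((hol γ⁻¹).linear v) = v := by
    intro γ v
    have := hinvlin γ⁻¹ v
    rwa [inv_inv] at this
  -- the restriction
  let Bl : H → W →ₗ[ℝ] W := fun γ =>
    ((hol γ).linear : E →ₗ[ℝ] E).restrict (fun v hv => hmem γ γ.2 v hv)
  have hBl : ∀ (γ : H) (v : W), ((Bl γ v : W) : E) = (hol γ).linear (v : E) := fun γ v => rfl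
  have hBmul : ∀ γ δ : H, Bl (γ * δ) = (Bl γ).comp (Bl δ) := by
    intro γ δ
    refine LinearMap.ext fun v => Subtype.ext ?_
    rw [hBl, LinearMap.comp_apply, hBl, hBl, Subgroup.coe_mul, map_mul]
    rfl
  have hBone : Bl 1 = LinearMap.id := by
    refine LinearMap.ext fun v => Subtype.ext ?_
    rw [hBl, Subgroup.coe_one, map_one]
    rfl
  let dt : H →* ℝˣ :=
    { toFun := fun γ => ⟨LinearMap.det (Bl γ), LinearMap.det (Bl γ⁻¹), by
        rw [← LinearMap.det_comp, ← hBmul, mul_inv_cancel, hBone, LinearMap.det_id], by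
        rw [← LinearMap.det_comp, ← hBmul, inv_mul_cancel, hBone, LinearMap.det_id]⟩
      map_one' := by
        refine Units.ext ?_
        show LinearMap.det (Bl 1) = 1
        rw [hBone, LinearMap.det_id]
      map_mul' := by
        intro γ δ
        refine Units.ext ?_
        show LinearMap.det (Bl (γ * δ)) = LinearMap.det (Bl γ) * LinearMap.det (Bl δ)
        rw [hBmul, LinearMap.det_comp] }
  have hdet : ∀ γ : H, |LinearMap.det (Bl γ)| = 1 := by
    intro γ
    have h1 := LinearMap.det_eq_det_mul_det W ((hol γ).linear : E →ₗ[ℝ] E)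
      (fun v hv => hmem γ γ.2 v hv)
    have h2 : W.mapQ W ((hol γ).linear : E →ₗ[ℝ] E) (fun v hv => hmem γ γ.2 v hv) =
        LinearMap.id := by
      refine Submodule.linearMap_qext _ (LinearMap.ext fun v => ?_)
      show Submodule.Quotient.mk ((hol γ).linear v) = Submodule.Quotient.mk v
      rw [Submodule.Quotient.eq]
      exact hW γ γ.2 v
    rw [h2, LinearMap.det_id, mul_one] at h1
    have h3 := D.unimod γ
    rw [h1] at h3
    exact h3
  have hfin : Finite dt.range := by
    have hsub : (dt.range : Set ℝˣ) ⊆ {1, -1} := by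
      rintro _ ⟨γ, rfl⟩
      rcases eq_or_eq_neg_of_abs_eq (hdet γ) with h | h
      · left
        exact Units.ext h
      · right
        exact Units.ext h
    exact ((Set.toFinite {1, -1}).subset hsub).to_subtype
  have hker : dt.ker.FiniteIndex := Subgroup.finiteIndex_ker dt
  let H' : Subgroup Γ := dt.ker.map H.subtype
  have hH' : H'.FiniteIndex := by
    refine ⟨?_⟩
    rw [Subgroup.index_map_subtype]
    exact mul_ne_zero hker.index_ne_zero hH.index_ne_zero
  have hle : H' ≤ H := Subgroup.map_subtype_le _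
  let S : ℕ → Submodule ℝ E := fun i => if i = 0 then W else ⊤
  have hS0 : S 0 = W := rfl
  let b : Module.Basis (Fin 2) ℝ (S 0) := Module.finBasisOfFinrankEq ℝ W hW2
  obtain ⟨K, P, w, hR⟩ := Pool.Agent.N624.RO.t_sl2i
  refine rankC (K := K) (P := P) (w := w) inferInstance hR X Γ E dev hol D hinj H' hH' S 0
    ⟨rfl, ?_, ?_, 1, ?_, ?_⟩ (stdRep b) (stdRep_isRep b) ?_ 1 ?_
  · intro i hi
    have : i = 0 := by omega
    subst this
    exact le_top
  · intro i hi γ hγ v hv
    have : i = 0 := by omega
    subst this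
    exact hmem γ (hle hγ) v hv
  · intro i hi
    omega
  · intro γ hγ
    refine ⟨1, one_pos, fun v => ⟨⟨(hol γ).linear v - v, hW γ (hle hγ) v, ?_⟩,
      (hol γ⁻¹).linear v - v, hW γ⁻¹ (hle (inv_mem hγ)) v, ?_⟩⟩
    · rw [sub_sub_cancel]
      simp
    · rw [sub_sub_cancel]
      simp
  · rintro _ ⟨γ, hγ, rfl⟩
    have hd : LinearMap.det (Bl γ) = 1 := congrArg Units.val hγ
    have hm : (LinearMap.toMatrix b b (Bl γ)).det = 1 := by
      rw [LinearMap.det_toMatrix, hd]
    refine ⟨⟨LinearMap.toMatrix b b (Bl γ), hm⟩, fun v => ?_⟩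
    have h1 : stdRep b ⟨LinearMap.toMatrix b b (Bl γ), hm⟩ v = Bl γ v := by
      rw [stdRep_apply]
      show ∑ i, ((LinearMap.toMatrix b b (Bl γ)).mulVec (b.repr v)) i • b i = _
      rw [LinearMap.toMatrix_mulVec_repr]
      exact b.sum_repr _
    rw [h1]
    rfl
  · -- translations commute modulo `W`
    have hmod : ∀ γ ∈ H, ∀ v : E, W.mkQ (hol γ v) = W.mkQ v + W.mkQ (hol γ 0) := by
      intro γ hγ v
      rw [lin_zero (hol γ) v, map_add]
      congr 1
      rw [← sub_eq_zero, ← map_sub]
      show W.mkQ _ = 0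
      rw [Submodule.mkQ_apply, Submodule.Quotient.mk_eq_zero]
      exact hW γ hγ v
    let τ : H' →* Multiplicative (E ⧸ W) :=
      { toFun := fun γ => Multiplicative.ofAdd (W.mkQ (hol (γ : Γ) 0))
        map_one' := by
          rw [Subgroup.coe_one, map_one]
          show Multiplicative.ofAdd (W.mkQ 0) = 1
          rw [map_zero]
          rfl
        map_mul' := by
          intro γ δ
          have h1 : hol ((γ * δ : H') : Γ) 0 = hol (γ : Γ) (hol (δ : Γ) 0) := by
            rw [Subgroup.coe_mul, map_mul]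
            rfl
          rw [h1, hmod _ (hle γ.2), add_comm]
          rfl }
    intro γ hγ v
    have h1 : γ ∈ τ.ker := by
      have h2 : derivedSeries H' 1 ≤ τ.ker := by
        rw [derivedSeries_one]
        exact Abelianization.commutator_subset_ker τ
      exact h2 hγ
    have h3 : W.mkQ (hol (γ : Γ) 0) = 0 := by
      have : τ γ = 1 := h1
      exact Multiplicative.ofAdd.injective this
    have h4 := hmod _ (hle γ.2) v
    rw [h3, add_zero, ← sub_eq_zero, ← map_sub, Submodule.mkQ_apply,
      Submodule.Quotient.mk_eq_zero] at h4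
    exact h4

end Pool.Agent.N520.RO
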