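import Pool.Agent.N520.RO.Def
import Pool.Agent.R522.Mk.Rk1

/-!
Project RO, second part: rank one action on an invariant subspace.  Exact statements of the parts.
-/

set_option autoImplicit false

open Set Filter Topology Metric
open Pool.Agent.W689.Mk Pool.Agent.R522.Mk.Rk

namespace Pool.Agent.N520.RO

/-- boundary points of the slices parallel to `W` carry plates -/
def S_SLICE : Prop := ∀ (E F Γ : Type) [NormedAddCommGroup E] [NormedSpace ℝ E]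
    [FiniteDimensional ℝ E] [NormedAddCommGroup F] [NormedSpace ℝ F] [FiniteDimensional ℝ F]
    [Group Γ] (hol : Γ →* (E ≃ᵃ[ℝ] E)) (W : Submodule ℝ E) (B : Γ → W ≃ₗ[ℝ] W),
  (∀ γ (v : W), (hol γ).linear (v : E) = (B γ v : E)) → ∀ P : Set (F →L[ℝ] W), IsCompact P →
  ∀ Ω : Set E, IsOpen Ω → (∀ (γ : Γ), ∀ q ∈ Ω, hol γ q ∈ Ω) →
  (∀ C : Set E, IsCompact C → C ⊆ Ω → {γ : Γ | ∃ c ∈ C, hol γ c ∈ C}.Finite) →
  ∀ C0 : Set E, IsCompact C0 → C0 ⊆ Ω → (∀ q ∈ Ω, ∃ γ : Γ, ∃ c ∈ C0, hol γ c = q) →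
  ∀ δ : ℝ, 0 < δ → (∀ γ : Γ, ∃ k ∈ P, ∀ f, δ * ‖(B γ).symm (k f)‖ ≤ ‖k f‖) →
  ∃ r > 0, ∀ (x : E) (p : W), p ∈ closure {v : W | x + v ∈ Ω} → x + p ∉ Ω →
    ∃ k, Good P {v : W | x + v ∈ Ω} r p k

/-- a set with boundary plates is everything or invariant in the directions of one plate -/
def S_DICH : Prop := ∀ (V F : Type) [NormedAddCommGroup V] [NormedSpace ℝ V]
    [FiniteDimensional ℝ V] [NormedAddCommGroup F] [NormedSpace ℝ F] [FiniteDimensional ℝ F]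
    (P : Set (F →L[ℝ] V)), Fam P → ∀ (Ω : Set V) (r : ℝ), IsOpen Ω → Ω.Nonempty → 0 < r →
  (∀ p ∈ closure Ω, p ∉ Ω → ∃ k, Good P Ω r p k) →
  Ω = univ ∨ ∃ k ∈ P, ∀ y ∈ Ω, ∀ f, y + k f ∈ Ω

end Pool.Agent.N520.RO
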