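import Pool.Agent.N520.RO.Asm
import Pool.Agent.N520.RO.Stm4a
import Pool.Agent.N520.RO.Stm4b
import Pool.Agent.TH569.MK.ExpChain

/-!
Project RO, second part: rank one action on an invariant subspace.
-/

set_option autoImplicit false

open Set Filter Topology Metric
open Pool.Agent.W689.Mk Pool.Agent.TH94.MK Pool.Agent.R522.Mk.Rk Pool.Agent.TH569.MK

namespace Pool.Agent.N520.RO

/-- The linear holonomy of `H` preserves the flag `S 0 ⊆ S 1 ⊆ … ⊆ S m ⊆ S (m + 1) = E`, is bounded on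
`S (i + 1) / S i` for `i < m`, and uniformly quasi-conformal on the last quotient `E / S m`. -/
def OverFlag {Γ E : Type} [Group Γ] [NormedAddCommGroup E] [NormedSpace ℝ E]
    (hol : Γ →* (E ≃ᵃ[ℝ] E)) (H : Subgroup Γ) (S : ℕ → Submodule ℝ E) (m : ℕ) : Prop :=
  S (m + 1) = ⊤ ∧ (∀ i ≤ m, S i ≤ S (i + 1)) ∧
    (∀ i ≤ m, ∀ γ ∈ H, ∀ v ∈ S i, (hol γ).linear v ∈ S i) ∧
    ∃ C : ℝ, (∀ i < m, ∀ γ ∈ H, ∀ v ∈ S (i + 1), ∃ w ∈ S i, ‖(hol γ).linear v - w‖ ≤ C * ‖v‖) ∧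
      ∀ γ ∈ H, ∃ c : ℝ, 0 < c ∧ ∀ v : E, (∃ w ∈ S m, ‖(hol γ).linear v - w‖ ≤ C * c * ‖v‖) ∧
        ∃ w ∈ S m, ‖(hol γ⁻¹).linear v - w‖ ≤ C * c⁻¹ * ‖v‖

theorem over_complete (X Γ E : Type) [NormedAddCommGroup E] [NormedSpace ℝ E]
    [FiniteDimensional ℝ E] [TopologicalSpace X] [T2Space X] [SecondCountableTopology X]
    [ConnectedSpace X] [Group Γ] [MulAction Γ X] (dev : X → E) (hol : Γ →* (E ≃ᵃ[ℝ] E))
    (D : AffData X Γ E dev hol) (S : ℕ → Submodule ℝ E) (m : ℕ)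
    (h : OverFlag hol ⊤ S m) (hgeo : ∀ (x : X), ∀ v ∈ S 0, Geod dev x v) : IsHomeomorph dev := by
  obtain ⟨h1, hle, hinv, C, hb, hq⟩ := h
  let Q := EuclideanSpace ℝ (Fin (Module.finrank ℝ (E ⧸ S m)))
  have hclosed : IsClosed (S m : Set E) := (S m).closed_of_finiteDimensional
  let te : (E ⧸ S m) ≃L[ℝ] Q := toEuclidean
  let mk : E →L[ℝ] (E ⧸ S m) := LinearMap.toContinuousLinearMap (S m).mkQ
  let π : E →L[ℝ] Q := (te : (E ⧸ S m) →L[ℝ] Q).comp mk
  have hmk : ∀ v, mk v = 0 ↔ v ∈ S m := fun v => Submodule.Quotient.mk_eq_zero _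
  have hπs : Function.Surjective π := by
    intro q
    obtain ⟨v, hv⟩ := Submodule.mkQ_surjective (S m) (te.symm q)
    refine ⟨v, ?_⟩
    show te ((S m).mkQ v) = q
    rw [hv, te.apply_symm_apply]
  have hker : ∀ v, π v = 0 → v ∈ S m := by
    intro v hv
    have : te (mk v) = 0 := hv
    rw [te.map_eq_zero_iff] at this
    exact (hmk v).mp this
  have hπ0 : ∀ v ∈ S m, π v = 0 := by
    intro v hv
    show te (mk v) = 0
    rw [(hmk v).mpr hv, map_zero]
  obtain ⟨M, hM, hsec⟩ : ∃ M : ℝ, 0 < M ∧ ∀ q : Q, ∃ v : E, π v = q ∧ ‖v‖ ≤ M * ‖q‖ := by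
    obtain ⟨M, hM, h⟩ := π.exists_preimage_norm_le hπs
    exact ⟨M, hM, h⟩
  let sec : Q → E := fun q => (hsec q).choose
  have hs1 : ∀ q, π (sec q) = q := fun q => (hsec q).choose_spec.1
  have hs2 : ∀ q, ‖sec q‖ ≤ M * ‖q‖ := fun q => (hsec q).choose_spec.2
  have hwd : ∀ (γ : Γ) (v v' : E), π v = π v' → π ((hol γ).linear v) = π ((hol γ).linear v') := by
    intro γ v v' hvv
    have h2 : v - v' ∈ S m := hker _ (by rw [map_sub, hvv, sub_self])
    have h3 := hinv m le_rfl γ (Subgroup.mem_top γ) _ h2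
    have h4 := hπ0 _ h3
    rw [map_sub, map_sub, sub_eq_zero] at h4
    exact h4
  let ρl : Γ → Q →ₗ[ℝ] Q := fun γ =>
    { toFun := fun q => π ((hol γ).linear (sec q))
      map_add' := by
        intro q q'
        rw [hwd γ (sec (q + q')) (sec q + sec q') (by rw [map_add, hs1, hs1, hs1]), map_add,
          map_add]
      map_smul' := by
        intro c q
        rw [hwd γ (sec (c • q)) (c • sec q) (by rw [map_smul, hs1, hs1]), map_smul, map_smul]
        rfl }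
  let ρ : Γ → Q →L[ℝ] Q := fun γ => LinearMap.toContinuousLinearMap (ρl γ)
  have hρ' : ∀ γ q, ρ γ q = π ((hol γ).linear (sec q)) := fun γ q => rfl
  have hρ : ∀ γ v, π ((hol γ).linear v) = ρ γ (π v) := by
    intro γ v
    rw [hρ']
    exact hwd γ _ _ (by rw [hs1])
  have hnorm : ∀ (γ : Γ) (b : ℝ), (∀ v : E, ∃ w ∈ S m, ‖(hol γ).linear v - w‖ ≤ C * b * ‖v‖) →
      0 < b → ‖ρ γ‖ ≤ (‖π‖ * |C| * M) * b := by
    intro γ b hv hb0
    refine ContinuousLinearMap.opNorm_le_bound _ (by positivity) fun q => ?_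
    obtain ⟨w, hw, hle'⟩ := hv (sec q)
    have e1 : ρ γ q = π ((hol γ).linear (sec q) - w) := by
      rw [hρ', map_sub, hπ0 w hw, sub_zero]
    rw [e1]
    calc _ ≤ ‖π‖ * ‖(hol γ).linear (sec q) - w‖ := π.le_opNorm _
      _ ≤ ‖π‖ * (C * b * ‖sec q‖) := by gcongr
      _ ≤ ‖π‖ * (|C| * b * (M * ‖q‖)) := by
          gcongr
          · exact le_abs_self C
          · exact hs2 q
      _ = _ := by ring
  refine exp_chain_complete D S m hgeo ?_ π hπs hker ρ hρ ?_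
  · intro i hi
    exact ⟨C, fun γ v hv => hb i hi γ (Subgroup.mem_top γ) v hv⟩
  · intro ε hε
    set A : ℝ := ‖π‖ * |C| * M + 1 with hA
    have hA0 : 0 < A := by positivity
    refine ⟨A * (A / ε), fun γ hγ => ?_⟩
    obtain ⟨c, hc, h'⟩ := hq γ (Subgroup.mem_top γ)
    have h2 : ‖ρ γ‖ ≤ A * c := (hnorm γ c (fun v => (h' v).1) hc).trans (by
      gcongr
      linarith)
    have h3 : ‖ρ γ⁻¹‖ ≤ A * c⁻¹ :=
      (hnorm γ⁻¹ c⁻¹ (fun v => (h' v).2) (by positivity)).trans (by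
        gcongr
        linarith)
    have h4 : A / ε ≤ c := le_of_mul_le_mul_left (hγ.trans h2) hA0
    refine h3.trans ?_
    rw [mul_inv_le_iff₀ hc, mul_comm]
    rwa [div_le_iff₀ hε] at h4

theorem geod_of_range {X E : Type} [NormedAddCommGroup E] [NormedSpace ℝ E]
    [FiniteDimensional ℝ E] [TopologicalSpace X] [T2Space X] {dev : X → E}
    (hloc : IsLocalHomeomorph dev) (hinj : Function.Injective dev) (x : X) (v : E)
    (h : ∀ t : ℝ, dev x + t • v ∈ range dev) : Geod dev x v := by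
  by_contra hg
  obtain ⟨t, -, -, h1, -⟩ := exit_point hloc hinj hg
  exact h1 (h t)

theorem complete_of_solv (X Γ E : Type) [NormedAddCommGroup E] [NormedSpace ℝ E]
    [FiniteDimensional ℝ E] [TopologicalSpace X] [T2Space X] [SecondCountableTopology X]
    [Nonempty X] [Group Γ] [MulAction Γ X] (dev : X → E) (hol : Γ →* (E ≃ᵃ[ℝ] E))
    (D : AffData X Γ E dev hol) (hinj : Function.Injective dev) (A : Subgroup Γ)
    (hA : A.FiniteIndex) (hsol : Group.IsSolvable (A.map (affU.comp hol))) :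
    IsHomeomorph dev := by
  let K : Subgroup (E ≃ᵃ[ℝ] E) := A.map hol
  have hK : Group.IsSolvable K := by
    have h8 : ∀ k : K, affU (k : E ≃ᵃ[ℝ] E) ∈ A.map (affU.comp hol) := by
      rintro ⟨_, a, ha, rfl⟩
      exact ⟨a, ha, rfl⟩
    have h9 : Function.Injective ((affU.comp K.subtype).codRestrict (A.map (affU.comp hol)) h8) := by
      intro a b hab
      exact Subtype.ext (affU_injective (congrArg Subtype.val hab))
    exact Group.isSolvable_of_isSolvable_injective h9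
  refine Pool.Agent.Y449.MS.Wrap.main Pool.Agent.Y449.MS.All.finv X Γ E dev hol D hinj A hA ?_
  have h8 : ∀ k : K, AffineEquiv.linearHom (k : E ≃ᵃ[ℝ] E) ∈
      A.map (AffineEquiv.linearHom.comp hol) := by
    rintro ⟨_, a, ha, rfl⟩
    exact ⟨a, ha, rfl⟩
  have h9 : Function.Surjective ((AffineEquiv.linearHom.comp K.subtype).codRestrict
      (A.map (AffineEquiv.linearHom.comp hol)) h8) := by
    rintro ⟨_, a, ha, rfl⟩
    exact ⟨⟨hol a, a, ha, rfl⟩, rfl⟩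
  exact Group.isSolvable_of_surjective h9

section flags
variable {V : Type} [NormedAddCommGroup V] [NormedSpace ℝ V]

theorem flag_mem {m : ℕ} {S : ℕ → Submodule ℝ V} {π : Fin m → V →L[ℝ] V} (hS : Sys m π)
    (hπ : ∀ i ≤ m, ∀ v, v ∈ S i ↔ ∀ j : Fin m, i ≤ (j : ℕ) → π j v = 0) (j : Fin m) (v : V) :
    π j v ∈ S ((j : ℕ) + 1) := by
  rw [hπ _ (by omega)]
  intro k hk
  have : π k * π j = 0 := by
    have hne : k ≠ j := by
      rintro rfl
      omega
    simpa [hne] using hS.orth k j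
  exact DFunLike.congr_fun this v

theorem upper_of_flag {Λ : Type} [Group Λ] (θ : Λ →* (V →L[ℝ] V)ˣ) {m : ℕ}
    {S : ℕ → Submodule ℝ V} {π : Fin m → V →L[ℝ] V} (hS : Sys m π)
    (hπ : ∀ i ≤ m, ∀ v, v ∈ S i ↔ ∀ j : Fin m, i ≤ (j : ℕ) → π j v = 0)
    (hinv : ∀ i ≤ m, ∀ (l : Λ), ∀ v ∈ S i, (θ l : V →L[ℝ] V) v ∈ S i) : Upper π θ := by
  intro l i j hji
  refine ContinuousLinearMap.ext fun v => ?_
  show π i ((θ l : V →L[ℝ] V) (π j v)) = 0
  exact (hπ _ (by omega) _).mp (hinv _ (by omega) l _ (flag_mem hS hπ j v)) i (by omega)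

theorem block_bound {m : ℕ} {S : ℕ → Submodule ℝ V} {π : Fin m → V →L[ℝ] V} (hS : Sys m π)
    (hπ : ∀ i ≤ m, ∀ v, v ∈ S i ↔ ∀ j : Fin m, i ≤ (j : ℕ) → π j v = 0) (i : Fin m)
    (A : V →L[ℝ] V) (b : ℝ) (hb : 0 ≤ b)
    (hA : ∀ v ∈ S ((i : ℕ) + 1), ∃ w ∈ S i, ‖A v - w‖ ≤ b * ‖v‖) :
    ‖π i * A * π i‖ ≤ ‖π i‖ * b * ‖π i‖ := by
  refine ContinuousLinearMap.opNorm_le_bound _ (by positivity) fun v => ?_
  obtain ⟨w, hw, hle⟩ := hA _ (flag_mem hS hπ i v)
  have hkill : π i w = 0 := (hπ i (by omega) w).mp hw i le_rfl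
  have e1 : (π i * A * π i) v = π i (A (π i v) - w) := by
    rw [map_sub, hkill, sub_zero]
    rfl
  rw [e1]
  calc ‖π i (A (π i v) - w)‖ ≤ ‖π i‖ * ‖A (π i v) - w‖ := (π i).le_opNorm _
    _ ≤ ‖π i‖ * (b * ‖π i v‖) := by gcongr
    _ ≤ ‖π i‖ * (b * (‖π i‖ * ‖v‖)) := by
        gcongr
        exact (π i).le_opNorm _
    _ = _ := by ring

end flags

/-- the case of a derived subgroup which is trivial on the quotient and bounded on `W` -/
theorem complete_of_derived (hvs2 : S_VS2) (X Γ E : Type) [NormedAddCommGroup E] [NormedSpace ℝ E]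
    [FiniteDimensional ℝ E] [TopologicalSpace X] [T2Space X] [SecondCountableTopology X]
    [Nonempty X] [Group Γ] [MulAction Γ X] (dev : X → E) (hol : Γ →* (E ≃ᵃ[ℝ] E))
    (D : AffData X Γ E dev hol) (hinj : Function.Injective dev) (W : Submodule ℝ E)
    (hW : ∀ γ, ∀ v ∈ W, (hol γ).linear v ∈ W) (j : ℕ) (C : ℝ)
    (h1 : ∀ γ ∈ derivedSeries Γ j, ∀ v : E, (hol γ).linear v - v ∈ W)
    (h2 : ∀ γ ∈ derivedSeries Γ j, ∀ v ∈ W, ‖(hol γ).linear v‖ ≤ C * ‖v‖) :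
    IsHomeomorph dev := by
  let S : ℕ → Submodule ℝ (E × ℝ) := fun i =>
    if i = 0 then ⊥ else if i = 1 then W.prod ⊥ else if i = 2 then (⊤ : Submodule ℝ E).prod ⊥ else ⊤
  have hS0 : S 0 = ⊥ := rfl
  have hS1 : S 1 = W.prod ⊥ := rfl
  have hS2 : S 2 = (⊤ : Submodule ℝ E).prod ⊥ := rfl
  have hS3 : S 3 = ⊤ := rfl
  obtain ⟨π, hsys, hπ⟩ := Pool.Agent.N539.RO.t_spl (E × ℝ) 3 S hS0 hS3 (by
    intro i hi
    interval_cases i
    · rw [hS0]; exact bot_le
    · rw [hS1, hS2]; exact Submodule.prod_mono le_top le_rfl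
    · rw [hS3]; exact le_top)
  let θ : Γ →* ((E × ℝ) →L[ℝ] (E × ℝ))ˣ := affU.comp hol
  have hθ : ∀ (l : Γ) (p : E × ℝ), (θ l : (E × ℝ) →L[ℝ] (E × ℝ)) p =
      ((hol l).linear p.1 + p.2 • hol l 0, p.2) := fun l p => rfl
  have hdisc : Disc θ := by
    obtain ⟨ε, hε, h⟩ := Pool.Agent.N713.RO.t_disc X Γ E dev hol D hinj
    refine ⟨ε, hε, fun l hl => ?_⟩
    have : hol l = 1 := h l hl
    show affU (hol l) = 1
    rw [this, map_one]
  have hinv : ∀ i ≤ 3, ∀ (l : Γ), ∀ v ∈ S i, (θ l : (E × ℝ) →L[ℝ] (E × ℝ)) v ∈ S i := by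
    intro i hi l v hv
    interval_cases i
    · rw [hS0, Submodule.mem_bot] at hv
      rw [hv, map_zero]
      exact Submodule.zero_mem _
    · rw [hS1, Submodule.mem_prod, Submodule.mem_bot] at hv ⊢
      rw [hθ, hv.2, zero_smul, add_zero]
      exact ⟨hW l _ hv.1, rfl⟩
    · rw [hS2, Submodule.mem_prod, Submodule.mem_bot] at hv ⊢
      rw [hθ, hv.2]
      exact ⟨trivial, rfl⟩
    · rw [hS3]
      trivial
  have hU : Upper π θ := upper_of_flag θ hsys hπ hinv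
  obtain ⟨A, hA, hsol⟩ := hvs2 (E × ℝ) Γ θ 3 π hdisc hsys hU (by
    refine ⟨j, ∑ i, ‖π i‖ * max C 1 * ‖π i‖, fun l hl i => ?_⟩
    have hle : ‖π i * (θ l : (E × ℝ) →L[ℝ] (E × ℝ)) * π i‖ ≤ ‖π i‖ * max C 1 * ‖π i‖ := by
      refine block_bound hsys hπ i _ (max C 1) (le_max_of_le_right zero_le_one) ?_
      intro v hv
      have hn : ‖v.1‖ ≤ ‖v‖ := norm_fst_le v
      have hn2 : ‖v.2‖ ≤ ‖v‖ := norm_snd_le v
      fin_cases i
      · have hv' : v ∈ S 1 := hv
        rw [hS1, Submodule.mem_prod, Submodule.mem_bot] at hv'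
        refine ⟨0, Submodule.zero_mem _, ?_⟩
        rw [sub_zero, hθ, hv'.2, zero_smul, add_zero, Prod.norm_mk, norm_zero,
          max_eq_left (norm_nonneg _)]
        calc _ ≤ C * ‖v.1‖ := h2 l hl _ hv'.1
          _ ≤ max C 1 * ‖v‖ := by
              gcongr
              exact le_max_left _ _
      · have hv' : v ∈ S 2 := hv
        rw [hS2, Submodule.mem_prod, Submodule.mem_bot] at hv'
        refine ⟨((hol l).linear v.1 - v.1, 0), ?_, ?_⟩
        · show _ ∈ S 1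
          rw [hS1, Submodule.mem_prod, Submodule.mem_bot]
          exact ⟨h1 l hl _, rfl⟩
        · rw [hθ, hv'.2, zero_smul, add_zero, Prod.mk_sub_mk, sub_sub_cancel, sub_zero,
            Prod.norm_mk, norm_zero, max_eq_left (norm_nonneg _)]
          calc ‖v.1‖ ≤ 1 * ‖v‖ := by rw [one_mul]; exact hn
            _ ≤ _ := by
                gcongr
                exact le_max_right _ _
      · refine ⟨((hol l).linear v.1 + v.2 • hol l 0, 0), ?_, ?_⟩
        · show _ ∈ S 2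
          rw [hS2, Submodule.mem_prod, Submodule.mem_bot]
          exact ⟨trivial, rfl⟩
        · rw [hθ, Prod.mk_sub_mk, sub_self, sub_zero, Prod.norm_mk, norm_zero,
            max_eq_right (norm_nonneg _)]
          calc ‖v.2‖ ≤ 1 * ‖v‖ := by rw [one_mul]; exact hn2
            _ ≤ _ := by
                gcongr
                exact le_max_right _ _
    exact hle.trans (Finset.single_le_sum (f := fun i => ‖π i‖ * max C 1 * ‖π i‖)
      (fun j _ => by positivity) (Finset.mem_univ i)))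
  exact complete_of_solv X Γ E dev hol D hinj A hA hsol

end Pool.Agent.N520.RO
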