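import Pool.Agent.N520.RO.RankC

/-!
Project RO, second part: rank one action on an invariant subspace, main theorem.
-/

set_option autoImplicit false

open Set Filter Topology Metric
open Pool.Agent.W689.Mk Pool.Agent.TH94.MK Pool.Agent.R522.Mk.Rk Pool.Agent.TH569.MK

namespace Pool.Agent.N520.RO

section plates
variable {G : Type} [Group G] [TopologicalSpace G] {K : Set G} {P : Subgroup G} {T : ℝ → G} {w : G}
variable {E : Type} [NormedAddCommGroup E] [NormedSpace ℝ E] [FiniteDimensional ℝ E]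
  (ρ : G →* (E ≃ₗ[ℝ] E))

theorem range_top_of (k : G) (h : ∀ e : E, e ∈ range (plateT T ρ k)) : upT T ρ = ⊤ := by
  refine Submodule.eq_top_iff'.mpr fun e => ?_
  obtain ⟨f, hf⟩ := h (ρ k e)
  rw [plateT_apply] at hf
  have : (f : E) = e := (ρ k).injective hf
  rw [← this]
  exact f.2

theorem same_iff (hG : IsTopologicalGroup G) (hR : RankOne K P T w) (hr : IsRep T ρ)
    (hne : upT T ρ ≠ ⊤) (k l : G) :
    range (plateT T ρ k) = range (plateT T ρ l) ↔ k⁻¹ * l ∈ P := by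
  constructor
  · intro h
    by_contra hc
    have ht := transT1 ρ hG hR hr hc
    apply hne
    refine range_top_of ρ k fun e => ?_
    obtain ⟨f, f', hf⟩ := ht e
    have h1 : plateT T ρ l f' ∈ range (plateT T ρ k) := by
      rw [h]; exact mem_range_self _
    obtain ⟨f2, hf2⟩ := h1
    refine ⟨f - f2, ?_⟩
    rw [map_sub, hf2, hf]
  · intro h
    have h1 : l = k * (k⁻¹ * l) := by group
    rw [h1, rangeT_mul_upper ρ hR hr k h]

/-- the flag of the plate of `k` -/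
theorem conj_flag (h4 : S_WFLAG) (hG : IsTopologicalGroup G) (hR : RankOne K P T w)
    (hr : IsRep T ρ) (k : G) : ∃ (m : ℕ) (S : ℕ → Submodule ℝ E) (C : ℝ), S 0 = ⊥ ∧ S m = ⊤ ∧
      (∀ i < m, S i ≤ S (i + 1)) ∧ ∀ g : G, k⁻¹ * g * k ∈ P →
      (∀ i ≤ m, ∀ v ∈ S i, ρ g v ∈ S i) ∧ ∀ i < m, ∃ c : ℝ, 0 < c ∧ ∀ v ∈ S (i + 1),
        (∃ u ∈ S i, ‖ρ g v - u‖ ≤ C * c * ‖v‖) ∧ ∃ u ∈ S i, ‖ρ g⁻¹ v - u‖ ≤ C * c⁻¹ * ‖v‖ := by
  obtain ⟨m, S, C, hS0, hSm, hSle, hSinv, hC⟩ := h4 G K P T w hR E ρ hr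
  let S' : ℕ → Submodule ℝ E := fun i => (S i).map (ρ k : E →ₗ[ℝ] E)
  have hmem : ∀ i v, v ∈ S' i ↔ ρ k⁻¹ v ∈ S i := by
    intro i v
    constructor
    · rintro ⟨u, hu, rfl⟩
      show ρ k⁻¹ (ρ k u) ∈ S i
      rw [rinv_apply]
      exact hu
    · intro hv
      exact ⟨ρ k⁻¹ v, hv, rapply_inv ρ k v⟩
  refine ⟨m, S', ‖RR ρ k‖ * |C| * ‖RR ρ k⁻¹‖, ?_, ?_, ?_, ?_⟩
  · show (S 0).map _ = ⊥
    rw [hS0, Submodule.map_bot]
  · show (S m).map _ = ⊤
    rw [hSm, Submodule.map_top, LinearEquiv.range]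
  · intro i hi
    exact Submodule.map_mono (hSle i hi)
  · intro g hg
    have hlin : ∀ v : E, ρ k⁻¹ (ρ g v) = ρ (k⁻¹ * g * k) (ρ k⁻¹ v) := by
      intro v
      rw [← rmul, ← rmul]
      congr 2
      group
    have hlin' : ∀ v : E, ρ k⁻¹ (ρ g⁻¹ v) = ρ (k⁻¹ * g * k)⁻¹ (ρ k⁻¹ v) := by
      intro v
      rw [← rmul, ← rmul]
      congr 2
      group
    have htr : ∀ (i : ℕ) (A : E ≃ₗ[ℝ] E) (B : G) (b : ℝ), 0 < b →
        (∀ v, ρ k⁻¹ (A v) = ρ B (ρ k⁻¹ v)) →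
        (∀ v ∈ S (i + 1), ∃ u ∈ S i, ‖ρ B v - u‖ ≤ C * b * ‖v‖) →
        ∀ v ∈ S' (i + 1), ∃ u ∈ S' i, ‖A v - u‖ ≤ (‖RR ρ k‖ * |C| * ‖RR ρ k⁻¹‖) * b * ‖v‖ := by
      intro i A B b hb hA h v hv
      obtain ⟨u, hu, hle⟩ := h _ ((hmem _ v).mp hv)
      refine ⟨ρ k u, ⟨u, hu, rfl⟩, ?_⟩
      have e1 : A v - ρ k u = ρ k (ρ B (ρ k⁻¹ v) - u) := by
        rw [map_sub, ← hA, rapply_inv]
      rw [e1]
      calc _ ≤ ‖RR ρ k‖ * ‖ρ B (ρ k⁻¹ v) - u‖ := RR_le ρ _ _
        _ ≤ ‖RR ρ k‖ * (C * b * ‖ρ k⁻¹ v‖) := by gcongr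
        _ ≤ ‖RR ρ k‖ * (|C| * b * (‖RR ρ k⁻¹‖ * ‖v‖)) := by
            gcongr
            · exact le_abs_self C
            · exact RR_le ρ _ _
        _ = _ := by ring
    constructor
    · intro i hi v hv
      rw [hmem] at hv ⊢
      rw [hlin]
      exact hSinv i hi _ hg _ hv
    · intro i hi
      obtain ⟨c, hc, h⟩ := hC i hi _ hg
      refine ⟨c, hc, fun v hv => ⟨?_, ?_⟩⟩
      · exact htr i _ _ c hc hlin (fun v hv => (h v hv).1) v hv
      · exact htr i _ _ c⁻¹ (by positivity) hlin' (fun v hv => (h v hv).2) v hv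

end plates

/-- the case of a fixed plate of a subgroup of finite index -/
theorem fixed_case {G : Type} [Group G] [TopologicalSpace G] {K : Set G} {P : Subgroup G}
    {T : ℝ → G} {w : G} (hG : IsTopologicalGroup G) (hR : RankOne K P T w)
    (X Γ E : Type) [NormedAddCommGroup E] [NormedSpace ℝ E]
    [FiniteDimensional ℝ E] [TopologicalSpace X] [T2Space X] [SecondCountableTopology X]
    [Nonempty X] [Group Γ] [MulAction Γ X] (dev : X → E) (hol : Γ →* (E ≃ᵃ[ℝ] E))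
    (D : AffData X Γ E dev hol) (hinj : Function.Injective dev) (S : ℕ → Submodule ℝ E) (m : ℕ)
    (hO : OverFlag hol ⊤ S m) (ρ : G →* (S 0 ≃ₗ[ℝ] S 0)) (hr : IsRep T ρ) (g : Γ → G)
    (hg : ∀ (γ : Γ) (v : S 0), (hol γ).linear (v : E) = (ρ (g γ) v : E))
    (k : G) (H : Subgroup Γ) (hH : H.FiniteIndex) (hk : ∀ γ ∈ H, k⁻¹ * g γ * k ∈ P) :
    IsHomeomorph dev := by
  obtain ⟨n, S', C', h0, hn, hle', hfl⟩ := conj_flag ρ Pool.Agent.N278.RO.t_wflag hG hR hr k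
  obtain ⟨hm1, hle, hinv, C, hb, hq⟩ := hO
  let St : ℕ → Submodule ℝ E := fun i =>
    if i ≤ n then (S' i).map (S 0).subtype else S (i - n)
  have hlo : ∀ i, i ≤ n → St i = (S' i).map (S 0).subtype := fun i hi => if_pos hi
  have hhi : ∀ i, n ≤ i → St i = S (i - n) := by
    intro i hi
    rcases hi.eq_or_lt with h | h
    · rw [← h, hlo n le_rfl, hn, Nat.sub_self, Submodule.map_top, Submodule.range_subtype]
    · exact if_neg (by omega)
  have hginv : ∀ (γ : Γ) (v : S 0), (hol γ⁻¹).linear (v : E) = (ρ (g γ)⁻¹ v : E) := by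
    intro γ v
    have e1 : (v : E) = (hol γ).linear ((ρ (g γ)⁻¹ v : S 0) : E) := by
      rw [hg, rapply_inv]
    conv_lhs => rw [e1]
    have e2 : (hol γ⁻¹).linear = ((hol γ).linear).symm := by
      have : AffineEquiv.linearHom (hol γ⁻¹) = (AffineEquiv.linearHom (hol γ))⁻¹ := by
        rw [map_inv, map_inv]
      exact this
    rw [e2, LinearEquiv.symm_apply_apply]
  refine (quasi X Γ E dev hol D hinj H hH St (n + (m + 1)) ⟨?_, ?_, ?_, ?_, max C (max C' 0), ?_⟩).1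
  · rw [hlo 0 (Nat.zero_le _), h0, Submodule.map_bot]
  · rw [hhi _ (by omega), Nat.add_sub_cancel_left, hm1]
  · intro i hi
    rcases Nat.lt_or_ge i n with h | h
    · rw [hlo i h.le, hlo (i + 1) h]
      exact Submodule.map_mono (hle' i h)
    · rw [hhi i h, hhi (i + 1) (by omega), show i + 1 - n = i - n + 1 by omega]
      exact hle _ (by omega)
  · intro i hi γ hγ v hv
    rcases Nat.lt_or_ge i n with h | h
    · rw [hlo i h.le] at hv ⊢
      obtain ⟨u, hu, rfl⟩ := hv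
      refine ⟨ρ (g γ) u, (hfl _ (hk γ hγ)).1 i h.le u hu, ?_⟩
      exact (hg γ u).symm
    · rw [hhi i h] at hv ⊢
      rcases Nat.lt_or_ge (i - n) (m + 1) with h' | h'
      · exact hinv _ (by omega) γ (Subgroup.mem_top γ) v hv
      · rw [show i - n = m + 1 by omega, hm1]
        trivial
  · intro i hi γ hγ
    rcases Nat.lt_or_ge i n with h | h
    · obtain ⟨c, hc, h'⟩ := (hfl _ (hk γ hγ)).2 i h
      refine ⟨c, hc, fun v hv => ?_⟩
      rw [hlo (i + 1) h] at hv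
      obtain ⟨u, hu, rfl⟩ := hv
      rw [hlo i h.le]
      obtain ⟨⟨a, ha, ha'⟩, b, hb', hb''⟩ := h' u hu
      have hC' : C' ≤ max C (max C' 0) := (le_max_left _ _).trans (le_max_right _ _)
      refine ⟨⟨a, ⟨a, ha, rfl⟩, ?_⟩, b, ⟨b, hb', rfl⟩, ?_⟩
      · have e1 : (hol γ).linear ((S 0).subtype u) - (a : E) = ((ρ (g γ) u - a : S 0) : E) := by
          rw [Submodule.coe_sub, ← hg]
          rfl
        rw [e1]
        calc ‖((ρ (g γ) u - a : S 0) : E)‖ = ‖ρ (g γ) u - a‖ := rfl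
          _ ≤ C' * c * ‖u‖ := ha'
          _ ≤ _ := by
              show _ ≤ max C (max C' 0) * c * ‖u‖
              gcongr
      · have e1 : (hol γ⁻¹).linear ((S 0).subtype u) - (b : E) =
            ((ρ (g γ)⁻¹ u - b : S 0) : E) := by
          rw [Submodule.coe_sub, ← hginv]
          rfl
        rw [e1]
        calc ‖((ρ (g γ)⁻¹ u - b : S 0) : E)‖ = ‖ρ (g γ)⁻¹ u - b‖ := rfl
          _ ≤ C' * c⁻¹ * ‖u‖ := hb''
          _ ≤ _ := by
              show _ ≤ max C (max C' 0) * c⁻¹ * ‖u‖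
              gcongr
    · rw [hhi i h, hhi (i + 1) (by omega), show i + 1 - n = i - n + 1 by omega]
      rcases Nat.lt_or_ge (i - n) m with h' | h'
      · refine ⟨1, one_pos, fun v hv => ⟨?_, ?_⟩⟩
        · obtain ⟨u, hu, hu'⟩ := hb _ h' γ (Subgroup.mem_top γ) v hv
          refine ⟨u, hu, hu'.trans ?_⟩
          rw [mul_one]
          gcongr
          exact le_max_left _ _
        · obtain ⟨u, hu, hu'⟩ := hb _ h' γ⁻¹ (Subgroup.mem_top _) v hv
          refine ⟨u, hu, hu'.trans ?_⟩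
          rw [inv_one, mul_one]
          gcongr
          exact le_max_left _ _
      · have him : i - n = m := by omega
        rw [him]
        obtain ⟨c, hc, h2⟩ := hq γ (Subgroup.mem_top γ)
        refine ⟨c, hc, fun v _ => ?_⟩
        obtain ⟨⟨a, ha, ha'⟩, b, hb', hb''⟩ := h2 v
        refine ⟨⟨a, ha, ha'.trans ?_⟩, b, hb', hb''.trans ?_⟩
        · gcongr
          exact le_max_left _ _
        · gcongr
          exact le_max_left _ _

end Pool.Agent.N520.RO
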