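import Pool.Agent.N520.RO.RankD

/-!
Project RO, second part: main theorem.
-/

set_option autoImplicit false

open Set Filter Topology Metric
open Pool.Agent.W689.Mk Pool.Agent.TH94.MK Pool.Agent.R522.Mk.Rk Pool.Agent.TH569.MK

namespace Pool.Agent.N520.RO

section
variable {G : Type} [Group G] [TopologicalSpace G] {K : Set G} {P : Subgroup G} {T : ℝ → G} {w : G}
variable {Γ V : Type} [Group Γ] [NormedAddCommGroup V] [NormedSpace ℝ V] [FiniteDimensional ℝ V]

/-- a group with a normal subgroup which fixes a plate virtually fixes a plate, or the subgroup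
fixes three plates -/
theorem elem_cases (hG : IsTopologicalGroup G) (hR : RankOne K P T w)
    (ρ : G →* (V ≃ₗ[ℝ] V)) (hr : IsRep T ρ) (hne : upT T ρ ≠ ⊤) (B : Γ →* (V ≃ₗ[ℝ] V)) (g : Γ → G)
    (hB : ∀ γ, B γ = ρ (g γ)) (M : Subgroup Γ) [hM : M.Normal] (k0 : G)
    (h0 : ∀ n ∈ M, k0⁻¹ * g n * k0 ∈ P) :
    (∃ (H : Subgroup Γ), H.FiniteIndex ∧ ∀ γ ∈ H, k0⁻¹ * g γ * k0 ∈ P) ∨
    ∃ k1 k2 : G, k0⁻¹ * k1 ∉ P ∧ k1⁻¹ * k2 ∉ P ∧ k0⁻¹ * k2 ∉ P ∧
      (∀ n ∈ M, k1⁻¹ * g n * k1 ∈ P) ∧ ∀ n ∈ M, k2⁻¹ * g n * k2 ∈ P := by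
  have hsame := fun k l => same_iff ρ hG hR hr hne k l
  -- action on sets
  let R : G → Set V := fun k => range (plateT T ρ k)
  have hRm : ∀ a k, R (a * k) = (ρ a : V → V) '' R k := by
    intro a k
    ext u
    rw [mem_rangeT_mul]
    constructor
    · intro h
      exact ⟨_, h, (ρ a).apply_symm_apply u⟩
    · rintro ⟨v, hv, rfl⟩
      rw [LinearEquiv.symm_apply_apply]
      exact hv
  have hfixiff : ∀ (a k : G), k⁻¹ * a * k ∈ P ↔ R (a * k) = R k := by
    intro a k
    rw [eq_comm]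
    show _ ↔ range (plateT T ρ k) = range (plateT T ρ (a * k))
    rw [hsame, mul_assoc]
  let _ : MulAction Γ (Set V) :=
    { smul := fun γ A => (B γ : V → V) '' A
      one_smul := by
        intro A
        show (B 1 : V → V) '' A = A
        rw [map_one]
        exact image_id A
      mul_smul := by
        intro γ δ A
        show (B (γ * δ) : V → V) '' A = (B γ : V → V) '' ((B δ : V → V) '' A)
        rw [map_mul, image_image]
        rfl }
  have hsm : ∀ (γ : Γ) (k : G), γ • R k = R (g γ * k) := by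
    intro γ k
    rw [hRm]
    show (B γ : V → V) '' R k = _
    rw [hB]
  -- the fixed plates are permuted
  have hperm : ∀ (γ : Γ) (k : G), (∀ n ∈ M, k⁻¹ * g n * k ∈ P) →
      ∀ n ∈ M, (g γ * k)⁻¹ * g n * (g γ * k) ∈ P := by
    intro γ k hk n hn
    rw [hfixiff, ← hsm, ← hsm, ← mul_smul]
    have hn' : γ⁻¹ * n * γ ∈ M := by
      have := hM.conj_mem n hn γ⁻¹
      rwa [inv_inv] at this
    have e1 : n * γ = γ * (γ⁻¹ * n * γ) := by group
    rw [e1, mul_smul, hsm (γ⁻¹ * n * γ) k, (hfixiff _ _).mp (hk _ hn')]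
  by_cases hex : ∃ k1 k2 : G, k0⁻¹ * k1 ∉ P ∧ k1⁻¹ * k2 ∉ P ∧ k0⁻¹ * k2 ∉ P ∧
      (∀ n ∈ M, k1⁻¹ * g n * k1 ∈ P) ∧ ∀ n ∈ M, k2⁻¹ * g n * k2 ∈ P
  · exact Or.inr hex
  left
  refine ⟨MulAction.stabilizer Γ (R k0), ?_, ?_⟩
  · -- the orbit has at most two elements
    have hfin : (MulAction.orbit Γ (R k0)).Finite := by
      by_cases h1 : ∃ k1 : G, k0⁻¹ * k1 ∉ P ∧ ∀ n ∈ M, k1⁻¹ * g n * k1 ∈ P
      · obtain ⟨k1, h1, h1'⟩ := h1
        refine ((Set.finite_singleton (R k1)).insert (R k0)).subset ?_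
        rintro _ ⟨γ, rfl⟩
        have h2 := hperm γ k0 h0
        show γ • R k0 ∈ _
        rw [hsm]
        by_contra hc
        rw [mem_insert_iff, mem_singleton_iff, not_or] at hc
        apply hex
        refine ⟨k1, g γ * k0, h1, ?_, ?_, h1', h2⟩
        · intro h3
          exact hc.2 ((hsame k1 (g γ * k0)).mpr h3).symm
        · intro h3
          exact hc.1 ((hsame k0 (g γ * k0)).mpr h3).symm
      · refine (Set.finite_singleton (R k0)).subset ?_
        rintro _ ⟨γ, rfl⟩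
        have h2 := hperm γ k0 h0
        show γ • R k0 ∈ _
        rw [hsm, mem_singleton_iff]
        by_contra hc
        apply h1
        exact ⟨g γ * k0, fun h3 => hc ((hsame k0 (g γ * k0)).mpr h3).symm, h2⟩
    have hfin' : Finite (Γ ⧸ MulAction.stabilizer Γ (R k0)) := by
      have : Finite (MulAction.orbit Γ (R k0)) := hfin
      exact Finite.of_equiv _ (MulAction.orbitEquivQuotientStabilizer Γ (R k0))
    exact Subgroup.finiteIndex_of_finite_quotient
  · intro γ hγ
    rw [hfixiff, ← hsm]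
    exact hγ

end

/-- main theorem, for the whole group -/
theorem rankC0 (hsl : S_SLICE) (hdi : S_DICH) (hth : S_THREE) (hvs2 : S_VS2)
    {G : Type} [Group G] [TopologicalSpace G] {K : Set G} {P : Subgroup G}
    {T : ℝ → G} {w : G} (hG : IsTopologicalGroup G) (hR : RankOne K P T w)
    (X Γ E : Type) [NormedAddCommGroup E] [NormedSpace ℝ E]
    [FiniteDimensional ℝ E] [TopologicalSpace X] [T2Space X] [SecondCountableTopology X]
    [ConnectedSpace X] [Group Γ] [MulAction Γ X] (dev : X → E) (hol : Γ →* (E ≃ᵃ[ℝ] E))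
    (D : AffData X Γ E dev hol) (hinj : Function.Injective dev) (S : ℕ → Submodule ℝ E) (m : ℕ)
    (hO : OverFlag hol ⊤ S m) (ρ : G →* (S 0 ≃ₗ[ℝ] S 0)) (hr : IsRep T ρ)
    (hρ : ∀ γ : Γ, ∃ g : G, ∀ v : S 0, (hol γ).linear (v : E) = (ρ g v : E)) (j : ℕ)
    (hj : ∀ γ ∈ derivedSeries Γ j, ∀ v : E, hol γ v - v ∈ S 0) : IsHomeomorph dev := by
  choose g hg using hρ
  -- the restriction to `S 0`
  have hWinv : ∀ γ, ∀ v ∈ S 0, (hol γ).linear v ∈ S 0 := by
    intro γ v hv
    rw [show v = ((⟨v, hv⟩ : S 0) : E) from rfl, hg]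
    exact (ρ (g γ) _).2
  let B : Γ →* (S 0 ≃ₗ[ℝ] S 0) :=
    { toFun := fun γ => ρ (g γ)
      map_one' := by
        refine LinearEquiv.ext fun v => Subtype.ext ?_
        rw [← hg, map_one]
        rfl
      map_mul' := by
        intro γ δ
        refine LinearEquiv.ext fun v => Subtype.ext ?_
        show ((ρ (g (γ * δ)) v : S 0) : E) = ((ρ (g γ) (ρ (g δ) v) : S 0) : E)
        rw [← hg, ← hg, ← hg, map_mul]
        rfl }
  have hB : ∀ γ (v : S 0), (hol γ).linear (v : E) = (B γ v : E) := hg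
  obtain ⟨δ, hδ, hlow⟩ := lowerT ρ hG hR hr
  have hPc : IsCompact ((fun g => plateT T ρ g) '' KK K w) := by
    refine (KK_compact hG hR).image ?_
    exact ((ContinuousLinearMap.compL ℝ (upT T ρ) (S 0) (S 0)).flip
      (upT T ρ).subtypeL).continuous.comp (RR_cont ρ hr.1)
  have hFam : Fam ((fun g => plateT T ρ g) '' KK K w) := by
    rintro _ ⟨g, -, rfl⟩ _ ⟨h, -, rfl⟩
    exact famT_all ρ hG hR hr g h
  obtain ⟨C0, hC0, hC0r, hcc⟩ := range_cc D
  obtain ⟨r, hr0, hgood⟩ := hsl E (upT T ρ) Γ hol (S 0) (fun γ => B γ) hB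
    ((fun g => plateT T ρ g) '' KK K w) hPc (range dev) D.loc.isOpenMap.isOpen_range
    (range_inv D) (range_pd D hinj) C0 hC0 hC0r hcc δ hδ (by
      intro γ
      obtain ⟨k, hk, h⟩ := hlow (g γ)
      exact ⟨plateT T ρ k, ⟨k, hk, rfl⟩, h⟩)
  -- dichotomy for the slices
  have hdich : ∀ x ∈ range dev, {v : S 0 | x + v ∈ range dev} = univ ∨
      ∃ k ∈ KK K w, ∀ y ∈ {v : S 0 | x + v ∈ range dev}, ∀ f,
        y + plateT T ρ k f ∈ {v : S 0 | x + v ∈ range dev} := by
    intro x hx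
    have hopen : IsOpen {v : S 0 | x + v ∈ range dev} :=
      D.loc.isOpenMap.isOpen_range.preimage (continuous_const.add continuous_subtype_val)
    rcases hdi (S 0) (upT T ρ) _ hFam {v : S 0 | x + v ∈ range dev} r hopen
      ⟨0, by show x + ((0 : S 0) : E) ∈ range dev; rwa [Submodule.coe_zero, add_zero]⟩ hr0
      (fun p hp hp' => hgood x p hp hp') with h | ⟨_, ⟨k, hk, rfl⟩, h⟩
    · exact Or.inl h
    · exact Or.inr ⟨k, hk, h⟩
  by_cases hall : ∀ x ∈ range dev, {v : S 0 | x + v ∈ range dev} = univ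
  · refine over_complete X Γ E dev hol D S m hO fun x v hv => ?_
    refine geod_of_range D.loc hinj x v fun t => ?_
    have h1 : (t • (⟨v, hv⟩ : S 0)) ∈ {v : S 0 | dev x + v ∈ range dev} := by
      rw [hall _ (mem_range_self x)]
      trivial
    exact h1
  push Not at hall
  obtain ⟨x, hx, hbad⟩ := hall
  obtain ⟨k0, hk0, hinv0⟩ := (hdich x hx).resolve_left hbad
  set Ω : Set (S 0) := {v : S 0 | x + v ∈ range dev} with hΩ
  have h0mem : (0 : S 0) ∈ Ω := by
    show x + ((0 : S 0) : E) ∈ range dev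
    rwa [Submodule.coe_zero, add_zero]
  -- two transversal directions are impossible
  have hno : ∀ k : G, (∀ y ∈ Ω, ∀ f, y + plateT T ρ k f ∈ Ω) →
      ¬ Trans (plateT T ρ k0) (plateT T ρ k) := by
    intro k hk ht
    apply hbad
    refine eq_univ_iff_forall.mpr fun v => ?_
    obtain ⟨f, f', hf⟩ := ht v
    have h1 := hk _ (hinv0 0 h0mem f) (-f')
    rw [map_neg, zero_add, ← sub_eq_add_neg, hf] at h1
    exact h1
  have hne : upT T ρ ≠ ⊤ := by
    intro htop
    apply hno k0 hinv0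
    intro e
    have he : ρ k0⁻¹ e ∈ upT T ρ := by rw [htop]; trivial
    refine ⟨⟨_, he⟩, 0, ?_⟩
    rw [map_zero, sub_zero, plateT_apply]
    exact rapply_inv ρ k0 e
  -- the derived subgroup fixes the plate
  have hlinW : ∀ n ∈ derivedSeries Γ j, ∀ v : E, (hol n).linear v - v ∈ S 0 := by
    intro n hn v
    have h1 := hj n hn v
    have h2 := hj n hn 0
    have h3 := lin_zero (hol n) v
    have h4 : (hol n).linear v - v = (hol n v - v) - (hol n 0 - 0) := by
      rw [h3]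
      abel
    rw [h4]
    exact Submodule.sub_mem _ h1 h2
  have hfix0 : ∀ n ∈ derivedSeries Γ j, k0⁻¹ * g n * k0 ∈ P := by
    intro n hn
    by_contra hc
    have hc' : k0⁻¹ * (g n * k0) ∉ P := by rwa [← mul_assoc]
    refine hno (g n * k0) ?_ (transT1 ρ hG hR hr hc')
    -- the slice is invariant under `n`
    have hstep : ∀ n ∈ derivedSeries Γ j, ∀ y : S 0, y ∈ Ω → ∃ z : S 0, z ∈ Ω ∧
        x + (z : E) = hol n (x + y) := by
      intro n hn y hy
      have h1 : hol n (x + y) - (x + y) ∈ S 0 := hj n hn _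
      have h2 : hol n (x + y) - x ∈ S 0 := by
        have : hol n (x + y) - x = (hol n (x + y) - (x + y)) + y := by abel
        rw [this]
        exact Submodule.add_mem _ h1 y.2
      refine ⟨⟨_, h2⟩, ?_, ?_⟩
      · show x + (hol n (x + y) - x) ∈ range dev
        rw [add_sub_cancel]
        exact range_inv D n _ hy
      · show x + (hol n (x + y) - x) = _
        rw [add_sub_cancel]
    intro y hy f
    obtain ⟨z, hz, hz'⟩ := hstep n⁻¹ (inv_mem hn) y hy
    have h1 := hinv0 z hz f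
    obtain ⟨u, hu, hu'⟩ := hstep n hn _ h1
    have h2 : u = y + plateT T ρ (g n * k0) f := by
      apply Subtype.ext
      have e1 : x + (u : E) = x + ((y + plateT T ρ (g n * k0) f : S 0) : E) := by
        rw [hu', Submodule.coe_add, ← add_assoc, hz', hol_add]
        have e2 : hol n (hol n⁻¹ (x + y)) = x + y := hol_apply_inv n _
        rw [e2, Submodule.coe_add, add_assoc]
        congr 2
        show (hol n).linear ((ρ k0 (f : S 0) : S 0) : E) = ((ρ (g n * k0) (f : S 0) : S 0) : E)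
        rw [hg, rmul]
      exact add_left_cancel e1
    rw [← h2]
    exact hu
  have hnorm : (derivedSeries Γ j).Normal := inferInstance
  rcases elem_cases hG hR ρ hr hne B g (fun γ => rfl) (derivedSeries Γ j) k0 hfix0 with
    ⟨H, hH, hk⟩ | ⟨k1, k2, a1, a2, a3, b1, b2⟩
  · exact fixed_case hG hR X Γ E dev hol D hinj S m hO ρ hr g hg k0 H hH hk
  · obtain ⟨C, hC⟩ := hth G K P T w hR (S 0) ρ hr k0 k1 k2 a1 a2 a3
    refine complete_of_derived hvs2 X Γ E dev hol D hinj (S 0) hWinv j C hlinW ?_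
    intro n hn v hv
    rw [show v = ((⟨v, hv⟩ : S 0) : E) from rfl, hg]
    exact hC (g n) (hfix0 n hn) (b1 n hn) (b2 n hn) ⟨v, hv⟩

end Pool.Agent.N520.RO
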