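import Pool.Agent.N520.RO.Def

/-!
Project RO: exact statements of the parts.
-/

set_option autoImplicit false

open Set Filter Topology
open Pool.Agent.Y449.MS

namespace Pool.Agent.N520.RO

/-- contraction of commutators in a discrete block triangular group -/
def S_ZAS : Prop := ∀ (V : Type) [NormedAddCommGroup V] [NormedSpace ℝ V] [FiniteDimensional ℝ V]
    (Λ : Type) [Group Λ] (θ : Λ →* (V →L[ℝ] V)ˣ), Disc θ →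
  ∀ (m : ℕ) (π : Fin m → V →L[ℝ] V), Sys m π → Upper π θ → ∀ F : Set Λ, F.Finite →
    (∀ f ∈ F, ‖∑ i, π i * (θ f : V →L[ℝ] V) * π i - 1‖ ≤ 1 / 16) →
    (∃ k, ∀ x ∈ Cm F k, θ x = 1) ∧
    ∀ f ∈ F, ∀ (φ : V →ₗ[ℝ] ℂ) (μ : ℂ), φ ≠ 0 → (∀ v, φ ((θ f : V →L[ℝ] V) v) = μ * φ v) →
      ‖μ - 1‖ ≤ 1 / 8

/-- common eigenvectors -/
def S_CE : Prop := ∀ (W : Type) [AddCommGroup W] [Module ℂ W] [FiniteDimensional ℂ W]
    [Nontrivial W] (Λ : Type) [Group Λ] (ρ : Λ →* (W ≃ₗ[ℂ] W)) (F : Set Λ),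
  (∃ k, ∀ x ∈ Cm F k, ρ x = 1) →
  (∀ x ∈ F, ∀ (μ : ℂ) (w : W), w ≠ 0 → ρ x w = μ • w → ‖μ - 1‖ ≤ 1 / 8) →
  ∃ v : W, v ≠ 0 ∧ ∀ x ∈ F, ∃ μ : ℂ, ρ x v = μ • v

/-- triangularization over the complex numbers -/
def S_TRIA : Prop := ∀ (W : Type) [AddCommGroup W] [Module ℂ W] [FiniteDimensional ℂ W]
    (Λ : Type) [Group Λ] (ρ : Λ →* (W ≃ₗ[ℂ] W)) (X : Set Λ),
  (∀ F ⊆ X, F.Finite → ∃ k, ∀ x ∈ Cm F k, ρ x = 1) →
  (∀ x ∈ X, ∀ (μ : ℂ) (w : W), w ≠ 0 → ρ x w = μ • w → ‖μ - 1‖ ≤ 1 / 8) →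
  Tri (fun x : X => (ρ (x : Λ)).toLinearMap) (⊤ : Submodule ℂ W)

/-- triangular groups are solvable -/
def S_TRIB : Prop := ∀ (W : Type) [AddCommGroup W] [Module ℂ W] [FiniteDimensional ℂ W]
    (Λ : Type) [Group Λ] (ρ : Λ →* (W ≃ₗ[ℂ] W)) (X : Set Λ),
  Tri (fun x : X => (ρ (x : Λ)).toLinearMap) (⊤ : Submodule ℂ W) →
  Group.IsSolvable ((Subgroup.closure X).map ρ)

/-- the commutator subgroup has bounded diagonal blocks -/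
def S_BDD : Prop := ∀ (V : Type) [NormedAddCommGroup V] [NormedSpace ℝ V] [FiniteDimensional ℝ V]
    (Λ : Type) [Group Λ] (θ : Λ →* (V →L[ℝ] V)ˣ) (m : ℕ) (π : Fin m → V →L[ℝ] V), Sys m π →
  Upper π θ → QC π θ → ∃ C : ℝ, ∀ l ∈ commutator Λ, ∀ i, ‖π i * (θ l : V →L[ℝ] V) * π i‖ ≤ C

/-- finite index from compactness -/
def S_IDX : Prop := ∀ (V : Type) [NormedAddCommGroup V] [NormedSpace ℝ V] [FiniteDimensional ℝ V]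
    (Λ : Type) [Group Λ] (D N : Subgroup Λ) (g : Λ → V →L[ℝ] V) (C ε : ℝ),
  (∀ d ∈ D, ‖g d‖ ≤ C) → 0 < ε → (∀ d ∈ D, ∀ e ∈ D, ‖g d - g e‖ < ε → d⁻¹ * e ∈ N) →
  N.relIndex D ≠ 0

/-- a group whose commutator subgroup has a normal solvable subgroup of finite index -/
def S_GRP : Prop := ∀ (Λ : Type) [Group Λ] (N : Subgroup Λ) [N.Normal], Group.IsSolvable N →
  N ≤ commutator Λ → N.relIndex (commutator Λ) ≠ 0 →
  ∃ C : Subgroup Λ, C.FiniteIndex ∧ Group.IsSolvable C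

/-- a flag is given by a complete system of orthogonal idempotents -/
def S_SPL : Prop := ∀ (V : Type) [NormedAddCommGroup V] [NormedSpace ℝ V] [FiniteDimensional ℝ V]
    (m : ℕ) (S : ℕ → Submodule ℝ V), S 0 = ⊥ → S m = ⊤ → (∀ i < m, S i ≤ S (i + 1)) →
  ∃ π : Fin m → V →L[ℝ] V, Sys m π ∧
    ∀ i ≤ m, ∀ v, v ∈ S i ↔ ∀ j : Fin m, i ≤ (j : ℕ) → π j v = 0

/-- discrete groups with a quasi-conformal flag are virtually solvable -/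
def S_VS : Prop := ∀ (V : Type) [NormedAddCommGroup V] [NormedSpace ℝ V] [FiniteDimensional ℝ V]
    (Λ : Type) [Group Λ] (θ : Λ →* (V →L[ℝ] V)ˣ) (m : ℕ) (π : Fin m → V →L[ℝ] V), Disc θ →
  Sys m π → Upper π θ → QC π θ → ∃ C : Subgroup Λ, C.FiniteIndex ∧ Group.IsSolvable (C.map θ)

/-- the flag of nonnegative weights of a representation -/
def S_WFLAG : Prop := ∀ (G : Type) [Group G] [TopologicalSpace G] [IsTopologicalGroup G]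
    (K : Set G) (P : Subgroup G) (T : ℝ → G) (w : G), RankOne K P T w →
  ∀ (E : Type) [NormedAddCommGroup E] [NormedSpace ℝ E] [FiniteDimensional ℝ E]
    (ρ : G →* (E ≃ₗ[ℝ] E)), IsRep T ρ →
  ∃ (m : ℕ) (S : ℕ → Submodule ℝ E) (C : ℝ), S 0 = ⊥ ∧ S m = ⊤ ∧ (∀ i < m, S i ≤ S (i + 1)) ∧
    (∀ i ≤ m, ∀ p ∈ P, ∀ v ∈ S i, ρ p v ∈ S i) ∧
    ∀ i < m, ∀ p ∈ P, ∃ c : ℝ, 0 < c ∧ ∀ v ∈ S (i + 1),
      (∃ u ∈ S i, ‖ρ p v - u‖ ≤ C * c * ‖v‖) ∧ ∃ u ∈ S i, ‖ρ p⁻¹ v - u‖ ≤ C * c⁻¹ * ‖v‖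

end Pool.Agent.N520.RO
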