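import Pool.Agent.N520.RO.Stm
import Pool.Agent.W689.Mk.Sec

/-!
Project RO: exact statements of the geometric parts.
-/

set_option autoImplicit false

open Set Filter Topology
open Pool.Agent.W689.Mk

namespace Pool.Agent.N520.RO

/-- discreteness of the holonomy group -/
def S_DISC : Prop := ∀ (X Γ E : Type) [TopologicalSpace X] [T2Space X]
    [SecondCountableTopology X] [Nonempty X] [Group Γ] [MulAction Γ X] [NormedAddCommGroup E]
    [NormedSpace ℝ E] [FiniteDimensional ℝ E] (dev : X → E) (hol : Γ →* (E ≃ᵃ[ℝ] E)),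
  AffData X Γ E dev hol → Function.Injective dev →
  ∃ ε : ℝ, 0 < ε ∧ ∀ γ : Γ, ‖aff (hol γ) - 1‖ < ε → hol γ = 1

end Pool.Agent.N520.RO
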